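import Pool.Agent.DL.PC2
import Pool.Agent.DL.EX.Defs

/-!
# MP_3ff0f8_gt, ALGEBRA HALF: cycles given by lists of natural numbers (helper19)

A cycle is given by a list `c` of natural numbers (the labels of its vertices, `x : ℕ → α`), `prs c` = the list of its
consecutive pairs, `CE x c` = the set of its edges.  `isCyc`, `mem_CE`, `coh_CE`: it is a cycle, its edges, coherence.
-/

open SimpleGraph Finset

set_option linter.unusedSectionVars false

namespace DL

namespace CYZ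

variable {α : Type} [Fintype α] [DecidableEq α] {G : SimpleGraph α}

section Z

variable {k : ℕ} [NeZero k] {v : ZMod k → α}

/-- edges of a closed walk -/
def cE (v : ZMod k → α) : Finset (Sym2 α) := univ.image fun i : ZMod k => s(v i, v (i + 1))

theorem mem_cE {e : Sym2 α} : e ∈ cE v ↔ ∃ i, s(v i, v (i + 1)) = e := by simp [cE]

theorem cast_inj {a b : ℕ} (ha : a < k) (hb : b < k) (h : (a : ZMod k) = b) : a = b := by
  have := congrArg ZMod.val h
  rwa [ZMod.val_cast_of_lt ha, ZMod.val_cast_of_lt hb] at this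

theorem e_inj (hk : 3 ≤ k) (hv : Function.Injective v) {i j : ZMod k} (h : s(v i, v (i + 1)) = s(v j, v (j + 1))) :
    i = j := by
  rw [Sym2.eq_iff] at h
  rcases h with ⟨h, _⟩ | ⟨h1, h2⟩
  · exact hv h
  · have h1 := hv h1
    have h2 := hv h2
    have h3 : ((2 : ℕ) : ZMod k) = (0 : ℕ) := by
      push_cast
      linear_combination h2 - h1
    have := cast_inj (by omega) (by omega) h3
    omega

theorem path (hv : Function.Injective v) (hG : ∀ i, G.Adj (v i) (v (i + 1))) (i : ZMod k) (m : ℕ) (hm : m < k) :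
    IsPth G (v i) (v (i + m)) ((range m).image fun t : ℕ => s(v (i + t), v (i + t + 1))) := by
  induction m with
  | zero => simpa using IsPth.nil (v i)
  | succ m ih =>
    have h1 := ih (by omega)
    rw [range_add_one, image_insert]
    have e : v (i + ((m + 1 : ℕ) : ZMod k)) = v (i + m + 1) := by
      congr 1
      push_cast
      ring
    rw [e]
    refine h1.concat (hG _) ?_
    rw [mem_vs]
    rintro ⟨f, hf, hvf⟩
    obtain ⟨t, ht, rfl⟩ := mem_image.1 hf
    rw [Finset.mem_range] at ht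
    rw [Sym2.mem_iff] at hvf
    rcases hvf with h | h
    · have h2 := hv h
      have h3 : ((m + 1 : ℕ) : ZMod k) = (t : ℕ) := by
        push_cast
        linear_combination h2
      have := cast_inj (by omega) (by omega) h3
      omega
    · have h2 := hv h
      have h3 : ((m + 1 : ℕ) : ZMod k) = (t + 1 : ℕ) := by
        push_cast
        linear_combination h2
      have := cast_inj (by omega) (by omega) h3
      omega

theorem isCyc_cE (hk : 3 ≤ k) (hv : Function.Injective v) (hG : ∀ i, G.Adj (v i) (v (i + 1))) : IsCyc G (cE v) := by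
  have h1 := path hv hG 1 (k - 1) (by omega)
  have h0 : (1 : ZMod k) + ((k - 1 : ℕ) : ZMod k) = 0 := by
    rw [Nat.cast_sub (by omega : 1 ≤ k)]
    simp
  rw [h0] at h1
  have hadj : G.Adj (v 1) (v 0) := by
    have := hG 0
    rw [zero_add] at this
    exact this.symm
  have hnot : s(v 1, v 0) ∉ (range (k - 1)).image fun t : ℕ => s(v (1 + t), v (1 + t + 1)) := by
    intro h
    obtain ⟨t, ht, h2⟩ := mem_image.1 h
    rw [Finset.mem_range] at ht
    have h3 : s(v (1 + t), v (1 + t + 1)) = s(v 0, v (0 + 1)) := by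
      rw [h2, zero_add, Sym2.eq_swap]
    have h4 := e_inj hk hv h3
    have h5 : ((1 + t : ℕ) : ZMod k) = (0 : ℕ) := by push_cast; exact h4
    have := cast_inj (by omega) (by omega) h5
    omega
  have h2 := h1.isCyc hadj hnot
  have e : cE v = insert s(v 1, v 0) ((range (k - 1)).image fun t : ℕ => s(v (1 + t), v (1 + t + 1))) := by
    ext f
    rw [mem_cE, mem_insert, mem_image]
    constructor
    · rintro ⟨i, rfl⟩
      by_cases hi : i = 0
      · left
        rw [hi, zero_add, Sym2.eq_swap]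
      · right
        have h4 : i.val ≠ 0 := fun h => hi ((ZMod.val_eq_zero i).1 h)
        have h5 := ZMod.val_lt i
        refine ⟨i.val - 1, Finset.mem_range.2 (by omega), ?_⟩
        have h6 : (1 : ZMod k) + ((i.val - 1 : ℕ) : ZMod k) = i := by
          rw [Nat.cast_sub (by omega : 1 ≤ i.val)]
          simp
        rw [h6]
    · rintro (rfl | ⟨t, _, rfl⟩)
      · exact ⟨0, by rw [zero_add, Sym2.eq_swap]⟩
      · exact ⟨1 + t, rfl⟩
  rw [e]
  exact h2

theorem rch (hk : 3 ≤ k) (hv : Function.Injective v) {i j : ZMod k} (m : ℕ) (hm : m ≤ (j - (i + 1)).val) :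
    Rch (cE v \ {s(v i, v (i + 1)), s(v j, v (j + 1))}) (v (i + 1)) (v (i + 1 + m)) := by
  have hM := ZMod.val_lt (j - (i + 1))
  induction m with
  | zero => simpa using Rch.refl _ _
  | succ m ih =>
    refine (ih (by omega)).trans ?_
    have e : v (i + 1 + ((m + 1 : ℕ) : ZMod k)) = v (i + 1 + m + 1) := by
      congr 1
      push_cast
      ring
    rw [e]
    refine Rch.of_mem ?_
    rw [mem_sdiff, mem_insert, mem_singleton, not_or]
    refine ⟨mem_cE.2 ⟨_, rfl⟩, ?_, ?_⟩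
    · intro h
      have h1 := e_inj hk hv h
      have h2 : ((m + 1 : ℕ) : ZMod k) = (0 : ℕ) := by
        push_cast
        linear_combination h1
      have := cast_inj (by omega) (by omega) h2
      omega
    · intro h
      have h1 := e_inj hk hv h
      have h2 : (m : ZMod k) = j - (i + 1) := by
        linear_combination h1
      have h3 := congrArg ZMod.val h2
      rw [ZMod.val_cast_of_lt (by omega)] at h3
      omega

theorem coh_cE (hk : 3 ≤ k) (hv : Function.Injective v) (i j : ZMod k) :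
    coh (v i) (v (i + 1)) (v j) (v (j + 1)) (cE v) = 1 := by
  rw [← zmod2_ne_zero, coh_ne_zero]
  refine ⟨mem_cE.2 ⟨i, rfl⟩, mem_cE.2 ⟨j, rfl⟩, ?_⟩
  have h := rch hk hv (i := i) (j := j) (j - (i + 1)).val le_rfl
  have e : i + 1 + (((j - (i + 1)).val : ℕ) : ZMod k) = j := by
    rw [ZMod.natCast_zmod_val]
    ring
  rwa [e] at h

theorem coh_cE' (hk : 3 ≤ k) (hv : Function.Injective v) (hG : ∀ i, G.Adj (v i) (v (i + 1))) {i j : ZMod k}
    (hij : i ≠ j) : coh (v i) (v (i + 1)) (v (j + 1)) (v j) (cE v) = 0 := by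
  have h1 := (isCyc_cE hk hv hG).coh_add_swap (a := v i) (b := v (i + 1)) (c := v j) (d := v (j + 1))
    (fun h => hij (e_inj hk hv h))
  rw [coh_cE hk hv, chi_of_mem (mem_cE.2 ⟨i, rfl⟩), chi_of_mem (mem_cE.2 ⟨j, rfl⟩), mul_one] at h1
  rcases zmod2_cases (coh (v i) (v (i + 1)) (v (j + 1)) (v j) (cE v)) with h | h
  · exact h
  · rw [h] at h1
    exact absurd h1 (by decide)

end Z

/-! ## Lists -/

/-- consecutive pairs of a cyclic list -/
def prs (c : List ℕ) : List (ℕ × ℕ) :=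
  (List.range c.length).map fun t => (c.getD t 0, c.getD ((t + 1) % c.length) 0)

/-- the edges -/
def CE (x : ℕ → α) (c : List ℕ) : Finset (Sym2 α) := ((prs c).map fun p => s(x p.1, x p.2)).toFinset

/-- the check of a cycle -/
def okc (E : List (ℕ × ℕ)) (c : List ℕ) : Bool :=
  decide c.Nodup && decide (3 ≤ c.length) && (prs c).all fun p => E.contains p || E.contains p.swap

/-- a labelled graph -/
structure Lab (G : SimpleGraph α) (n : ℕ) (x : ℕ → α) (E : List (ℕ × ℕ)) : Prop where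
  inj : ∀ i < n, ∀ j < n, x i = x j → i = j
  lt : ∀ e ∈ E, e.1 < e.2 ∧ e.2 < n
  adj : ∀ a b, G.Adj a b ↔ ∃ e ∈ E, s(a, b) = s(x e.1, x e.2)

theorem Lab.adj' {n : ℕ} {x : ℕ → α} {E : List (ℕ × ℕ)} (h : Lab G n x E) {p : ℕ × ℕ}
    (hp : p ∈ E ∨ p.swap ∈ E) : G.Adj (x p.1) (x p.2) ∧ p.1 < n ∧ p.2 < n := by
  rcases hp with hp | hp
  · have := h.lt _ hp
    exact ⟨(h.adj _ _).2 ⟨p, hp, rfl⟩, by omega, by omega⟩
  · have := h.lt _ hp
    simp only [Prod.fst_swap, Prod.snd_swap] at this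
    exact ⟨(h.adj _ _).2 ⟨p.swap, hp, Sym2.eq_swap⟩, by omega, by omega⟩

/-- the function on `ZMod k` -/
def cv (c : List ℕ) (i : ZMod c.length) : ℕ := c.getD i.val 0

theorem mem_prs {c : List ℕ} [NeZero c.length] {a b : ℕ} :
    (a, b) ∈ prs c ↔ ∃ i : ZMod c.length, cv c i = a ∧ cv c (i + 1) = b := by
  have hval : ∀ i : ZMod c.length, (i + 1).val = (i.val + 1) % c.length := by
    intro i
    rw [ZMod.val_add, ZMod.val_one_eq_one_mod, Nat.add_mod_mod]
  rw [prs, List.mem_map]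
  constructor
  · rintro ⟨t, ht, h⟩
    rw [List.mem_range] at ht
    rw [Prod.mk.injEq] at h
    refine ⟨(t : ZMod c.length), ?_, ?_⟩
    · rw [cv, ZMod.val_cast_of_lt ht]
      exact h.1
    · rw [cv, hval, ZMod.val_cast_of_lt ht]
      exact h.2
  · rintro ⟨i, h1, h2⟩
    refine ⟨i.val, List.mem_range.2 (ZMod.val_lt i), ?_⟩
    rw [Prod.mk.injEq]
    refine ⟨h1, ?_⟩
    rw [← hval]
    exact h2

theorem cv_inj {c : List ℕ} [NeZero c.length] (hc : c.Nodup) : Function.Injective (cv c) := by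
  intro i j h
  have hi := ZMod.val_lt i
  have hj := ZMod.val_lt j
  rw [cv, cv, List.getD_eq_getElem _ _ hi, List.getD_eq_getElem _ _ hj] at h
  exact ZMod.val_injective _ ((List.Nodup.getElem_inj_iff hc).1 h)

theorem cv_mem {c : List ℕ} [NeZero c.length] (i : ZMod c.length) : cv c i ∈ c := by
  have hi := ZMod.val_lt i
  rw [cv, List.getD_eq_getElem _ _ hi]
  exact List.getElem_mem _

section

variable {n : ℕ} {x : ℕ → α} {E : List (ℕ × ℕ)}

/-- what `okc` means -/
theorem okc_spec (h : Lab G n x E) {c : List ℕ} (hc : okc E c = true) :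
    ∃ _ : NeZero c.length, 3 ≤ c.length ∧ Function.Injective (fun i => x (cv c i)) ∧
      (∀ i, G.Adj (x (cv c i)) (x (cv c (i + 1)))) ∧ (∀ i, cv c i < n) ∧ CE x c = cE (fun i => x (cv c i)) := by
  rw [okc, Bool.and_eq_true, Bool.and_eq_true, decide_eq_true_iff, decide_eq_true_iff, List.all_eq_true] at hc
  obtain ⟨⟨h1, h2⟩, h3⟩ := hc
  have : NeZero c.length := ⟨by omega⟩
  have h4 : ∀ i : ZMod c.length, (cv c i, cv c (i + 1)) ∈ prs c := fun i => mem_prs.2 ⟨i, rfl, rfl⟩
  have h5 : ∀ i : ZMod c.length, G.Adj (x (cv c i)) (x (cv c (i + 1))) ∧ cv c i < n ∧ cv c (i + 1) < n := by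
    intro i
    have := h3 _ (h4 i)
    rw [Bool.or_eq_true, List.contains_iff_mem, List.contains_iff_mem] at this
    exact h.adj' this
  refine ⟨inferInstance, h2, ?_, fun i => (h5 i).1, fun i => (h5 i).2.1, ?_⟩
  · intro i j hij
    exact cv_inj h1 (h.inj _ (h5 i).2.1 _ (h5 j).2.1 hij)
  · ext e
    rw [CE, List.mem_toFinset, List.mem_map, mem_cE]
    constructor
    · rintro ⟨⟨a, b⟩, hp, rfl⟩
      obtain ⟨i, rfl, rfl⟩ := mem_prs.1 hp
      exact ⟨i, rfl⟩
    · rintro ⟨i, rfl⟩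
      exact ⟨_, h4 i, rfl⟩

theorem isCyc (h : Lab G n x E) {c : List ℕ} (hc : okc E c = true) : IsCyc G (CE x c) := by
  obtain ⟨_, h1, h2, h3, _, h5⟩ := okc_spec h hc
  rw [h5]
  exact isCyc_cE h1 h2 h3

theorem mem_CE (h : Lab G n x E) {c : List ℕ} (hc : okc E c = true) {a b : ℕ} (ha : a < n) (hb : b < n) :
    s(x a, x b) ∈ CE x c ↔ (a, b) ∈ prs c ∨ (b, a) ∈ prs c := by
  obtain ⟨_, h1, h2, h3, h4, h5⟩ := okc_spec h hc
  rw [h5, mem_cE]
  constructor
  · rintro ⟨i, hi⟩
    rw [Sym2.eq_iff] at hi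
    rcases hi with ⟨e1, e2⟩ | ⟨e1, e2⟩
    · exact Or.inl (mem_prs.2 ⟨i, h.inj _ (h4 _) _ ha e1, h.inj _ (h4 _) _ hb e2⟩)
    · exact Or.inr (mem_prs.2 ⟨i, h.inj _ (h4 _) _ hb e1, h.inj _ (h4 _) _ ha e2⟩)
  · rintro (hp | hp)
    · obtain ⟨i, rfl, rfl⟩ := mem_prs.1 hp
      exact ⟨i, rfl⟩
    · obtain ⟨i, rfl, rfl⟩ := mem_prs.1 hp
      exact ⟨i, Sym2.eq_swap⟩

/-- coherence as a Boolean -/
def cohB (c : List ℕ) (a b d e : ℕ) : Bool :=
  ((prs c).contains (a, b) && (prs c).contains (d, e)) || ((prs c).contains (b, a) && (prs c).contains (e, d))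

theorem coh_CE (h : Lab G n x E) {c : List ℕ} (hc : okc E c = true) {a b d e : ℕ} (ha : a < n) (hb : b < n)
    (hd : d < n) (he : e < n) (had : a ≠ d) (hae : a ≠ e) :
    coh (x a) (x b) (x d) (x e) (CE x c) = if cohB c a b d e then 1 else 0 := by
  have hm1 := mem_CE h hc ha hb
  have hm2 := mem_CE h hc hd he
  have hcyc := isCyc h hc
  obtain ⟨_, h1, h2, h3, h4, h5⟩ := okc_spec h hc
  have hB : cohB c a b d e = true ↔ ((a, b) ∈ prs c ∧ (d, e) ∈ prs c) ∨ ((b, a) ∈ prs c ∧ (e, d) ∈ prs c) := by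
    rw [cohB, Bool.or_eq_true, Bool.and_eq_true, Bool.and_eq_true, List.contains_iff_mem, List.contains_iff_mem,
      List.contains_iff_mem, List.contains_iff_mem]
  have hex : ∀ a b, (a, b) ∈ prs c → (b, a) ∈ prs c → False := by
    intro a b h6 h7
    obtain ⟨i, e1, e2⟩ := mem_prs.1 h6
    obtain ⟨j, e3, e4⟩ := mem_prs.1 h7
    have e5 : i = j := by
      refine e_inj h1 h2 (v := fun i => x (cv c i)) ?_
      simp only [e1, e2, e3, e4]
      exact Sym2.eq_swap
    subst e5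
    have e6 : cv c i = cv c (i + 1) := by rw [e1, e4]
    have := h3 i
    rw [← e6] at this
    exact this.ne rfl
  have key1 : ∀ a b d e, (a, b) ∈ prs c → (d, e) ∈ prs c → coh (x a) (x b) (x d) (x e) (CE x c) = 1 := by
    intro a b d e h6 h7
    obtain ⟨i, rfl, rfl⟩ := mem_prs.1 h6
    obtain ⟨j, rfl, rfl⟩ := mem_prs.1 h7
    rw [h5]
    exact coh_cE h1 h2 i j
  have key0 : ∀ a b d e, a ≠ e → (a, b) ∈ prs c → (e, d) ∈ prs c → coh (x a) (x b) (x d) (x e) (CE x c) = 0 := by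
    intro a b d e hne h6 h7
    obtain ⟨i, rfl, rfl⟩ := mem_prs.1 h6
    obtain ⟨j, rfl, rfl⟩ := mem_prs.1 h7
    rw [h5]
    exact coh_cE' h1 h2 h3 (fun h => hne (by rw [h]))
  by_cases hab : s(x a, x b) ∈ CE x c
  swap
  · rw [coh_eq_zero_left hab, if_neg]
    rw [hB]
    rintro (⟨h6, _⟩ | ⟨h6, _⟩)
    · exact hab (hm1.2 (Or.inl h6))
    · exact hab (hm1.2 (Or.inr h6))
  by_cases hde : s(x d, x e) ∈ CE x c
  swap
  · rw [coh_eq_zero_right hde, if_neg]
    rw [hB]
    rintro (⟨_, h6⟩ | ⟨_, h6⟩)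
    · exact hde (hm2.2 (Or.inl h6))
    · exact hde (hm2.2 (Or.inr h6))
  rcases hm1.1 hab with h6 | h6 <;> rcases hm2.1 hde with h7 | h7
  · rw [key1 _ _ _ _ h6 h7, if_pos (hB.2 (Or.inl ⟨h6, h7⟩))]
  · rw [key0 _ _ _ _ hae h6 h7, if_neg]
    rw [hB]
    rintro (⟨_, h8⟩ | ⟨h8, _⟩)
    · exact hex _ _ h7 h8
    · exact hex _ _ h6 h8
  · rw [← hcyc.coh_reverse]
    by_cases hbd : b = d
    · -- (b, a), (b, e) both in prs: a = e
      exfalso
      subst hbd
      obtain ⟨i, e1, e2⟩ := mem_prs.1 h6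
      obtain ⟨j, e3, e4⟩ := mem_prs.1 h7
      have hij : i = j := h2 (by simp only [e1, e3])
      subst hij
      exact hae (by rw [← e2, ← e4])
    · rw [key0 _ _ _ _ hbd h6 h7, if_neg]
      rw [hB]
      rintro (⟨h8, _⟩ | ⟨_, h8⟩)
      · exact hex _ _ h6 h8
      · exact hex _ _ h7 h8
  · rw [← hcyc.coh_reverse, key1 _ _ _ _ h6 h7, if_pos (hB.2 (Or.inr ⟨h6, h7⟩))]

end

end CYZ

end DL
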