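import Pool.Agent.DL.BASE.Enc

/-!
MP_3ff0f8_gt, ALGEBRA HALF, BASE: the checker for `U(G)` of a graph with few vertices.  (helper59)

All programs are in continuation passing style; `fc` forces the evaluation of a number in the kernel.
A certificate is a table `O` of all cycles (edge masks), the first ones (the seeds) are independent for `F(G)`
(a triangular family of functions), the others are obtained one after the other by `D_4` minors.
-/

open SimpleGraph Finset

namespace DL.BASE

/-- forced evaluation of `x` in the kernel -/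
def fc {β : Type} (x : ℕ) (f : ℕ → β) : β :=
  match x with
  | .zero => f .zero
  | .succ k => f (.succ k)

@[simp] theorem fc_eq {β : Type} (x : ℕ) (f : ℕ → β) : fc x f = f x := by
  cases x <;> rfl

/-- bounded quantifier -/
def allB : ℕ → (ℕ → Bool) → Bool
  | .zero, _ => true
  | .succ k, f => f k && allB k f

/-- the numbers of the certificate -/
structure Crt where
  n : ℕ
  T : ℕ
  O : ℕ
  P1 : ℕ
  H1 : ℕ
  P2 : ℕ
  H2 : ℕ
  N : ℕ
  EL : ℕ

def Crt.E (c : Crt) : Enc := ⟨c.n, c.T⟩

/-- index of a directed edge -/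
def di (n a b : ℕ) : ℕ := Nat.add (nat_lit 32) (Nat.add (Nat.mul n a) b)

/-- bit of a directed edge -/
def db (n W a b : ℕ) : ℕ := bt (Nat.mul W (di n a b))

/-- entry of the order table -/
def Crt.o (c : Crt) (i : ℕ) : ℕ :=
  Nat.land (Nat.shiftRight c.O (Nat.mul (nat_lit 32) i)) (nat_lit 4294967295)

/-- look up an edge mask (no property of this function is used) -/
def Crt.look (c : Crt) (x : ℕ) : ℕ :=
  fc (Nat.land (Nat.shiftRight c.H1 (Nat.mul (nat_lit 12) (Nat.mod x c.P1))) (nat_lit 4095)) fun i =>
    bif Nat.beq (c.o i) x then i else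
      Nat.land (Nat.shiftRight c.H2 (Nat.mul (nat_lit 12) (Nat.mod x c.P2))) (nat_lit 4095)

/-- the mask `x` is in the table -/
def Crt.mem (c : Crt) (x : ℕ) : Bool :=
  fc (c.look x) fun i => Nat.beq (c.o i) x && Nat.ble (Nat.succ i) c.N

/-- run through a cycle given by a list of vertices: `4` bits each, `15` ends; `x` collects the edges,
`y` the edges and directed edges in slots of width `W` -/
def cyc (E : Enc) (W s : ℕ) : ℕ → ℕ → ℕ → ℕ → ℕ → ℕ → (ℕ → ℕ → Bool) → Bool
  | .zero, _, _, _, _, _, _ => false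
  | .succ t, code, v, vis, x, y, k =>
    fc (Nat.land code (nat_lit 15)) fun w =>
      bif Nat.beq w (nat_lit 15) then
        E.adj v s && (!(tb x (E.ix v s)) && fc (Nat.lor x (E.eb v s)) fun x' =>
          fc (Nat.lor y (Nat.lor (bt (Nat.mul W (E.ix v s))) (db E.n W v s))) (k x'))
      else
        E.adj v w && (!(tb vis w) && (Nat.ble (Nat.succ w) E.n && fc (Nat.lor x (E.eb v w)) fun x' =>
          fc (Nat.lor y (Nat.lor (bt (Nat.mul W (E.ix v w))) (db E.n W v w))) fun y' =>
            fc (Nat.lor vis (bt w)) fun vis' =>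
              fc (Nat.shiftRight code (nat_lit 4)) fun code' =>
                cyc E W s t code' w vis' x' y' k))

/-- the slot `i` of width `W` -/
def slot (W Y i : ℕ) : ℕ := Nat.mod (Nat.shiftRight Y (Nat.mul W i)) (bt W)

/-- values of a function on all seeds; `20` bits for each summand: a product of three edges or
a coherence function -/
def val (n W Y : ℕ) : ℕ → ℕ → ℕ → (ℕ → Bool) → Bool
  | .zero, _, _, _ => false
  | .succ t, code, acc, k =>
    bif Nat.beq code (nat_lit 0) then k acc else
      fc (Nat.shiftRight code (nat_lit 20)) fun code' =>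
        bif tb code (nat_lit 18) then
          fc (Nat.land code (nat_lit 15)) fun a =>
            fc (Nat.land (Nat.shiftRight code (nat_lit 4)) (nat_lit 15)) fun b =>
              fc (Nat.land (Nat.shiftRight code (nat_lit 8)) (nat_lit 15)) fun a' =>
                fc (Nat.land (Nat.shiftRight code (nat_lit 12)) (nat_lit 15)) fun b' =>
                  !(Nat.beq a b' && Nat.beq b a') && (Nat.ble (Nat.succ a) n && (Nat.ble (Nat.succ b) n &&
                    (Nat.ble (Nat.succ a') n && (Nat.ble (Nat.succ b') n &&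
                      fc (Nat.xor acc (Nat.xor
                        (Nat.land (slot W Y (di n a b)) (slot W Y (di n a' b')))
                        (Nat.land (slot W Y (di n b a)) (slot W Y (di n b' a'))))) fun acc' =>
                          val n W Y t code' acc' k))))
        else
          fc (Nat.land code (nat_lit 31)) fun i =>
            fc (Nat.land (Nat.shiftRight code (nat_lit 5)) (nat_lit 31)) fun j =>
              fc (Nat.land (Nat.shiftRight code (nat_lit 10)) (nat_lit 31)) fun l =>
                fc (Nat.xor acc (Nat.land (slot W Y i) (Nat.land (slot W Y j) (slot W Y l)))) fun acc' =>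
                  val n W Y t code' acc' k

/-- the functions are triangular on the seeds -/
def tri (n W Y : ℕ) : List ℕ → ℕ → Bool
  | [], _ => true
  | b :: l, i => val n W Y (nat_lit 400) b (nat_lit 0) (fun v =>
      Nat.beq (Nat.mod v (bt (Nat.succ i))) (bt i)) && tri n W Y l (Nat.succ i)

/-- the seeds -/
def seeds (c : Crt) (W : ℕ) : List ℕ → ℕ → ℕ → (ℕ → Bool) → Bool
  | [], _, Y, k => k Y
  | a :: l, i, Y, k =>
    fc (Nat.land a (nat_lit 15)) fun s => fc (Nat.shiftRight a (nat_lit 4)) fun a' =>
      Nat.ble (Nat.succ s) c.n && (Nat.ble (Nat.succ i) W &&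
        cyc c.E W s (Nat.succ c.n) a' s (bt s) (nat_lit 0) (nat_lit 0) fun x y =>
          Nat.beq x (c.o i) && fc (Nat.lor Y (Nat.shiftLeft y i)) fun Y' => seeds c W l (Nat.succ i) Y' k)

/-- look up in a tree -/
def lk : List (ℕ × ℕ) → ℕ → (ℕ → Bool) → Bool
  | [], _, _ => false
  | (v, p) :: l, w, k => bif Nat.beq v w then k p else lk l w k

/-- grow a tree; `8` bits for each step, `255` ends -/
def grow (E : Enc) : ℕ → ℕ → ℕ → List (ℕ × ℕ) → (ℕ → ℕ → List (ℕ × ℕ) → Bool) → Bool
  | .zero, _, _, _, _ => false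
  | .succ t, code, u, L, k =>
    fc (Nat.land code (nat_lit 15)) fun v =>
      fc (Nat.land (Nat.shiftRight code (nat_lit 4)) (nat_lit 15)) fun w =>
        fc (Nat.shiftRight code (nat_lit 8)) fun code' =>
          bif Nat.beq v (nat_lit 15) then k code' u L else
            lk L v fun p => E.adj v w && (!(tb u w) && (Nat.ble (Nat.succ w) E.n &&
              fc (Nat.lor u (bt w)) fun u' => fc (Nat.xor p (E.eb v w)) fun p' =>
                grow E t code' u' ((w, p') :: L) k))

/-- a tree -/
def tree (E : Enc) (code u : ℕ) (k : ℕ → ℕ → List (ℕ × ℕ) → Bool) : Bool :=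
  fc (Nat.land code (nat_lit 15)) fun r => fc (Nat.shiftRight code (nat_lit 4)) fun code' =>
    Nat.ble (Nat.succ r) E.n && (!(tb u r) &&
      fc (Nat.lor u (bt r)) fun u' => grow E E.n code' u' [(r, nat_lit 0)] k)

/-- a bead: two edges; `4` bits for each end -/
def bead (E : Enc) (code : ℕ) (L L' : List (ℕ × ℕ)) (k : ℕ → ℕ → ℕ → Bool) : Bool :=
  fc (Nat.land code (nat_lit 15)) fun p =>
    fc (Nat.land (Nat.shiftRight code (nat_lit 4)) (nat_lit 15)) fun q =>
      fc (Nat.land (Nat.shiftRight code (nat_lit 8)) (nat_lit 15)) fun p' =>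
        fc (Nat.land (Nat.shiftRight code (nat_lit 12)) (nat_lit 15)) fun q' =>
          fc (Nat.shiftRight code (nat_lit 16)) fun code' =>
            lk L p fun a => lk L' q fun b => lk L p' fun a' => lk L' q' fun b' =>
              E.adj p q && (E.adj p' q' && (!(Nat.beq (E.ix p q) (E.ix p' q')) &&
                fc (Nat.xor (E.eb p q) (Nat.xor a b)) fun z =>
                  fc (Nat.xor (E.eb p' q') (Nat.xor a' b')) fun z' => k code' z z'))

/-- toggle -/
def tg (c : Crt) (x D : ℕ) (k : ℕ → Bool) : Bool :=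
  fc x fun x => fc (c.look x) fun i => Nat.beq (c.o i) x && fc (Nat.xor D (bt i)) k

def tg2 (c : Crt) (a a' x D : ℕ) (k : ℕ → Bool) : Bool :=
  tg c (Nat.xor a x) D fun D => tg c (Nat.xor a' x) D k

def tg4 (c : Crt) (a a' b b' x D : ℕ) (k : ℕ → Bool) : Bool :=
  tg2 c a a' (Nat.xor b x) D fun D => tg2 c a a' (Nat.xor b' x) D k

def tg8 (c : Crt) (a a' b b' d d' x D : ℕ) (k : ℕ → Bool) : Bool :=
  tg4 c a a' b b' (Nat.xor d x) D fun D => tg4 c a a' b b' (Nat.xor d' x) D k

def tg16 (c : Crt) (a a' b b' d d' e e' D : ℕ) (k : ℕ → Bool) : Bool :=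
  tg8 c a a' b b' d d' e D fun D => tg8 c a a' b b' d d' e' D k

/-- one `D_4` minor -/
def item (c : Crt) (code D : ℕ) (k : ℕ → ℕ → Bool) : Bool :=
  tree c.E code (nat_lit 0) fun code u L0 => tree c.E code u fun code u L1 =>
    tree c.E code u fun code u L2 => tree c.E code u fun code _ L3 =>
      bead c.E code L0 L1 fun code a a' => bead c.E code L1 L2 fun code b b' =>
        bead c.E code L2 L3 fun code d d' => bead c.E code L3 L0 fun code e e' =>
          tg16 c a a' b b' d d' e e' D (k code)

/-- the list of `D_4` minors -/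
def d4s (c : Crt) : List ℕ → ℕ → ℕ → Bool
  | [], i, _ => Nat.beq i c.N
  | a :: l, i, D => item c a D fun code D' =>
    bif Nat.beq code (nat_lit 0) then d4s c l i D' else
      Nat.beq (Nat.shiftRight D' i) (nat_lit 1) && (Nat.ble (Nat.succ i) (nat_lit 4096) &&
        d4s c l (Nat.succ i) (nat_lit 0))

/-- all cycles with the smallest vertex `s` are in the table -/
def dfs (c : Crt) (s : ℕ) : ℕ → ℕ → ℕ → ℕ → Bool
  | .zero, _, _, _ => true
  | .succ t, v, vis, x =>
    (bif c.E.adj v s && !(tb x (c.E.ix v s)) then fc (Nat.lor x (c.E.eb v s)) c.mem else true) &&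
      allB c.n fun w => bif Nat.ble (Nat.succ s) w && (!(tb vis w) && c.E.adj v w) then
        fc (Nat.lor vis (bt w)) fun vis' => fc (Nat.lor x (c.E.eb v w)) fun x' => dfs c s t w vis' x'
      else true

/-- the two ends of the edge with index `i` -/
def Crt.e1 (c : Crt) (i : ℕ) : ℕ := Nat.land (Nat.shiftRight c.EL (Nat.mul (nat_lit 8) i)) (nat_lit 15)
def Crt.e2 (c : Crt) (i : ℕ) : ℕ :=
  Nat.land (Nat.shiftRight c.EL (Nat.add (Nat.mul (nat_lit 8) i) (nat_lit 4))) (nat_lit 15)

/-- different edges have different indices -/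
def Crt.inj (c : Crt) : Bool :=
  allB c.n fun a => allB c.n fun b => !(c.E.adj a b) ||
    ((Nat.beq (c.e1 (c.E.ix a b)) a && Nat.beq (c.e2 (c.E.ix a b)) b) ||
     (Nat.beq (c.e1 (c.E.ix a b)) b && Nat.beq (c.e2 (c.E.ix a b)) a))

/-- the check of the certificate: seeds `S`, functions `F`, `D_4` minors `L` -/
def Crt.check (c : Crt) (S F L : List ℕ) (W : ℕ) : Bool :=
  c.inj && (seeds c W S (nat_lit 0) (nat_lit 0) (fun Y => tri c.n W Y F (nat_lit 0)) &&
    (Nat.beq S.length F.length && (d4s c L S.length (nat_lit 0) &&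
      allB c.n fun s => dfs c s (Nat.succ c.n) s (bt s) (nat_lit 0))))

end DL.BASE
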