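import Pool.Agent.DL.TREE
import Pool.Agent.DL.PC2
import Pool.Agent.DL.KC
import Pool.Agent.DL.EX.Defs

/-!
# MP_3ff0f8_gt, ALGEBRA HALF: transport along injective maps (helper19)

`Tr G H f`: `f : β → α` is injective, an isomorphism from `H` onto `G`, and every edge of `G` has its ends in the
range of `f` (so `G` is `H` up to isolated vertices).  Transport of paths, cycles, coherence functions, `Z_2`, van Kampen numbers,
`NP`, `KZ`, `U`, `ConnOff`, `KConn`, `Sep`, `C1`, `S3S`, `I4C`.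
-/

open SimpleGraph Finset

set_option linter.unusedSectionVars false

namespace DL

/-- `f` is an isomorphism of `H` onto `G`, up to isolated vertices of `G` -/
structure Tr {α β : Type*} (G : SimpleGraph α) (H : SimpleGraph β) (f : β → α) : Prop where
  inj : Function.Injective f
  adj : ∀ i j, G.Adj (f i) (f j) ↔ H.Adj i j
  sup : ∀ a b, G.Adj a b → ∃ i, f i = a

namespace Tr

variable {α β : Type*} [Fintype α] [DecidableEq α] [Fintype β] [DecidableEq β]
variable {G : SimpleGraph α} {H : SimpleGraph β} {f : β → α}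

/-- image of an edge set -/
def im (f : β → α) (C : Finset (Sym2 β)) : Finset (Sym2 α) := C.image (Sym2.map f)

theorem mem_im (h : Function.Injective f) {C : Finset (Sym2 β)} {e : Sym2 β} :
    e.map f ∈ im f C ↔ e ∈ C :=
  (Sym2.map.injective h).mem_finset_image

theorem mem_im' (h : Function.Injective f) {C : Finset (Sym2 β)} {i j : β} :
    s(f i, f j) ∈ im f C ↔ s(i, j) ∈ C := by
  rw [← mem_im h (C := C), Sym2.map_mk]

theorem im_insert (e : Sym2 β) (C : Finset (Sym2 β)) : im f (insert e C) = insert (e.map f) (im f C) := by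
  simp only [im, image_insert]

theorem im_union (C D : Finset (Sym2 β)) : im f (C ∪ D) = im f C ∪ im f D := by
  simp only [im, image_union]

theorem im_sdiff (h : Function.Injective f) (C D : Finset (Sym2 β)) : im f (C \ D) = im f C \ im f D := by
  simp only [im, image_sdiff _ _ (Sym2.map.injective h)]

theorem im_singleton (e : Sym2 β) : im f {e} = {e.map f} := by simp [im]

@[simp] theorem im_empty : im f ∅ = ∅ := by simp [im]

theorem im_injective (h : Function.Injective f) : Function.Injective (im f) :=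
  image_injective (Sym2.map.injective h)

theorem vs_im (C : Finset (Sym2 β)) : vs (im f C) = (vs C).image f := by
  ext v
  rw [mem_vs, mem_image]
  constructor
  · rintro ⟨e, he, hv⟩
    rw [im, mem_image] at he
    obtain ⟨e', he', rfl⟩ := he
    rw [Sym2.mem_map] at hv
    obtain ⟨i, hi, rfl⟩ := hv
    exact ⟨i, mem_vs.2 ⟨e', he', hi⟩, rfl⟩
  · rintro ⟨i, hi, rfl⟩
    obtain ⟨e', he', hi⟩ := mem_vs.1 hi
    exact ⟨e'.map f, mem_image_of_mem _ he', Sym2.mem_map.2 ⟨i, hi, rfl⟩⟩

theorem sup' (h : Tr G H f) {a b : α} (hab : G.Adj a b) : ∃ i j, f i = a ∧ f j = b ∧ H.Adj i j := by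
  obtain ⟨i, rfl⟩ := h.sup a b hab
  obtain ⟨j, rfl⟩ := h.sup b _ hab.symm
  exact ⟨i, j, rfl, rfl, (h.adj i j).1 hab⟩

theorem edge (h : Tr G H f) (e : Sym2 β) : e.map f ∈ G.edgeSet ↔ e ∈ H.edgeSet := by
  induction e using Sym2.ind with
  | _ a b => rw [Sym2.map_mk, mem_edgeSet, mem_edgeSet]; exact h.adj a b

theorem edge' (h : Tr G H f) {e : Sym2 α} (he : e ∈ G.edgeSet) : ∃ e' ∈ H.edgeSet, e'.map f = e := by
  induction e using Sym2.ind with
  | _ a b =>
    obtain ⟨i, j, rfl, rfl, hij⟩ := h.sup' (mem_edgeSet _ |>.1 he)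
    exact ⟨s(i, j), hij, rfl⟩

/-- every set of edges of `G` is an image -/
theorem exists_im (h : Tr G H f) {C : Finset (Sym2 α)} (hC : ∀ e ∈ C, e ∈ G.edgeSet) :
    ∃ C' : Finset (Sym2 β), im f C' = C ∧ ∀ e ∈ C', e ∈ H.edgeSet := by
  refine ⟨univ.filter fun e => e.map f ∈ C, ?_, ?_⟩
  · ext e
    rw [im, mem_image]
    constructor
    · rintro ⟨e', he', rfl⟩
      exact (mem_filter.1 he').2
    · intro he
      obtain ⟨e', _, rfl⟩ := h.edge' (hC e he)
      exact ⟨e', mem_filter.2 ⟨mem_univ _, he⟩, rfl⟩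
  · intro e he
    exact (h.edge e).1 (hC _ (mem_filter.1 he).2)

/-! ## Paths and cycles -/

theorem isPth (h : Tr G H f) {i j : β} {P : Finset (Sym2 β)} (hP : IsPth H i j P) :
    IsPth G (f i) (f j) (im f P) := by
  refine IsPth.rec_left (G := H) (t := j) (motive := fun i P => IsPth G (f i) (f j) (im f P)) ?_ ?_ hP
  · rw [im_empty]
    exact IsPth.nil _
  · intro u s P hus hu _ _ ih
    rw [im_insert, Sym2.map_mk]
    refine ih.cons ((h.adj u s).2 hus) ?_
    rw [vs_im, h.inj.mem_finset_image]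
    exact hu

theorem isPth_of (h : Tr G H f) {a b : α} {P : Finset (Sym2 α)} (hP : IsPth G a b P) :
    ∀ i j, f i = a → f j = b → ∃ P', im f P' = P ∧ IsPth H i j P' := by
  refine IsPth.rec_left (G := G) (t := b)
    (motive := fun a P => ∀ i j, f i = a → f j = b → ∃ P', im f P' = P ∧ IsPth H i j P') ?_ ?_ hP
  · rintro i j rfl hj
    obtain rfl := h.inj hj
    exact ⟨∅, im_empty, IsPth.nil _⟩
  · rintro u s P hus hu _ _ ih i j rfl rfl
    obtain ⟨k, rfl⟩ := h.sup s _ hus.symm
    obtain ⟨P', rfl, hP'⟩ := ih k j rfl rfl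
    refine ⟨insert s(i, k) P', ?_, hP'.cons ((h.adj i k).1 hus) ?_⟩
    · rw [im_insert, Sym2.map_mk]
    · rw [vs_im, h.inj.mem_finset_image] at hu
      exact hu

theorem isPth_iff (h : Tr G H f) {i j : β} {P : Finset (Sym2 β)} :
    IsPth G (f i) (f j) (im f P) ↔ IsPth H i j P := by
  constructor
  · intro hP
    obtain ⟨P', hP', hp⟩ := h.isPth_of hP i j rfl rfl
    rwa [im_injective h.inj hP'] at hp
  · exact h.isPth

theorem reach (h : Tr G H f) {i j : β} : G.Reachable (f i) (f j) ↔ H.Reachable i j := by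
  rw [reachable_iff_isPth, reachable_iff_isPth]
  constructor
  · rintro ⟨P, hP⟩
    obtain ⟨P', _, hp⟩ := h.isPth_of hP i j rfl rfl
    exact ⟨P', hp⟩
  · rintro ⟨P, hP⟩
    exact ⟨_, h.isPth hP⟩

theorem isCyc_iff (h : Tr G H f) {C : Finset (Sym2 β)} : IsCyc G (im f C) ↔ IsCyc H C := by
  rcases C.eq_empty_or_nonempty with rfl | ⟨e, he⟩
  · rw [im_empty]
    constructor
    · intro hC
      exact absurd hC.nonempty (by simp)
    · intro hC
      exact absurd hC.nonempty (by simp)
  · induction e using Sym2.ind with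
    | _ i j =>
      have h1 : s(f i, f j) ∈ im f C := (mem_im' h.inj).2 he
      rw [isCyc_iff_of_mem h1, isCyc_iff_of_mem he, h.adj, ← h.isPth_iff (P := C \ {s(i, j)}), im_sdiff h.inj,
        im_singleton, Sym2.map_mk]

theorem isCyc_of (h : Tr G H f) {C : Finset (Sym2 α)} (hC : IsCyc G C) : ∃ C', im f C' = C ∧ IsCyc H C' := by
  obtain ⟨C', rfl, _⟩ := h.exists_im hC.subset
  exact ⟨C', rfl, h.isCyc_iff.1 hC⟩

theorem rch (h : Tr G H f) {S : Finset (Sym2 β)} (hS : ∀ e ∈ S, e ∈ H.edgeSet) {i j : β} :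
    Rch (im f S) (f i) (f j) ↔ Rch S i j := by
  have hS' : ∀ e ∈ im f S, e ∈ G.edgeSet := by
    intro e he
    rw [im, mem_image] at he
    obtain ⟨e', he', rfl⟩ := he
    exact (h.edge e').2 (hS e' he')
  rw [rch_iff_isPth hS, rch_iff_isPth hS']
  constructor
  · rintro ⟨P, hP, hPS⟩
    obtain ⟨P', rfl, hp⟩ := h.isPth_of hP i j rfl rfl
    refine ⟨P', hp, ?_⟩
    intro e he
    exact (mem_im h.inj).1 (hPS ((mem_im h.inj).2 he))
  · rintro ⟨P, hP, hPS⟩
    exact ⟨im f P, h.isPth hP, image_subset_image hPS⟩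

theorem coh_im (h : Tr G H f) {C : Finset (Sym2 β)} (hC : ∀ e ∈ C, e ∈ H.edgeSet) (a b c d : β) :
    coh (f a) (f b) (f c) (f d) (im f C) = coh a b c d C := by
  have h1 : Rch (im f C \ {s(f a, f b), s(f c, f d)}) (f b) (f c) ↔ Rch (C \ {s(a, b), s(c, d)}) b c := by
    have h2 : im f C \ {s(f a, f b), s(f c, f d)} = im f (C \ {s(a, b), s(c, d)}) := by
      rw [im_sdiff h.inj]
      congr 1
      rw [im_insert, im_singleton, Sym2.map_mk, Sym2.map_mk]
    rw [h2]
    exact h.rch fun e he => hC e (mem_sdiff.1 he).1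
  unfold coh
  by_cases h3 : s(a, b) ∈ C ∧ s(c, d) ∈ C ∧ Rch (C \ {s(a, b), s(c, d)}) b c
  · rw [if_pos h3, if_pos ⟨(mem_im' h.inj).2 h3.1, (mem_im' h.inj).2 h3.2.1, h1.2 h3.2.2⟩]
  · rw [if_neg h3, if_neg]
    rintro ⟨h4, h5, h6⟩
    exact h3 ⟨(mem_im' h.inj).1 h4, (mem_im' h.inj).1 h5, h1.1 h6⟩

/-! ## Chains -/

/-- restriction of chains -/
def pull (f : β → α) : Chain α →+ Chain β where
  toFun c := fun e => c (e.map f)
  map_zero' := rfl
  map_add' _ _ := rfl

/-- extension of chains by zero -/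
noncomputable def push (f : β → α) (h : Function.Injective f) : Chain β →+ Chain α where
  toFun c := Function.extend (Sym2.map f) c 0
  map_zero' := by
    funext e
    by_cases he : ∃ e', Sym2.map f e' = e
    · obtain ⟨e', rfl⟩ := he
      rw [(Sym2.map.injective h).extend_apply]
      rfl
    · rw [Function.extend_apply' _ _ _ he]
  map_add' c d := by
    funext e
    by_cases he : ∃ e', Sym2.map f e' = e
    · obtain ⟨e', rfl⟩ := he
      rw [Pi.add_apply, (Sym2.map.injective h).extend_apply, (Sym2.map.injective h).extend_apply,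
        (Sym2.map.injective h).extend_apply]
      rfl
    · rw [Pi.add_apply, Function.extend_apply' _ _ _ he, Function.extend_apply' _ _ _ he,
        Function.extend_apply' _ _ _ he]
      rfl

theorem pull_chi (h : Function.Injective f) (C : Finset (Sym2 β)) : pull f (chi (im f C)) = chi C := by
  funext e
  change chi (im f C) (e.map f) = _
  rw [chi_apply, chi_apply]
  by_cases he : e ∈ C
  · rw [if_pos he, if_pos ((mem_im h).2 he)]
  · rw [if_neg he, if_neg (fun h' => he ((mem_im h).1 h'))]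

theorem push_chi (h : Function.Injective f) (C : Finset (Sym2 β)) : push f h (chi C) = chi (im f C) := by
  funext e
  change Function.extend (Sym2.map f) (chi C) 0 e = _
  by_cases he : ∃ e', Sym2.map f e' = e
  · obtain ⟨e', rfl⟩ := he
    rw [(Sym2.map.injective h).extend_apply, chi_apply, chi_apply]
    by_cases he : e' ∈ C
    · rw [if_pos he, if_pos ((mem_im h).2 he)]
    · rw [if_neg he, if_neg (fun h' => he ((mem_im h).1 h'))]
  · rw [Function.extend_apply' _ _ _ he, Pi.zero_apply, chi_apply, if_neg]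
    intro h1
    rw [im, mem_image] at h1
    obtain ⟨e', _, h2⟩ := h1
    exact he ⟨e', h2⟩

theorem degLE_comp {A B : Type*} [AddCommGroup A] [AddCommGroup B] (L : A →+ B) :
    ∀ (n : ℕ) (p : B → ZMod 2), DegLE n p → DegLE n (fun a => p (L a))
  | 0, p, h => fun a => by
      change p (L a) = p (L 0)
      rw [h (L a), map_zero]
  | n + 1, p, h => fun v => by
      have := degLE_comp L n _ (h (L v))
      simpa only [map_add] using this

/-- `P_3`: from `H` to `G` -/
theorem inP3 (h : Tr G H f) {F : Finset (Sym2 α) → ZMod 2} (hF : InP3 H (fun C => F (im f C))) : InP3 G F := by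
  obtain ⟨p, hp, hp0, hpF⟩ := hF
  refine ⟨fun c => p (pull f c), degLE_comp _ _ _ hp, ?_, ?_⟩
  · change p (pull f 0) = 0
    rw [map_zero, hp0]
  · intro C hC
    obtain ⟨C', rfl, hC'⟩ := h.isCyc_of hC
    have := hpF C' hC'
    change F (im f C') = p (pull f (chi (im f C')))
    rw [pull_chi h.inj]
    exact this

/-- `P_3`: from `G` to `H` -/
theorem inP3' (h : Tr G H f) {F : Finset (Sym2 α) → ZMod 2} (hF : InP3 G F) : InP3 H (fun C => F (im f C)) := by
  obtain ⟨p, hp, hp0, hpF⟩ := hF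
  refine ⟨fun c => p (push f h.inj c), degLE_comp _ _ _ hp, ?_, ?_⟩
  · change p (push f h.inj 0) = 0
    rw [map_zero, hp0]
  · intro C hC
    change F (im f C) = p (push f h.inj (chi C))
    rw [push_chi, hpF _ (h.isCyc_iff.2 hC)]

theorem sum1 (h : Function.Injective f) (F : α → ZMod 2) (hF : ∀ a, F a ≠ 0 → ∃ i, f i = a) :
    ∑ a, F a = ∑ i, F (f i) :=
  (Fintype.sum_of_injective f h _ _ (fun a ha => by
    by_contra h1
    exact ha (hF a h1)) fun _ => rfl).symm

theorem sum4 (h : Function.Injective f) (F : α → α → α → α → ZMod 2)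
    (hF : ∀ a b c d, F a b c d ≠ 0 → (∃ i, f i = a) ∧ (∃ i, f i = b) ∧ (∃ i, f i = c) ∧ ∃ i, f i = d) :
    ∑ a, ∑ b, ∑ c, ∑ d, F a b c d = ∑ i, ∑ j, ∑ k, ∑ m, F (f i) (f j) (f k) (f m) := by
  have h4 : ∀ a b c, ∑ d, F a b c d = ∑ m, F a b c (f m) := fun a b c =>
    sum1 h _ fun d hd => (hF a b c d hd).2.2.2
  have h3 : ∀ a b, ∑ c, ∑ m, F a b c (f m) = ∑ k, ∑ m, F a b (f k) (f m) := fun a b =>
    sum1 h _ fun c hc => by
      obtain ⟨m, _, hm⟩ := exists_ne_zero_of_sum_ne_zero hc
      exact (hF a b c _ hm).2.2.1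
  have h2 : ∀ a, ∑ b, ∑ k, ∑ m, F a b (f k) (f m) = ∑ j, ∑ k, ∑ m, F a (f j) (f k) (f m) := fun a =>
    sum1 h _ fun b hb => by
      obtain ⟨k, _, hk⟩ := exists_ne_zero_of_sum_ne_zero hb
      obtain ⟨m, _, hm⟩ := exists_ne_zero_of_sum_ne_zero hk
      exact (hF a b _ _ hm).2.1
  have h1 : ∑ a, ∑ j, ∑ k, ∑ m, F a (f j) (f k) (f m) = ∑ i, ∑ j, ∑ k, ∑ m, F (f i) (f j) (f k) (f m) :=
    sum1 h _ fun a ha => by
      obtain ⟨j, _, hj⟩ := exists_ne_zero_of_sum_ne_zero ha
      obtain ⟨k, _, hk⟩ := exists_ne_zero_of_sum_ne_zero hj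
      obtain ⟨m, _, hm⟩ := exists_ne_zero_of_sum_ne_zero hk
      exact (hF a _ _ _ hm).1
  simp only [h4, h3, h2, h1]

theorem sup2 (h : Tr G H f) {a b : α} (hab : s(a, b) ∈ G.edgeSet) : (∃ i, f i = a) ∧ ∃ j, f j = b := by
  obtain ⟨i, j, hi, hj, _⟩ := h.sup' ((mem_edgeSet _).1 hab)
  exact ⟨⟨i, hi⟩, ⟨j, hj⟩⟩

theorem cohs_im (h : Tr G H f) {C : Finset (Sym2 β)} (hC : ∀ e ∈ C, e ∈ H.edgeSet)
    (l : α → α → α → α → ZMod 2) :
    cohs l (im f C) = cohs (fun i j k m => l (f i) (f j) (f k) (f m)) C := by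
  unfold cohs
  rw [sum4 h.inj]
  · simp only [h.coh_im hC]
  · intro a b c d hne
    have h1 := right_ne_zero_of_mul hne
    rw [coh_ne_zero] at h1
    have hS : ∀ e ∈ im f C, e ∈ G.edgeSet := by
      intro e he
      rw [im, mem_image] at he
      obtain ⟨e', he', rfl⟩ := he
      exact (h.edge e').2 (hC e' he')
    obtain ⟨h2, h3⟩ := h.sup2 (hS _ h1.1)
    obtain ⟨h4, h5⟩ := h.sup2 (hS _ h1.2.1)
    exact ⟨h2, h3, h4, h5⟩

/-! ## Two-cycles -/

/-- restriction -/
def pull2 (f : β → α) (z : Sym2 α → Sym2 α → ZMod 2) : Sym2 β → Sym2 β → ZMod 2 :=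
  fun e e' => z (e.map f) (e'.map f)

/-- extension by zero -/
noncomputable def push2 (f : β → α) (z : Sym2 β → Sym2 β → ZMod 2) : Sym2 α → Sym2 α → ZMod 2 :=
  Function.extend (Sym2.map f) (fun e => Function.extend (Sym2.map f) (z e) 0) 0

theorem push2_map (h : Function.Injective f) (z : Sym2 β → Sym2 β → ZMod 2) (e e' : Sym2 β) :
    push2 f z (e.map f) (e'.map f) = z e e' := by
  unfold push2
  rw [(Sym2.map.injective h).extend_apply, (Sym2.map.injective h).extend_apply]

theorem push2_ne (h : Function.Injective f) {z : Sym2 β → Sym2 β → ZMod 2} {x y : Sym2 α}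
    (hxy : push2 f z x y ≠ 0) : ∃ e e', e.map f = x ∧ e'.map f = y ∧ z e e' ≠ 0 := by
  by_cases hx : ∃ e, Sym2.map f e = x
  · by_cases hy : ∃ e, Sym2.map f e = y
    · obtain ⟨e, rfl⟩ := hx
      obtain ⟨e', rfl⟩ := hy
      rw [push2_map h] at hxy
      exact ⟨e, e', rfl, rfl, hxy⟩
    · obtain ⟨e, rfl⟩ := hx
      unfold push2 at hxy
      rw [(Sym2.map.injective h).extend_apply, Function.extend_apply' _ _ _ hy] at hxy
      exact absurd rfl hxy
  · unfold push2 at hxy
    rw [Function.extend_apply' _ _ _ hx] at hxy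
    exact absurd rfl hxy

theorem pull2_push2 (h : Function.Injective f) (z : Sym2 β → Sym2 β → ZMod 2) : pull2 f (push2 f z) = z := by
  funext e e'
  exact push2_map h z e e'

theorem isZ2 (h : Tr G H f) {z : Sym2 α → Sym2 α → ZMod 2} (hz : IsZ2 G z) : IsZ2 H (pull2 f z) := by
  classical
  obtain ⟨h1, h2, h3⟩ := hz
  refine ⟨fun e e' => h1 _ _, ?_, ?_⟩
  · intro e e' hne
    obtain ⟨h4, h5, h6⟩ := h2 _ _ hne
    refine ⟨(h.edge e).1 h4, (h.edge e').1 h5, ?_⟩
    rintro v ⟨hv, hv'⟩
    exact h6 (f v) ⟨Sym2.mem_map.2 ⟨v, hv, rfl⟩, Sym2.mem_map.2 ⟨v, hv', rfl⟩⟩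
  · intro e v hv
    have h4 := h3 (e.map f) (f v) (by
      rw [Sym2.mem_map]
      rintro ⟨w, hw, hwv⟩
      exact hv (h.inj hwv ▸ hw))
    rw [sum_filter] at h4 ⊢
    refine Eq.trans ?_ h4
    refine Fintype.sum_of_injective (Sym2.map f) (Sym2.map.injective h.inj) _ _ ?_ ?_
    · intro x hx
      by_contra hne
      have h5 : z (e.map f) x ≠ 0 := by
        intro h0
        rw [h0] at hne
        simp at hne
      obtain ⟨e', _, he'⟩ := h.edge' (h2 _ _ h5).2.1
      exact hx ⟨e', he'⟩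
    · intro e'
      have h5 : v ∈ e' ↔ f v ∈ e'.map f := by
        rw [Sym2.mem_map]
        constructor
        · intro hv'
          exact ⟨v, hv', rfl⟩
        · rintro ⟨w, hw, hwv⟩
          exact h.inj hwv ▸ hw
      by_cases h6 : v ∈ e'
      · rw [if_pos h6, if_pos (h5.1 h6)]
        rfl
      · rw [if_neg h6, if_neg (fun h7 => h6 (h5.2 h7))]

theorem isZ2' (h : Tr G H f) {z : Sym2 β → Sym2 β → ZMod 2} (hz : IsZ2 H z) : IsZ2 G (push2 f z) := by
  classical
  obtain ⟨h1, h2, h3⟩ := hz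
  have hsymm : ∀ x y, push2 f z x y = push2 f z y x := by
    intro x y
    by_cases hxy : push2 f z x y = 0
    · rw [hxy]
      by_contra hyx
      obtain ⟨e, e', rfl, rfl, hne⟩ := push2_ne h.inj (Ne.symm hyx)
      rw [push2_map h.inj, h1] at hxy
      exact hne hxy
    · obtain ⟨e, e', rfl, rfl, hne⟩ := push2_ne h.inj hxy
      rw [push2_map h.inj, push2_map h.inj, h1]
  refine ⟨hsymm, ?_, ?_⟩
  · intro x y hxy
    obtain ⟨e, e', rfl, rfl, hne⟩ := push2_ne h.inj hxy
    obtain ⟨h4, h5, h6⟩ := h2 _ _ hne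
    refine ⟨(h.edge e).2 h4, (h.edge e').2 h5, ?_⟩
    rintro v ⟨hv, hv'⟩
    rw [Sym2.mem_map] at hv hv'
    obtain ⟨w, hw, rfl⟩ := hv
    obtain ⟨w', hw', hww⟩ := hv'
    obtain rfl := h.inj hww
    exact h6 w' ⟨hw, hw'⟩
  · intro x v hv
    by_contra hne
    obtain ⟨y, hy, hxy⟩ := exists_ne_zero_of_sum_ne_zero hne
    rw [mem_filter] at hy
    obtain ⟨e, e', rfl, rfl, hne'⟩ := push2_ne h.inj hxy
    obtain ⟨w, hw, rfl⟩ := Sym2.mem_map.1 hy.2
    have h4 := h3 e w (fun h5 => hv (Sym2.mem_map.2 ⟨w, h5, rfl⟩))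
    apply hne
    rw [sum_filter] at h4 ⊢
    refine Eq.trans ?_ h4
    symm
    refine Fintype.sum_of_injective (Sym2.map f) (Sym2.map.injective h.inj) _ _ ?_ ?_
    · intro x hx
      by_contra hne
      have h5 : push2 f z (e.map f) x ≠ 0 := by
        intro h0
        rw [h0] at hne
        simp at hne
      obtain ⟨_, e'', _, he'', _⟩ := push2_ne h.inj h5
      exact hx ⟨e'', he''⟩
    · intro e''
      have h5 : w ∈ e'' ↔ f w ∈ e''.map f := by
        rw [Sym2.mem_map]
        constructor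
        · intro hv'
          exact ⟨w, hv', rfl⟩
        · rintro ⟨w', hw', hwv⟩
          exact h.inj hwv ▸ hw'
      by_cases h6 : w ∈ e''
      · rw [if_pos h6, if_pos (h5.1 h6), push2_map h.inj]
      · rw [if_neg h6, if_neg (fun h7 => h6 (h5.2 h7))]

theorem pair2_eq (h : Tr G H f) {z : Sym2 α → Sym2 α → ZMod 2} (hz : IsZ2 G z)
    (l : α → α → α → α → ZMod 2) :
    pair2 l z = pair2 (fun i j k m => l (f i) (f j) (f k) (f m)) (pull2 f z) := by
  unfold pair2
  rw [sum4 h.inj]
  · rfl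
  · intro a b c d hne
    have h1 := right_ne_zero_of_mul hne
    obtain ⟨h2, h3, _⟩ := hz.2.1 _ _ h1
    exact ⟨(h.sup2 h2).1, (h.sup2 h2).2, (h.sup2 h3).1, (h.sup2 h3).2⟩

theorem vk_eq (h : Tr G H f) {z : Sym2 α → Sym2 α → ZMod 2} (hz : IsZ2 G z) (r : α → ℕ) :
    vk r z = vk (fun i => r (f i)) (pull2 f z) := by
  unfold vk
  rw [sum4 h.inj]
  · rfl
  · intro a b c d hne
    have h1 : z s(a, b) s(c, d) ≠ 0 := by
      intro h0
      rw [h0] at hne
      simp at hne
    obtain ⟨h2, h3, _⟩ := hz.2.1 _ _ h1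
    exact ⟨(h.sup2 h2).1, (h.sup2 h2).2, (h.sup2 h3).1, (h.sup2 h3).2⟩

theorem np_of (h : Tr G H f) (hG : NP G) : NP H := by
  obtain ⟨r, hr, z, hz, hne⟩ := hG
  refine ⟨fun i => r (f i), fun i j hij => h.inj (hr hij), pull2 f z, h.isZ2 hz, ?_⟩
  rw [← h.vk_eq hz]
  exact hne

/-- an order on `α` extending an order on `β` -/
theorem exists_order (h : Function.Injective f) {r : β → ℕ} (hr : Function.Injective r) :
    ∃ r' : α → ℕ, Function.Injective r' ∧ ∀ i, r' (f i) = 2 * r i := by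
  classical
  refine ⟨Function.extend f (fun i => 2 * r i) (fun a => 2 * (Fintype.equivFin α a : ℕ) + 1), ?_,
    fun i => h.extend_apply _ _ i⟩
  intro a b hab
  by_cases ha : ∃ i, f i = a
  · obtain ⟨i, rfl⟩ := ha
    by_cases hb : ∃ i, f i = b
    · obtain ⟨j, rfl⟩ := hb
      rw [h.extend_apply, h.extend_apply] at hab
      have : r i = r j := by omega
      rw [hr this]
    · rw [h.extend_apply, Function.extend_apply' _ _ _ hb] at hab
      omega
  · by_cases hb : ∃ i, f i = b
    · obtain ⟨j, rfl⟩ := hb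
      rw [h.extend_apply, Function.extend_apply' _ _ _ ha] at hab
      omega
    · rw [Function.extend_apply' _ _ _ ha, Function.extend_apply' _ _ _ hb] at hab
      have h1 : (Fintype.equivFin α a : ℕ) = (Fintype.equivFin α b : ℕ) := by omega
      exact (Fintype.equivFin α).injective (Fin.ext h1)

theorem np (h : Tr G H f) (hH : NP H) : NP G := by
  obtain ⟨r, hr, z, hz, hne⟩ := hH
  obtain ⟨r', hr', hrr⟩ := exists_order h.inj hr
  refine ⟨r', hr', push2 f z, h.isZ2' hz, ?_⟩
  rw [h.vk_eq (h.isZ2' hz), pull2_push2 h.inj]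
  have : vk (fun i => r' (f i)) z = vk r z := by
    unfold vk
    simp only [hrr]
    refine sum_congr rfl fun a _ => sum_congr rfl fun b _ => sum_congr rfl fun c _ => sum_congr rfl fun d _ => ?_
    have h1 : (2 * r a < 2 * r c ∧ 2 * r c < 2 * r b ∧ 2 * r b < 2 * r d) ↔
        (r a < r c ∧ r c < r b ∧ r b < r d) := by omega
    simp only [h1]
  rw [this]
  exact hne

theorem np_iff (h : Tr G H f) : NP G ↔ NP H := ⟨h.np_of, h.np⟩

theorem kz (h : Tr G H f) (hH : KZ H) : KZ G := by
  intro l hl z hz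
  have h1 := h.inP3' hl
  have h2 : InP3 H (fun C => cohs (fun i j k m => l (f i) (f j) (f k) (f m)) C) := by
    obtain ⟨p, hp, hp0, hpF⟩ := h1
    refine ⟨p, hp, hp0, fun C hC => ?_⟩
    have h5 := hpF C hC
    have h6 := h.cohs_im hC.subset l
    change cohs l (im f C) = _ at h5
    change cohs (fun i j k m => l (f i) (f j) (f k) (f m)) C = _
    rw [← h5, h6]
  have h3 := hH _ h2 _ (h.isZ2 hz)
  have h4 := h.pair2_eq hz l
  unfold pair2 at h4
  rw [h4]
  exact h3

/-! ## `D_4` minors -/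

theorem tr_map (h : Function.Injective f) (T : SimpleGraph β) : Tr (T.map f) T f where
  inj := h
  adj i j := by
    rw [SimpleGraph.map_adj']
    constructor
    · rintro ⟨_, u, v, huv, hu, hv⟩
      obtain rfl := h hu
      obtain rfl := h hv
      exact huv
    · intro hij
      exact ⟨fun hh => hij.ne (h hh), i, j, hij, rfl, rfl⟩
  sup a b hab := by
    rw [SimpleGraph.map_adj'] at hab
    obtain ⟨_, u, v, _, hu, _⟩ := hab
    exact ⟨u, hu⟩

theorem acyclic_map (h : Function.Injective f) {T : SimpleGraph β} (hT : T.IsAcyclic) :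
    (T.map f).IsAcyclic := by
  intro v w hw
  obtain ⟨C', _, hC'⟩ := (tr_map h T).isCyc_of (C := w.edges.toFinset) ⟨v, w, hw, rfl⟩
  obtain ⟨v', w', hw', _⟩ := hC'
  exact hT w' hw'

theorem tp_map (h : Function.Injective f) {T : SimpleGraph β} (hT : T.IsAcyclic) {v w : β}
    (hvw : T.Reachable v w) : tp (T.map f) (f v) (f w) = im f (tp T v w) :=
  tp_eq (acyclic_map h hT) ((tr_map h T).isPth (tp_isPth hvw))

/-- image of a `D_4` minor -/
def d4 (h : Tr G H f) (D : D4M H) : D4M G where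
  X i := (D.X i).image f
  disj i j hij := (disjoint_image h.inj).2 (D.disj i j hij)
  T i := (D.T i).map f
  sub i := by
    intro a b hab
    obtain ⟨u, v, hu, hv, huv⟩ := (tr_map h.inj (D.T i)).sup' hab
    rw [← hu, ← hv, h.adj]
    exact D.sub i huv
  inX i v w hvw := by
    obtain ⟨u, u', hu, _, huv⟩ := (tr_map h.inj (D.T i)).sup' hvw
    rw [mem_image]
    exact ⟨u, D.inX i _ _ huv, hu⟩
  conn i v hv w hw := by
    rw [mem_image] at hv hw
    obtain ⟨v', hv', rfl⟩ := hv
    obtain ⟨w', hw', rfl⟩ := hw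
    exact (tr_map h.inj (D.T i)).reach.2 (D.conn i v' hv' w' hw')
  acyc i := acyclic_map h.inj (D.acyc i)
  p i b := f (D.p i b)
  q i b := f (D.q i b)
  pX i b := mem_image_of_mem _ (D.pX i b)
  qX i b := mem_image_of_mem _ (D.qX i b)
  adj i b := (h.adj _ _).2 (D.adj i b)
  ne i := by
    intro h1
    apply D.ne i
    apply Sym2.map.injective h.inj
    rw [Sym2.map_mk, Sym2.map_mk]
    exact h1

theorem d4_cyc (h : Tr G H f) (D : D4M H) (e : Fin 4 → Bool) : (h.d4 D).cyc e = im f (D.cyc e) := by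
  unfold D4M.cyc
  rw [im_union]
  congr 1
  · unfold im
    rw [image_image]
    rfl
  · unfold im
    rw [biUnion_image]
    refine biUnion_congr rfl fun i _ => ?_
    exact tp_map h.inj (D.acyc (i + 1)) (D.conn (i + 1) _ (D.qX i (e i)) _ (D.pX (i + 1) (e (i + 1))))

theorem u (h : Tr G H f) (hH : U H) : U G := by
  intro F hF
  have h1 : D4even H (fun C => F (im f C)) := by
    intro D
    have := hF (h.d4 D)
    simp only [h.d4_cyc] at this
    exact this
  obtain ⟨p, hp, hp0, l, hpl⟩ := hH _ h1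
  refine ⟨fun c => p (pull f c), degLE_comp _ _ _ hp, ?_, ?_⟩
  · change p (pull f 0) = 0
    rw [map_zero, hp0]
  · classical
    refine ⟨fun a b c d => if hh : (∃ i, f i = a) ∧ (∃ i, f i = b) ∧ (∃ i, f i = c) ∧ ∃ i, f i = d then
      l hh.1.choose hh.2.1.choose hh.2.2.1.choose hh.2.2.2.choose else 0, ?_⟩
    intro C hC
    obtain ⟨C', rfl, hC'⟩ := h.isCyc_of hC
    have h2 := h.cohs_im hC'.subset (fun a b c d => if hh : (∃ i, f i = a) ∧ (∃ i, f i = b) ∧ (∃ i, f i = c) ∧ ∃ i, f i = d then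
      l hh.1.choose hh.2.1.choose hh.2.2.1.choose hh.2.2.2.choose else 0)
    unfold cohs at h2
    have h3 := hpl C' hC'
    change F (im f C') = _ at h3
    change _ = p (pull f (chi (im f C'))) + _
    rw [h2, h3, pull_chi h.inj]
    congr 1
    refine sum_congr rfl fun a _ => sum_congr rfl fun b _ => sum_congr rfl fun c _ => sum_congr rfl fun d _ => ?_
    have hh : (∃ i, f i = f a) ∧ (∃ i, f i = f b) ∧ (∃ i, f i = f c) ∧ ∃ i, f i = f d :=
      ⟨⟨a, rfl⟩, ⟨b, rfl⟩, ⟨c, rfl⟩, ⟨d, rfl⟩⟩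
    beta_reduce
    rw [dif_pos hh, h.inj hh.1.choose_spec, h.inj hh.2.1.choose_spec, h.inj hh.2.2.1.choose_spec,
      h.inj hh.2.2.2.choose_spec]

/-! ## Connectivity -/

/-- inverse image of a vertex set -/
def pre (f : β → α) (S : Finset α) : Finset β := univ.filter fun i => f i ∈ S

theorem mem_pre {S : Finset α} {i : β} : i ∈ pre f S ↔ f i ∈ S := by simp [pre]

theorem pre_image (h : Function.Injective f) (S : Finset β) : pre f (S.image f) = S := by
  ext i
  rw [mem_pre, h.mem_finset_image]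

theorem image_pre {S : Finset α} (hS : ∀ a ∈ S, ∃ i, f i = a) : (pre f S).image f = S := by
  ext a
  rw [mem_image]
  constructor
  · rintro ⟨i, hi, rfl⟩
    exact mem_pre.1 hi
  · intro ha
    obtain ⟨i, rfl⟩ := hS a ha
    exact ⟨i, mem_pre.2 ha, rfl⟩

theorem card_pre_le (h : Function.Injective f) (S : Finset α) : (pre f S).card ≤ S.card := by
  rw [← card_image_of_injective _ h]
  apply card_le_card
  intro a ha
  rw [mem_image] at ha
  obtain ⟨i, hi, rfl⟩ := ha
  exact mem_pre.1 hi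

theorem card_pre (h : Function.Injective f) {S : Finset α} (hS : ∀ a ∈ S, ∃ i, f i = a) :
    (pre f S).card = S.card := by
  rw [← card_image_of_injective _ h, image_pre hS]

theorem mem_VS' (h : Tr G H f) {i : β} : f i ∈ VS G ↔ i ∈ VS H := by
  rw [mem_VS, mem_VS]
  constructor
  · rintro ⟨w, hw⟩
    obtain ⟨j, k, hj, _, hjk⟩ := h.sup' hw
    obtain rfl := h.inj hj
    exact ⟨k, hjk⟩
  · rintro ⟨j, hj⟩
    exact ⟨f j, (h.adj i j).2 hj⟩

theorem VS_sup (h : Tr G H f) : ∀ a ∈ VS G, ∃ i, f i = a := by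
  intro a ha
  obtain ⟨w, hw⟩ := mem_VS.1 ha
  exact h.sup a w hw

theorem pre_VS (h : Tr G H f) : pre f (VS G) = VS H := by
  ext i
  rw [mem_pre, h.mem_VS']

theorem VS_eq (h : Tr G H f) : VS G = (VS H).image f := by
  rw [← h.pre_VS, image_pre h.VS_sup]

theorem card_VS (h : Tr G H f) : (VS G).card = (VS H).card := by
  rw [h.VS_eq, card_image_of_injective _ h.inj]

theorem tr_del (h : Tr G H f) (S : Finset α) : Tr (del G S) (del H (pre f S)) f where
  inj := h.inj
  adj i j := by
    change (G.Adj _ _ ∧ _ ∧ _) ↔ (H.Adj _ _ ∧ _ ∧ _)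
    rw [h.adj, mem_pre, mem_pre]
  sup a b hab := h.sup a b hab.1

theorem connOff (h : Tr G H f) (S : Finset α) : ConnOff G S ↔ ConnOff H (pre f S) := by
  constructor
  · intro hc a ha b hb ha' hb'
    rw [mem_pre] at ha' hb'
    exact (h.tr_del S).reach.1 (hc _ (h.mem_VS'.2 ha) _ (h.mem_VS'.2 hb) ha' hb')
  · intro hc a ha b hb ha' hb'
    obtain ⟨i, rfl⟩ := h.VS_sup a ha
    obtain ⟨j, rfl⟩ := h.VS_sup b hb
    exact (h.tr_del S).reach.2 (hc _ (h.mem_VS'.1 ha) _ (h.mem_VS'.1 hb) (fun h1 => ha' (mem_pre.1 h1))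
      (fun h1 => hb' (mem_pre.1 h1)))

theorem connOff' (h : Tr G H f) (S : Finset β) : ConnOff G (S.image f) ↔ ConnOff H S := by
  rw [h.connOff, pre_image h.inj]

theorem kConn (h : Tr G H f) (k : ℕ) : KConn k G ↔ KConn k H := by
  unfold KConn
  rw [h.card_VS]
  refine and_congr_right fun _ => ?_
  constructor
  · intro hc S hS
    rw [← h.connOff']
    exact hc _ (by rwa [card_image_of_injective _ h.inj])
  · intro hc S hS
    rw [h.connOff]
    exact hc _ (lt_of_le_of_lt (card_pre_le h.inj S) hS)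

theorem sep (h : Tr G H f) {S P Q : Finset α} (hs : Sep G S P Q) : Sep H (pre f S) (pre f P) (pre f Q) := by
  obtain ⟨h1, h2, h3, h4, h5⟩ := hs
  refine ⟨?_, ?_, ?_, ?_, ?_⟩
  · rw [← h.pre_VS, ← h1]
    ext i
    simp only [mem_union, mem_pre]
  · rw [Finset.disjoint_left] at h2 ⊢
    intro i hi hi'
    exact h2 (mem_pre.1 hi) (mem_pre.1 hi')
  · rw [Finset.disjoint_left] at h3 ⊢
    intro i hi hi'
    exact h3 (mem_pre.1 hi) (mem_pre.1 hi')
  · rw [Finset.disjoint_left] at h4 ⊢
    intro i hi hi'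
    exact h4 (mem_pre.1 hi) (mem_pre.1 hi')
  · intro a ha b hb hab
    exact h5 _ (mem_pre.1 ha) _ (mem_pre.1 hb) ((h.adj a b).2 hab)

theorem sep' (h : Tr G H f) {S P Q : Finset β} (hs : Sep H S P Q) :
    Sep G (S.image f) (P.image f) (Q.image f) := by
  obtain ⟨h1, h2, h3, h4, h5⟩ := hs
  refine ⟨?_, ?_, ?_, ?_, ?_⟩
  · rw [h.VS_eq, ← h1, image_union, image_union]
  · exact (disjoint_image h.inj).2 h2
  · exact (disjoint_image h.inj).2 h3
  · exact (disjoint_image h.inj).2 h4
  · intro a ha b hb hab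
    rw [mem_image] at ha hb
    obtain ⟨i, hi, rfl⟩ := ha
    obtain ⟨j, hj, rfl⟩ := hb
    exact h5 i hi j hj ((h.adj i j).1 hab)

/-- the separation clause of `C1` and `I4C` -/
theorem sep3 (h : Tr G H f) (k m : ℕ) :
    (∀ S P Q, Sep G S P Q → S.card = k → P.card ≤ m ∨ Q.card ≤ m) ↔
      ∀ S P Q, Sep H S P Q → S.card = k → P.card ≤ m ∨ Q.card ≤ m := by
  constructor
  · intro hc S P Q hs hS
    have := hc _ _ _ (h.sep' hs) (by rwa [card_image_of_injective _ h.inj])
    rwa [card_image_of_injective _ h.inj, card_image_of_injective _ h.inj] at this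
  · intro hc S P Q hs hS
    have hsub : ∀ a, a ∈ S ∪ P ∪ Q → ∃ i, f i = a := by
      intro a ha
      rw [hs.1] at ha
      exact h.VS_sup a ha
    have hS' : ∀ a ∈ S, ∃ i, f i = a := fun a ha => hsub a (by simp [ha])
    have hP' : ∀ a ∈ P, ∃ i, f i = a := fun a ha => hsub a (by simp [ha])
    have hQ' : ∀ a ∈ Q, ∃ i, f i = a := fun a ha => hsub a (by simp [ha])
    have := hc _ _ _ (h.sep hs) (by rwa [card_pre h.inj hS'])
    rwa [card_pre h.inj hP', card_pre h.inj hQ'] at this

theorem c1 (h : Tr G H f) : C1 G ↔ C1 H := by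
  unfold C1
  rw [h.kConn, h.sep3]

theorem rig (h : Tr G H f) (k m : ℕ) (i : β) :
    (∀ S P Q, Sep G S P Q → S.card = k → f i ∈ S → P.card ≤ m ∨ Q.card ≤ m) ↔
      ∀ S P Q, Sep H S P Q → S.card = k → i ∈ S → P.card ≤ m ∨ Q.card ≤ m := by
  constructor
  · intro hc S P Q hs hS hi
    have := hc _ _ _ (h.sep' hs) (by rwa [card_image_of_injective _ h.inj]) (mem_image_of_mem _ hi)
    rwa [card_image_of_injective _ h.inj, card_image_of_injective _ h.inj] at this
  · intro hc S P Q hs hS hi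
    have hsub : ∀ a, a ∈ S ∪ P ∪ Q → ∃ i, f i = a := by
      intro a ha
      rw [hs.1] at ha
      exact h.VS_sup a ha
    have hS' : ∀ a ∈ S, ∃ i, f i = a := fun a ha => hsub a (by simp [ha])
    have hP' : ∀ a ∈ P, ∃ i, f i = a := fun a ha => hsub a (by simp [ha])
    have hQ' : ∀ a ∈ Q, ∃ i, f i = a := fun a ha => hsub a (by simp [ha])
    have := hc _ _ _ (h.sep hs) (by rwa [card_pre h.inj hS']) (mem_pre.2 hi)
    rwa [card_pre h.inj hP', card_pre h.inj hQ'] at this

theorem s3s (h : Tr G H f) : S3S G ↔ S3S H := by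
  unfold S3S
  rw [h.kConn]
  refine and_congr_right fun hk => ?_
  refine and_congr ?_ ?_
  · constructor
    · rintro ⟨c, x, y, z, hxy, hxz, hyz, h1, h2, h3⟩
      obtain ⟨c', x', rfl, rfl, h1'⟩ := h.sup' h1
      obtain ⟨y', rfl⟩ := h.sup _ _ h2.symm
      obtain ⟨z', rfl⟩ := h.sup _ _ h3.symm
      exact ⟨c', x', y', z', fun e => hxy (by rw [e]), fun e => hxz (by rw [e]), fun e => hyz (by rw [e]),
        h1', (h.adj _ _).1 h2, (h.adj _ _).1 h3⟩
    · rintro ⟨c, x, y, z, hxy, hxz, hyz, h1, h2, h3⟩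
      exact ⟨f c, f x, f y, f z, fun e => hxy (h.inj e), fun e => hxz (h.inj e), fun e => hyz (h.inj e),
        (h.adj _ _).2 h1, (h.adj _ _).2 h2, (h.adj _ _).2 h3⟩
  · have hk' := (h.kConn 2).2 hk
    constructor
    · intro hc p q hpq
      rcases hc (f p) (f q) (fun e => hpq (h.inj e)) with h1 | ⟨v, hv, h2, h3⟩
      · left
        rw [← h.connOff', image_insert, image_singleton]
        exact h1
      · right
        obtain ⟨v', rfl⟩ := h.sup v (f p) ((hv (f p)).2 (Or.inl rfl))
        refine ⟨v', fun w => ?_, fun e => h2 ((h.adj _ _).2 e), ?_⟩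
        · rw [← h.adj, hv, h.inj.eq_iff, h.inj.eq_iff]
        · rw [← h.connOff', image_insert, image_insert, image_singleton]
          exact h3
    · intro hc p q hpq
      by_cases hp : ∃ i, f i = p
      · by_cases hq : ∃ i, f i = q
        · obtain ⟨i, rfl⟩ := hp
          obtain ⟨j, rfl⟩ := hq
          rcases hc i j (fun e => hpq (by rw [e])) with h1 | ⟨v, hv, h2, h3⟩
          · left
            rw [← h.connOff', image_insert, image_singleton] at h1
            exact h1
          · right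
            refine ⟨f v, fun w => ?_, fun e => h2 ((h.adj _ _).1 e), ?_⟩
            · constructor
              · intro hw
                obtain ⟨w', rfl⟩ := h.sup _ _ hw.symm
                rw [h.adj, hv] at hw
                rcases hw with rfl | rfl
                · exact Or.inl rfl
                · exact Or.inr rfl
              · rintro (rfl | rfl)
                · exact (h.adj _ _).2 ((hv _).2 (Or.inl rfl))
                · exact (h.adj _ _).2 ((hv _).2 (Or.inr rfl))
            · rw [← h.connOff', image_insert, image_insert, image_singleton] at h3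
              exact h3
        · left
          rw [h.connOff]
          refine hk.2 _ ?_
          have : pre f ({p, q} : Finset α) ⊆ pre f {p} := by
            intro i hi
            rw [mem_pre, mem_insert, mem_singleton] at hi
            rw [mem_pre, mem_singleton]
            rcases hi with h1 | h1
            · exact h1
            · exact absurd ⟨i, h1⟩ hq
          exact lt_of_le_of_lt (card_le_card this) (lt_of_le_of_lt (card_pre_le h.inj _) (by simp))
      · left
        rw [h.connOff]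
        refine hk.2 _ ?_
        have : pre f ({p, q} : Finset α) ⊆ pre f {q} := by
          intro i hi
          rw [mem_pre, mem_insert, mem_singleton] at hi
          rw [mem_pre, mem_singleton]
          rcases hi with h1 | h1
          · exact absurd ⟨i, h1⟩ hp
          · exact h1
        exact lt_of_le_of_lt (card_le_card this) (lt_of_le_of_lt (card_pre_le h.inj _) (by simp))

/-! ## Existence -/

/-- `G` restricted to `β`, for an injective `f` whose range contains all vertices of `G` -/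
theorem of_comap (h : Function.Injective f) (hG : ∀ a ∈ VS G, ∃ i, f i = a) : Tr G (G.comap f) f where
  inj := h
  adj _ _ := Iff.rfl
  sup a _ hab := hG a (left_mem_VS hab)

/-- a graph with `n` vertices is isomorphic to a graph on `Fin n`, up to isolated vertices -/
theorem exists_fin (G : SimpleGraph α) {n : ℕ} (hn : (VS G).card = n) :
    ∃ f : Fin n → α, Tr G (G.comap f) f ∧ VS (G.comap f) = univ := by
  have e := (VS G).equivFinOfCardEq hn
  refine ⟨fun i => (e.symm i : α), ?_, ?_⟩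
  · refine of_comap (fun i j hij => e.symm.injective (Subtype.ext hij)) ?_
    intro a ha
    exact ⟨e ⟨a, ha⟩, by simp⟩
  · have h : Tr G (G.comap fun i => (e.symm i : α)) (fun i => (e.symm i : α)) :=
      of_comap (fun i j hij => e.symm.injective (Subtype.ext hij)) fun a ha => ⟨e ⟨a, ha⟩, by simp⟩
    ext i
    rw [← h.mem_VS']
    simp

end Tr

end DL
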