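import Pool.Agent.DL.BASE.U6
import Pool.Agent.DL.BASE.TRP
import Pool.Agent.DL.E.Defs

/-!
MP_3ff0f8_gt, ALGEBRA HALF, BASE: classification of the graphs with at most 7 vertices: the checker and its
soundness.  (helper59)

A graph on `0, …, k - 1` is a number, the pair `i < j` has the bit `8 j + i`.
-/

open SimpleGraph Finset

namespace DL.BASE

set_option linter.unusedSectionVars false

/-- adjacency in a coded graph -/
def aj (r i j : ℕ) : Bool :=
  bif Nat.ble i j then tb r (Nat.add (Nat.mul (nat_lit 8) j) i)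
  else tb r (Nat.add (Nat.mul (nat_lit 8) i) j)

theorem aj_comm (r i j : ℕ) : aj r i j = aj r j i := by
  unfold aj
  rcases lt_trichotomy i j with h | rfl | h
  · rw [nble, nble, decide_eq_true h.le, decide_eq_false (not_le.2 h)]; rfl
  · rfl
  · rw [nble, nble, decide_eq_true h.le, decide_eq_false (not_le.2 h)]; rfl

theorem aj_lt (r : ℕ) {i j : ℕ} (h : i < j) : aj r i j = r.testBit (8 * j + i) := by
  unfold aj
  rw [nble, decide_eq_true h.le, cond_true, tb_eq]
  rfl

/-- the coded graph `r` on `k` vertices is the subgraph of `G` induced by `S` -/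
structure Rep {α : Type} (G : SimpleGraph α) (S : Finset α) (k r : ℕ) (f : ℕ → α) : Prop where
  card : S.card = k
  mem : ∀ i < k, f i ∈ S
  inj : ∀ i < k, ∀ j < k, f i = f j → i = j
  adj : ∀ i < k, ∀ j < k, i ≠ j → (G.Adj (f i) (f j) ↔ aj r i j = true)

/-- an entry of a table -/
def get (w t i : ℕ) : ℕ := Nat.land (Nat.shiftRight t (Nat.mul w i)) (Nat.pred (bt w))

/-- entry of a permutation -/
def sg (s i : ℕ) : ℕ := Nat.land (Nat.shiftRight s (Nat.mul (nat_lit 4) i)) (nat_lit 15)

/-- `t` is the graph `r` permuted by `s` -/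
def pmc (k r t s : ℕ) : Bool :=
  allB k fun j => fc (sg s j) fun b => Nat.ble (Nat.succ b) k && allB j fun i => fc (sg s i) fun a =>
    !(Nat.beq a b) && !(Bool.xor (tb t (Nat.add (Nat.mul (nat_lit 8) j) i)) (aj r a b))

section

variable {α : Type} {G : SimpleGraph α} {S : Finset α} {k r : ℕ} {f : ℕ → α}

theorem Rep.of_pmc (h : Rep G S k r f) {t s : ℕ} (hp : pmc k r t s = true) :
    Rep G S k t (fun i => f (sg s i)) := by
  unfold pmc at hp
  rw [allB_iff] at hp
  have hlt : ∀ j < k, sg s j < k := by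
    intro j hj
    have := hp j hj
    rw [fc_eq, Bool.and_eq_true, Nat.ble_eq] at this
    exact this.1
  have hij : ∀ j < k, ∀ i < j, sg s i ≠ sg s j ∧ aj t i j = aj r (sg s i) (sg s j) := by
    intro j hj i hi
    have h1 := hp j hj
    rw [fc_eq, Bool.and_eq_true, allB_iff] at h1
    have h2 := h1.2 i hi
    rw [fc_eq, Bool.and_eq_true, Bool.not_eq_true', nbeq, decide_eq_false_iff_not] at h2
    refine ⟨h2.1, ?_⟩
    have h3 := h2.2
    rw [aj_lt t hi]
    rw [tb_eq] at h3
    revert h3
    generalize aj r (sg s i) (sg s j) = x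
    change (!(Bool.xor (t.testBit (8 * j + i)) x)) = true → _
    generalize t.testBit (8 * j + i) = y
    cases x <;> cases y <;> simp
  have hne : ∀ i < k, ∀ j < k, i ≠ j → sg s i ≠ sg s j ∧ aj t i j = aj r (sg s i) (sg s j) := by
    intro i hi j hj hne
    rcases lt_or_gt_of_ne hne with h1 | h1
    · exact hij j hj i h1
    · have := hij i hi j h1
      exact ⟨this.1.symm, by rw [aj_comm t, aj_comm r]; exact this.2⟩
  refine ⟨h.card, fun i hi => h.mem _ (hlt i hi), ?_, ?_⟩
  · intro i hi j hj hf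
    by_contra hc
    exact (hne i hi j hj hc).1 (h.inj _ (hlt i hi) _ (hlt j hj) hf)
  · intro i hi j hj hc
    rw [(hne i hi j hj hc).2]
    exact h.adj _ (hlt i hi) _ (hlt j hj) (hne i hi j hj hc).1

theorem testBit_add_shift {r m : ℕ} (hr : r < 2 ^ m) (N p : ℕ) :
    (r + N <<< m).testBit p = if p < m then r.testBit p else N.testBit (p - m) := by
  rw [Nat.shiftLeft_eq, mul_comm, add_comm]
  exact Nat.testBit_two_pow_mul_add N hr p

theorem Rep.ext [DecidableEq α] (h : Rep G S k r f) (hr : r < 2 ^ (8 * k)) (hk : k ≤ 8) {v : α} (hv : v ∉ S) :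
    ∃ N < 2 ^ k, Rep G (insert v S) (k + 1) (r + N <<< (8 * k)) (Function.update f k v) := by
  classical
  refine ⟨Nat.ofBits (n := k) fun i => decide (G.Adj v (f i)), Nat.ofBits_lt_two_pow _, ?_⟩
  generalize hN : Nat.ofBits (n := k) (fun i => decide (G.Adj v (f i))) = N
  have hb : ∀ i < k, N.testBit i = decide (G.Adj v (f i)) := by
    intro i hi
    rw [← hN, Nat.testBit_ofBits_lt _ _ hi]
  have hu : ∀ i < k, Function.update f k v i = f i := fun i hi => Function.update_of_ne hi.ne _ _
  have hk' : Function.update f k v k = v := Function.update_self _ _ _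
  have hfv : ∀ i < k, f i ≠ v := fun i hi he => hv (he ▸ h.mem i hi)
  have a1 : ∀ i < k, ∀ j < k, i ≠ j → aj (r + N <<< (8 * k)) i j = aj r i j := by
    have : ∀ i < k, ∀ j < k, i < j → aj (r + N <<< (8 * k)) i j = aj r i j := by
      intro i hi j hj hij
      rw [aj_lt _ hij, aj_lt _ hij, testBit_add_shift hr, if_pos (by omega)]
    intro i hi j hj hne
    rcases lt_or_gt_of_ne hne with h1 | h1
    · exact this i hi j hj h1
    · rw [aj_comm, this j hj i hi h1, aj_comm]
  have a2 : ∀ i < k, aj (r + N <<< (8 * k)) i k = decide (G.Adj v (f i)) := by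
    intro i hi
    rw [aj_lt _ hi, testBit_add_shift hr, if_neg (by omega), Nat.add_sub_cancel_left, hb i hi]
  refine ⟨by rw [card_insert_of_notMem hv, h.card], ?_, ?_, ?_⟩
  · intro i hi
    rcases Nat.lt_succ_iff_lt_or_eq.1 hi with h1 | rfl
    · rw [hu i h1]; exact mem_insert_of_mem (h.mem i h1)
    · rw [hk']; exact mem_insert_self _ _
  · intro i hi j hj hf
    rcases Nat.lt_succ_iff_lt_or_eq.1 hi with h1 | rfl <;> rcases Nat.lt_succ_iff_lt_or_eq.1 hj with h2 | rfl
    · rw [hu i h1, hu j h2] at hf; exact h.inj i h1 j h2 hf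
    · rw [hu i h1, hk'] at hf; exact absurd hf (hfv i h1)
    · rw [hu j h2, hk'] at hf; exact absurd hf.symm (hfv j h2)
    · rfl
  · intro i hi j hj hne
    rcases Nat.lt_succ_iff_lt_or_eq.1 hi with h1 | rfl <;> rcases Nat.lt_succ_iff_lt_or_eq.1 hj with h2 | rfl
    · rw [hu i h1, hu j h2, a1 i h1 j h2 hne]; exact h.adj i h1 j h2 hne
    · rw [hu i h1, hk', a2 i h1, decide_eq_true_iff]; exact G.adj_comm _ _
    · rw [hu j h2, hk', aj_comm, a2 j h2, decide_eq_true_iff]
    · exact absurd rfl hne

end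

/-- every graph with `k` vertices is isomorphic to one of the graphs in the table -/
def Reps (k len t : ℕ) : Prop :=
  ∀ {α : Type} (G : SimpleGraph α) (S : Finset α), S.card = k →
    ∃ i < len, ∃ f, Rep G S k (get (nat_lit 56) t i) f

/-- from `k` to `k + 1` vertices -/
def stepc (k len t len' t' C : ℕ) : Bool :=
  Nat.ble k (nat_lit 8) && allB len fun i => fc (get (nat_lit 56) t i) fun r =>
    Nat.ble (Nat.succ r) (bt (Nat.mul (nat_lit 8) k)) &&
    allB (bt k) fun N => fc (Nat.add r (Nat.shiftLeft N (Nat.mul (nat_lit 8) k))) fun q =>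
      fc (get (nat_lit 40) C (Nat.add (Nat.mul i (bt k)) N)) fun c => fc (Nat.land c (nat_lit 255)) fun d =>
        Nat.ble (Nat.succ d) len' &&
          pmc (Nat.succ k) q (get (nat_lit 56) t' d) (Nat.shiftRight c (nat_lit 8))

theorem Reps.step {k len t len' t' C : ℕ} (hR : Reps k len t) (h : stepc k len t len' t' C = true) :
    Reps (k + 1) len' t' := by
  classical
  intro α G S hS
  have hne : S.Nonempty := by rw [← card_pos]; omega
  obtain ⟨v, hv⟩ := hne
  obtain ⟨i, hi, f, hf⟩ := hR G (S.erase v) (by rw [card_erase_of_mem hv]; omega)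
  rw [stepc, Bool.and_eq_true, allB_iff, Nat.ble_eq] at h
  obtain ⟨hk, h⟩ := h
  have h1 := h i hi
  rw [fc_eq, Bool.and_eq_true, allB_iff, Nat.ble_eq, bt_eq] at h1
  have hr : get (nat_lit 56) t i < 2 ^ (8 * k) := h1.1
  obtain ⟨N, hN, hf'⟩ := hf.ext hr hk (notMem_erase v S)
  rw [insert_erase hv] at hf'
  have h2 := h1.2 N (by rw [bt_eq]; exact hN)
  rw [fc_eq, fc_eq, fc_eq, Bool.and_eq_true, Nat.ble_eq] at h2
  obtain ⟨h3, h4⟩ := h2
  exact ⟨_, h3, _, hf'.of_pmc h4⟩

theorem reps_one : Reps 1 1 0 := by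
  intro α G S hS
  obtain ⟨a, rfl⟩ := card_eq_one.1 hS
  refine ⟨0, by norm_num, fun _ => a, hS, ?_, ?_, ?_⟩
  · intro i _
    exact mem_singleton_self a
  · intro i hi j hj _
    omega
  · intro i hi j hj h
    omega

/-- number of `i < n` with `f i` -/
def cntB : ℕ → (ℕ → Bool) → ℕ
  | .zero, _ => .zero
  | .succ n, f => bif f n then Nat.succ (cntB n f) else cntB n f

theorem cntB_eq (n : ℕ) (f : ℕ → Bool) : cntB n f = ((range n).filter fun i => f i = true).card := by
  induction n with
  | zero => rfl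
  | succ n ih =>
    rw [cntB, range_add_one, filter_insert]
    cases hf : f n with
    | true =>
      rw [cond_true, if_pos rfl, card_insert_of_notMem (by simp), ih]
    | false =>
      rw [cond_false, if_neg (by simp), ih]

/-- a separation with the sides `P`, `Q` -/
def sepc (n q P Q : ℕ) : Bool :=
  allB n (fun j => !(tb P j) || (!(tb Q j) && allB n fun i => !(tb Q i) || !(aj q i j))) &&
  fc (cntB n (tb P)) fun x => fc (cntB n (tb Q)) fun y =>
    (Nat.ble (nat_lit 1) x && (Nat.ble (nat_lit 1) y && Nat.ble n (Nat.add (Nat.add x y) (nat_lit 2)))) ||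
    (Nat.ble (nat_lit 2) x && (Nat.ble (nat_lit 2) y && Nat.beq n (Nat.add (Nat.add x y) (nat_lit 3))))

theorem sep_not_reach {α : Type} [DecidableEq α] [Fintype α] {G : SimpleGraph α} {S P Q : Finset α}
    (hs : Sep G S P Q) {a b : α} (ha : a ∈ P) (hb : b ∈ Q) : ¬ (del G S).Reachable a b := by
  rintro ⟨w⟩
  have : b ∈ P := by
    clear hb
    induction w with
    | nil => exact ha
    | @cons u v w hadj _ ih =>
      refine ih ?_
      have h1 : G.Adj u v := hadj.1
      have h2 : v ∉ S := hadj.2.2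
      have h3 : v ∈ VS G := right_mem_VS h1
      rw [← hs.1, mem_union, mem_union] at h3
      rcases h3 with (h3 | h3) | h3
      · exact absurd h3 h2
      · exact h3
      · exact absurd h1 (hs.2.2.2.2 u ha v h3)
  exact (Finset.disjoint_left.1 hs.2.2.2.1) this hb

theorem sepc_sound {α : Type} [DecidableEq α] [Fintype α] {G : SimpleGraph α} {n q P Q : ℕ} {f : ℕ → α}
    (h : Rep G (VS G) n q f) (hc : sepc n q P Q = true) : ¬ C1 G := by
  classical
  intro hC
  rw [sepc, Bool.and_eq_true, allB_iff, fc_eq, fc_eq, cntB_eq, cntB_eq] at hc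
  obtain ⟨h1, h2⟩ := hc
  set IP := (range n).filter fun i => tb P i = true with hIP
  set IQ := (range n).filter fun i => tb Q i = true with hIQ
  have hPn : ∀ i ∈ IP, i < n ∧ tb P i = true := fun i hi => by
    rw [hIP, mem_filter, mem_range] at hi; exact hi
  have hQn : ∀ i ∈ IQ, i < n ∧ tb Q i = true := fun i hi => by
    rw [hIQ, mem_filter, mem_range] at hi; exact hi
  have hcP : (IP.image f).card = IP.card := card_image_of_injOn fun i hi j hj he =>
    h.inj i (hPn i hi).1 j (hPn j hj).1 he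
  have hcQ : (IQ.image f).card = IQ.card := card_image_of_injOn fun i hi j hj he =>
    h.inj i (hQn i hi).1 j (hQn j hj).1 he
  have hsP : IP.image f ⊆ VS G := by
    intro a ha
    obtain ⟨i, hi, rfl⟩ := mem_image.1 ha
    exact h.mem i (hPn i hi).1
  have hsQ : IQ.image f ⊆ VS G := by
    intro a ha
    obtain ⟨i, hi, rfl⟩ := mem_image.1 ha
    exact h.mem i (hQn i hi).1
  have key : ∀ j ∈ IP, tb Q j = false ∧ ∀ i ∈ IQ, aj q i j = false := by
    intro j hj
    have h3 := h1 j (hPn j hj).1
    rw [(hPn j hj).2, Bool.not_true, Bool.false_or, Bool.and_eq_true, Bool.not_eq_true', allB_iff] at h3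
    refine ⟨h3.1, fun i hi => ?_⟩
    have h4 := h3.2 i (hQn i hi).1
    rw [(hQn i hi).2, Bool.not_true, Bool.false_or, Bool.not_eq_true'] at h4
    exact h4
  have hdis : Disjoint (IP.image f) (IQ.image f) := by
    rw [Finset.disjoint_left]
    intro a ha hb
    obtain ⟨i, hi, rfl⟩ := mem_image.1 ha
    obtain ⟨j, hj, he⟩ := mem_image.1 hb
    have := h.inj j (hQn j hj).1 i (hPn i hi).1 he
    subst this
    have h5 := (key _ hi).1
    rw [(hQn _ hj).2] at h5
    exact absurd h5 (by simp)
  have hsub : IP.image f ∪ IQ.image f ⊆ VS G := union_subset hsP hsQ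
  have hS : Sep G (VS G \ (IP.image f ∪ IQ.image f)) (IP.image f) (IQ.image f) := by
    refine ⟨?_, ?_, ?_, hdis, ?_⟩
    · rw [union_assoc]; exact sdiff_union_of_subset hsub
    · exact disjoint_of_subset_right subset_union_left sdiff_disjoint
    · exact disjoint_of_subset_right subset_union_right sdiff_disjoint
    · intro a ha b hb hab
      obtain ⟨j, hj, rfl⟩ := mem_image.1 ha
      obtain ⟨i, hi, rfl⟩ := mem_image.1 hb
      have hne : j ≠ i := by
        rintro rfl
        exact hab.ne rfl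
      have h6 := (h.adj j (hPn j hj).1 i (hQn i hi).1 hne).1 hab
      rw [aj_comm, (key j hj).2 i hi] at h6
      exact absurd h6 (by simp)
  have hcS : (VS G \ (IP.image f ∪ IQ.image f)).card = n - (IP.card + IQ.card) := by
    rw [card_sdiff_of_subset hsub, card_union_of_disjoint hdis, hcP, hcQ, h.card]
  rw [Bool.or_eq_true] at h2
  rcases h2 with h2 | h2
  · rw [Bool.and_eq_true, Bool.and_eq_true, Nat.ble_eq, Nat.ble_eq, Nat.ble_eq] at h2
    obtain ⟨hx, hy, hz⟩ := h2
    have hz' : n ≤ IP.card + IQ.card + 2 := hz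
    have hx' : 0 < IP.card := hx
    have hy' : 0 < IQ.card := hy
    rw [← hcP, card_pos] at hx'
    rw [← hcQ, card_pos] at hy'
    obtain ⟨a, ha⟩ := hx'
    obtain ⟨b, hb⟩ := hy'
    have h7 := hC.1.2 (VS G \ (IP.image f ∪ IQ.image f)) (by rw [hcS]; omega) a (hsP ha) b (hsQ hb)
      (fun h8 => (mem_sdiff.1 h8).2 (mem_union_left _ ha)) (fun h8 => (mem_sdiff.1 h8).2 (mem_union_right _ hb))
    exact sep_not_reach hS ha hb h7
  · rw [Bool.and_eq_true, Bool.and_eq_true, Nat.ble_eq, Nat.ble_eq, Nat.beq_eq] at h2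
    obtain ⟨hx, hy, hz⟩ := h2
    have hz' : n = IP.card + IQ.card + 3 := hz
    have hx' : 2 ≤ IP.card := hx
    have hy' : 2 ≤ IQ.card := hy
    have := hC.2 _ _ _ hS (by rw [hcS]; omega)
    rw [hcP, hcQ] at this
    omega

/-- the statement for all graphs with code `r` -/
def Good (n r : ℕ) : Prop :=
  ∀ {α : Type} [Fintype α] [DecidableEq α] (G : SimpleGraph α) (f : ℕ → α), Rep G (VS G) n r f →
    C1 G → NP G → OK G

/-- one certificate: a separation or an isomorphism with an entry of the table `tF` -/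
def finc (n q tF lenF c : ℕ) : Bool :=
  bif tb c .zero then
    sepc n q (Nat.land (Nat.shiftRight c (nat_lit 1)) (nat_lit 127))
      (Nat.land (Nat.shiftRight c (nat_lit 8)) (nat_lit 127))
  else fc (Nat.land (Nat.shiftRight c (nat_lit 1)) (nat_lit 127)) fun d => Nat.ble (Nat.succ d) lenF &&
    pmc n q (get (nat_lit 56) tF d) (Nat.shiftRight c (nat_lit 8))

theorem finc_sound {n q tF lenF c : ℕ} (h : finc n q tF lenF c = true)
    (hF : ∀ d < lenF, Good n (get (nat_lit 56) tF d)) : Good n q := by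
  intro α _ _ G f hf hC hNP
  rw [finc] at h
  cases hb : tb c .zero with
  | true =>
    rw [hb, cond_true] at h
    exact absurd hC (sepc_sound hf h)
  | false =>
    rw [hb, cond_false, fc_eq, Bool.and_eq_true, Nat.ble_eq] at h
    exact hF _ h.1 G _ (hf.of_pmc h.2) hC hNP

/-- certificates for a table of graphs -/
def finA (n len t C tF lenF : ℕ) : Bool :=
  allB len fun i => fc (get (nat_lit 56) t i) fun r => fc (get (nat_lit 40) C i) fun c => finc n r tF lenF c

theorem finA_sound {n len t C tF lenF : ℕ} (h : finA n len t C tF lenF = true)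
    (hF : ∀ d < lenF, Good n (get (nat_lit 56) tF d)) (hR : Reps n len t) {α : Type} [Fintype α]
    [DecidableEq α] {G : SimpleGraph α} (hn : (VS G).card = n) (hC : C1 G) (hNP : NP G) : OK G := by
  rw [finA, allB_iff] at h
  obtain ⟨i, hi, f, hf⟩ := hR G (VS G) hn
  have h1 := h i hi
  rw [fc_eq, fc_eq] at h1
  exact finc_sound h1 hF G f hf hC hNP

/-- certificates for all extensions of a table of graphs -/
def finB (k len t C tF lenF : ℕ) : Bool :=
  Nat.ble k (nat_lit 8) && allB len fun i => fc (get (nat_lit 56) t i) fun r =>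
    Nat.ble (Nat.succ r) (bt (Nat.mul (nat_lit 8) k)) &&
    allB (bt k) fun N => fc (Nat.add r (Nat.shiftLeft N (Nat.mul (nat_lit 8) k))) fun q =>
      fc (get (nat_lit 40) C (Nat.add (Nat.mul i (bt k)) N)) fun c => finc (Nat.succ k) q tF lenF c

theorem finB_sound {k len t C tF lenF : ℕ} (h : finB k len t C tF lenF = true)
    (hF : ∀ d < lenF, Good (k + 1) (get (nat_lit 56) tF d)) (hR : Reps k len t) {α : Type} [Fintype α]
    [DecidableEq α] {G : SimpleGraph α} (hn : (VS G).card = k + 1) (hC : C1 G) (hNP : NP G) : OK G := by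
  rw [finB, Bool.and_eq_true, allB_iff, Nat.ble_eq] at h
  obtain ⟨hk, h⟩ := h
  have hne : (VS G).Nonempty := by rw [← card_pos]; omega
  obtain ⟨v, hv⟩ := hne
  obtain ⟨i, hi, f, hf⟩ := hR G ((VS G).erase v) (by rw [card_erase_of_mem hv]; omega)
  have h1 := h i hi
  rw [fc_eq, Bool.and_eq_true, allB_iff, Nat.ble_eq, bt_eq] at h1
  have hr : get (nat_lit 56) t i < 2 ^ (8 * k) := h1.1
  obtain ⟨N, hN, hf'⟩ := hf.ext hr hk (notMem_erase v (VS G))
  rw [insert_erase hv] at hf'
  have h2 := h1.2 N (by rw [bt_eq]; exact hN)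
  rw [fc_eq, fc_eq] at h2
  exact finc_sound h2 hF G _ hf' hC hNP

/-- the encoded graph `c` is the coded graph `r` on `n` vertices -/
def same (c : Crt) (n r : ℕ) : Bool :=
  Nat.beq c.n n && allB n fun j => allB j fun i => !(Bool.xor (c.E.adj i j) (aj r i j))

theorem same_sound {c : Crt} {n r : ℕ} (h : same c n r = true) {α : Type} [Fintype α] [DecidableEq α]
    {G : SimpleGraph α} {f : ℕ → α} (hf : Rep G (VS G) n r f) :
    Tr G c.E.G (fun i : Fin c.E.n => f i) := by
  rw [same, Bool.and_eq_true, allB_iff, Nat.beq_eq] at h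
  obtain ⟨hn, h⟩ := h
  have hn' : c.E.n = n := hn
  have h1 : ∀ j < n, ∀ i < j, c.E.adj i j = aj r i j := by
    intro j hj i hi
    have h2 := h j hj
    rw [allB_iff] at h2
    have h3 := h2 i hi
    revert h3
    generalize c.E.adj i j = x
    generalize aj r i j = y
    cases x <;> cases y <;> simp
  refine ⟨?_, ?_, ?_⟩
  · intro i j hij
    exact Fin.ext (hf.inj i (hn' ▸ i.2) j (hn' ▸ j.2) hij)
  · have main : ∀ i j : Fin c.E.n, (i : ℕ) < j → (G.Adj (f i) (f j) ↔ c.E.G.Adj i j) := by
      intro i j hij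
      rw [hf.adj i (hn' ▸ i.2) j (hn' ▸ j.2) hij.ne, Enc.G_adj, h1 j (hn' ▸ j.2) i hij]
    intro i j
    rcases lt_trichotomy (i : ℕ) j with h4 | h4 | h4
    · exact main i j h4
    · have : i = j := Fin.ext h4
      subst this
      exact ⟨fun h5 => absurd rfl h5.ne, fun h5 => absurd rfl h5.ne⟩
    · rw [G.adj_comm, c.E.G.adj_comm]
      exact main j i h4
  · intro a b hab
    have ha := left_mem_VS hab
    have hsub : (range n).image f ⊆ VS G := by
      intro x hx
      obtain ⟨i, hi, rfl⟩ := mem_image.1 hx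
      exact hf.mem i (mem_range.1 hi)
    have heq : (range n).image f = VS G := by
      refine eq_of_subset_of_card_le hsub ?_
      rw [hf.card, card_image_of_injOn, card_range]
      intro i hi j hj he
      exact hf.inj i (mem_range.1 hi) j (mem_range.1 hj) he
    rw [← heq] at ha
    obtain ⟨i, hi, hia⟩ := mem_image.1 ha
    exact ⟨⟨i, hn'.symm ▸ (mem_range.1 hi)⟩, hia⟩

/-- a graph with a proof of `U` and `KZ` -/
theorem good_ok {c : Crt} {n r : ℕ} (h : same c n r = true) (hU : U c.E.G) (hK : KZ c.E.G) : Good n r := by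
  intro α _ _ G f hf _ _
  have := same_sound h hf
  exact ⟨this.u hU, this.kz hK⟩

/-- a planar graph -/
theorem good_np {c : Crt} {n r : ℕ} (h : same c n r = true) (hN : ¬ NP c.E.G) : Good n r := by
  intro α _ _ G f hf _ hNP
  exact absurd ((same_sound h hf).np_of hNP) hN

/-- membership -/
def memL (x : ℕ) : List ℕ → Bool
  | [] => false
  | a :: l => Nat.beq x a || memL x l

theorem memL_sound {x : ℕ} {l : List ℕ} (h : memL x l = true) : x ∈ l := by
  induction l with
  | nil => exact absurd h (by simp [memL])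
  | cons a l ih =>
    rw [memL, Bool.or_eq_true, Nat.beq_eq] at h
    rcases h with h | h
    · rw [h]; exact List.mem_cons_self
    · exact List.mem_cons_of_mem _ (ih h)

/-- all entries of a table are in the list -/
def tabL (len t : ℕ) (l : List ℕ) : Bool := allB len fun i => memL (get (nat_lit 56) t i) l

theorem tabL_sound {n len t : ℕ} {l : List ℕ} (h : tabL len t l = true) (hl : ∀ r ∈ l, Good n r) :
    ∀ d < len, Good n (get (nat_lit 56) t d) := by
  rw [tabL, allB_iff] at h
  intro d hd
  exact hl _ (memL_sound (h d hd))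

end DL.BASE
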