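import Mathlib
import Pool.Agent.DL.PC2
import Pool.Agent.DL.TREE

/-!
MP_3ff0f8_gt, ALGEBRA HALF, BASE: graphs with few vertices, edge sets as numbers.  (helper59)
-/

open SimpleGraph Finset

namespace DL.BASE

set_option linter.unusedSectionVars false
set_option linter.unusedFintypeInType false
set_option linter.unusedDecidableInType false

/-- bit test, fast in the kernel -/
def tb (x k : ℕ) : Bool := Nat.beq (Nat.land (Nat.shiftRight x k) 1) 1

/-- the `k`-th bit -/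
def bt (k : ℕ) : ℕ := Nat.shiftLeft 1 k

theorem nbeq (a b : ℕ) : Nat.beq a b = decide (a = b) := by
  rw [Bool.eq_iff_iff, Nat.beq_eq, decide_eq_true_iff]

theorem nble (a b : ℕ) : Nat.ble a b = decide (a ≤ b) := by
  rw [Bool.eq_iff_iff, Nat.ble_eq, decide_eq_true_iff]

theorem bt_eq (k : ℕ) : bt k = 2 ^ k := by
  change 1 <<< k = 2 ^ k
  rw [Nat.one_shiftLeft]

theorem tb_eq (x k : ℕ) : tb x k = x.testBit k := by
  have h : tb x k = Nat.beq ((x >>> k) &&& 1) 1 := rfl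
  rw [h, Nat.testBit_eq_decide_div_mod_eq, Nat.and_one_is_mod, Nat.shiftRight_eq_div_pow,
    nbeq]

theorem testBit_bt (k j : ℕ) : (bt k).testBit j = decide (k = j) := by
  rw [bt_eq, Nat.testBit_two_pow]

/-- an encoded graph on `Fin n`: `5` bits for each ordered pair, `31` for no edge -/
structure Enc where
  n : ℕ
  T : ℕ

namespace Enc

variable (E : Enc)

/-- index of the edge `ab`, `31` if not adjacent -/
def ix (a b : ℕ) : ℕ := Nat.land (Nat.shiftRight E.T (5 * (E.n * a + b))) 31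

/-- adjacency -/
def adj (a b : ℕ) : Bool :=
  !(Nat.beq a b) && (Nat.ble (E.ix a b) 30 && Nat.beq (E.ix b a) (E.ix a b))

theorem adj_iff {a b : ℕ} : E.adj a b = true ↔ a ≠ b ∧ E.ix a b ≤ 30 ∧ E.ix b a = E.ix a b := by
  simp only [adj, nbeq, nble, Bool.and_eq_true, Bool.not_eq_true', decide_eq_false_iff_not,
    decide_eq_true_iff, ne_eq]

theorem adj_symm {a b : ℕ} (h : E.adj a b = true) : E.adj b a = true := by
  rw [adj_iff] at *
  exact ⟨h.1.symm, h.2.2 ▸ h.2.1, h.2.2.symm⟩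

/-- the graph -/
def G : SimpleGraph (Fin E.n) where
  Adj a b := E.adj a b = true
  symm := ⟨fun _ _ h => E.adj_symm h⟩
  loopless := ⟨fun _ h => (E.adj_iff.1 h).1 rfl⟩

theorem G_adj {a b : Fin E.n} : E.G.Adj a b ↔ E.adj a b = true := Iff.rfl

/-- index of an edge -/
def ixS : Sym2 (Fin E.n) → ℕ :=
  Sym2.lift ⟨fun a b => max (E.ix a b) (E.ix b a), fun _ _ => max_comm _ _⟩

theorem ixS_mk {a b : Fin E.n} (h : E.G.Adj a b) : E.ixS s(a, b) = E.ix a b := by
  have := (E.adj_iff.1 h).2.2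
  change max (E.ix a b) (E.ix b a) = E.ix a b
  rw [this, max_self]

open Classical in
/-- the edge set given by a number -/
noncomputable def unm (x : ℕ) : Finset (Sym2 (Fin E.n)) :=
  univ.filter fun e => e ∈ E.G.edgeSet ∧ x.testBit (E.ixS e) = true

theorem mem_unm {x : ℕ} {e : Sym2 (Fin E.n)} :
    e ∈ E.unm x ↔ e ∈ E.G.edgeSet ∧ x.testBit (E.ixS e) = true := by
  simp [unm]

theorem mk_mem_unm {x : ℕ} {a b : Fin E.n} :
    s(a, b) ∈ E.unm x ↔ E.G.Adj a b ∧ x.testBit (E.ix a b) = true := by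
  rw [mem_unm]
  constructor
  · rintro ⟨h1, h2⟩
    have h1' : E.G.Adj a b := h1
    rw [E.ixS_mk h1'] at h2
    exact ⟨h1', h2⟩
  · rintro ⟨h1, h2⟩
    rw [E.ixS_mk h1]
    exact ⟨h1, h2⟩

theorem unm_subset {x : ℕ} : ∀ e ∈ E.unm x, e ∈ E.G.edgeSet := fun _ h => (E.mem_unm.1 h).1

theorem unm_zero : E.unm 0 = ∅ := by
  ext e; rw [mem_unm]; simp

theorem unm_or (x y : ℕ) : E.unm (x ||| y) = E.unm x ∪ E.unm y := by
  ext e
  rw [mem_union, mem_unm, mem_unm, mem_unm, Nat.testBit_or, Bool.or_eq_true]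
  tauto

theorem mem_unm_xor (x y : ℕ) (e : Sym2 (Fin E.n)) : e ∈ E.unm (x ^^^ y) ↔
    (e ∈ E.unm x ∧ e ∉ E.unm y) ∨ (e ∉ E.unm x ∧ e ∈ E.unm y) := by
  rw [mem_unm, mem_unm, mem_unm, Nat.testBit_xor]
  generalize x.testBit (E.ixS e) = p
  generalize y.testBit (E.ixS e) = q
  cases p <;> cases q <;> simp

theorem chi_unm_xor (x y : ℕ) : chi (E.unm (x ^^^ y)) = chi (E.unm x) + chi (E.unm y) := by
  funext e
  have h := E.mem_unm_xor x y e
  rw [Pi.add_apply]
  by_cases h1 : e ∈ E.unm x <;> by_cases h2 : e ∈ E.unm y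
  · rw [chi_of_mem h1, chi_of_mem h2, chi_of_notMem (by rw [h]; tauto)]; decide
  · rw [chi_of_mem h1, chi_of_notMem h2, chi_of_mem (by rw [h]; tauto)]; decide
  · rw [chi_of_notMem h1, chi_of_mem h2, chi_of_mem (by rw [h]; tauto)]; decide
  · rw [chi_of_notMem h1, chi_of_notMem h2, chi_of_notMem (by rw [h]; tauto)]; decide

/-- different edges have different indices -/
def Inj : Prop := ∀ a b c d : Fin E.n, E.G.Adj a b → E.G.Adj c d → E.ix a b = E.ix c d →
  s(a, b) = s(c, d)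

/-- bit of an edge -/
def eb (a b : ℕ) : ℕ := bt (E.ix a b)

variable {E}

theorem unm_eb (hE : E.Inj) {a b : Fin E.n} (h : E.G.Adj a b) : E.unm (E.eb a b) = {s(a, b)} := by
  ext e
  induction e using Sym2.ind with
  | _ c d =>
    rw [mk_mem_unm, eb, testBit_bt, decide_eq_true_iff, mem_singleton]
    constructor
    · rintro ⟨h1, h2⟩
      exact hE c d a b h1 h h2.symm
    · intro h1
      have h2 : E.G.Adj c d := by
        have : s(c, d) ∈ E.G.edgeSet := h1 ▸ h
        exact this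
      refine ⟨h2, ?_⟩
      rw [← E.ixS_mk h, ← E.ixS_mk h2, h1]

theorem unm_eb_or (hE : E.Inj) {a b : Fin E.n} (h : E.G.Adj a b) (x : ℕ) :
    E.unm (E.eb a b ||| x) = insert s(a, b) (E.unm x) := by
  rw [unm_or, unm_eb hE h, insert_eq]

end Enc

end DL.BASE
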