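import Pool.Agent.DL.BASE.U6
import Pool.Agent.DL.K.Spec

/-!
MP_3ff0f8_gt, ALGEBRA HALF, BASE: the checker for `KZ(G)` and for `¬ NP(G)`.  (helper59)

Pairs of edges `i`, `j` have the number `pr i j`; a function on pairs is a number (bit `pr i j`).
Elements of `Z_2(G)` are given in slots: bit `t` of the slot `pr i j` of `V` is the value of the element `t`.
-/

open SimpleGraph Finset

namespace DL.BASE

/-- number of a pair -/
def pr (i j : ℕ) : ℕ :=
  bif Nat.ble i j then Nat.add (Nat.mul (nat_lit 32) i) j else Nat.add (Nat.mul (nat_lit 32) j) i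

/-- exclusive or of `f 0`, …, `f (n - 1)` -/
def xs : ℕ → (ℕ → ℕ) → ℕ
  | .zero, _ => .zero
  | .succ n, f => Nat.xor (f n) (xs n f)

/-- the equation of the edge `pq` at the vertex `v`: sum of the pairs `pq`, `vw` -/
def eqm (E : Enc) (p q v : ℕ) : ℕ :=
  xs E.n fun w => bif E.adj v w && !(Nat.beq w p || Nat.beq w q) then bt (pr (E.ix p q) (E.ix v w))
    else .zero

/-- parity of the bits `0`, …, `2 ^ k - 1` -/
def par : ℕ → ℕ → Bool
  | .zero, x => tb x .zero
  | .succ k, x => fc (Nat.xor x (Nat.shiftRight x (bt k))) (par k)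

/-- a list of cycles -/
def cycs (E : Enc) (W : ℕ) : List ℕ → ℕ → ℕ → (ℕ → Bool) → Bool
  | [], _, Y, k => k Y
  | a :: l, i, Y, k =>
    fc (Nat.land a (nat_lit 15)) fun s => fc (Nat.shiftRight a (nat_lit 4)) fun a' =>
      Nat.ble (Nat.succ s) E.n && (Nat.ble (Nat.succ i) W &&
        cyc E W s (Nat.succ E.n) a' s (bt s) .zero .zero fun _ y =>
          fc (Nat.lor Y (Nat.shiftLeft y i)) fun Y' => cycs E W l (Nat.succ i) Y' k)

/-- products of at most three edges are even on the cycles -/
def mon (m W k Y : ℕ) : Bool :=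
  allB m fun i => fc (slot W Y i) fun A => Nat.beq A .zero ||
    allB (Nat.succ i) fun j => fc (Nat.land A (slot W Y j)) fun B => Nat.beq B .zero ||
      allB (Nat.succ j) fun l => !(par k (Nat.land B (slot W Y l)))

/-- the parity of the coherence functions is given by the element `t` -/
def chk (c : Crt) (m W k Y Wd V t : ℕ) : Bool :=
  allB m fun i => fc (c.e1 i) fun a => fc (c.e2 i) fun b => allB i fun j =>
    fc (c.e1 j) fun a' => fc (c.e2 j) fun b' =>
      (Nat.beq a a' || (Nat.beq a b' || (Nat.beq b a' || Nat.beq b b'))) ||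
        !(Bool.xor (par k (Nat.xor
          (Nat.land (slot W Y (di c.n a b)) (slot W Y (di c.n a' b')))
          (Nat.land (slot W Y (di c.n b a)) (slot W Y (di c.n b' a')))))
          (tb V (Nat.add (Nat.mul Wd (pr i j)) t)))

/-- all elements -/
def kels (c : Crt) (m W k Wd V : ℕ) : List (List ℕ) → ℕ → Bool
  | [], _ => true
  | L :: l, t => cycs c.E W L .zero .zero (fun Y => mon m W k Y && chk c m W k Y Wd V t) &&
      kels c m W k Wd V l (Nat.succ t)

/-- the elements are in `Z_2(G)` -/
def z2c (E : Enc) (Wd V : ℕ) : Bool :=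
  allB E.n fun p => allB p fun q => !(E.adj p q) || fc (E.ix p q) fun i =>
    allB E.n fun v => (Nat.beq v p || Nat.beq v q) ||
      Nat.beq (xs E.n fun w => bif E.adj v w && !(Nat.beq w p || Nat.beq w q) then
        slot Wd V (pr i (E.ix v w)) else .zero) .zero

/-- the pivots: element `t` is the last one which is not zero at the pivot `t`; the other coordinates are determined by
the equations -/
def pivs (Wd V : ℕ) : List ℕ → ℕ → ℕ → (ℕ → ℕ → Bool) → Bool
  | [], t, K, k => k t K
  | a :: l, t, K, k => Nat.beq (Nat.shiftRight (slot Wd V a) t) (nat_lit 1) &&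
      fc (Nat.lor K (bt a)) fun K' => pivs Wd V l (Nat.succ t) K' k

/-- elimination; `x` is a sum of equations, `K` the set of known coordinates -/
def elim (E : Enc) : List ℕ → ℕ → ℕ → (ℕ → Bool) → Bool
  | [], _, K, k => k K
  | a :: l, x, K, k =>
    fc (Nat.land a (nat_lit 15)) fun p =>
      fc (Nat.land (Nat.shiftRight a (nat_lit 4)) (nat_lit 15)) fun q =>
        fc (Nat.land (Nat.shiftRight a (nat_lit 8)) (nat_lit 15)) fun v =>
          E.adj p q && (!(Nat.beq v p || Nat.beq v q) && (Nat.ble (Nat.succ p) E.n &&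
            (Nat.ble (Nat.succ q) E.n && (Nat.ble (Nat.succ v) E.n &&
              fc (Nat.xor x (eqm E p q v)) fun x' =>
                bif tb a (nat_lit 12) then
                  fc (Nat.xor x' (Nat.land x' K)) fun y =>
                    Nat.beq y (bt (Nat.log2 y)) && fc (Nat.lor K y) fun K' => elim E l .zero K' k
                else elim E l x' K k))))

/-- all coordinates are known -/
def full (c : Crt) (m K : ℕ) : Bool :=
  allB m fun i => fc (c.e1 i) fun a => fc (c.e2 i) fun b => allB i fun j =>
    fc (c.e1 j) fun a' => fc (c.e2 j) fun b' =>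
      (Nat.beq a a' || (Nat.beq a b' || (Nat.beq b a' || Nat.beq b b'))) || tb K (pr i j)

/-- indices are smaller than `m` -/
def lt_m (E : Enc) (m : ℕ) : Bool :=
  allB E.n fun p => allB E.n fun q => !(E.adj p q) || Nat.ble (Nat.succ (E.ix p q)) m

/-- the check for `KZ(G)`: elements (lists of cycles) `L`, pivots `P`, equations `Q` -/
def Crt.kcheck (c : Crt) (m W k Wd V : ℕ) (L : List (List ℕ)) (P Q : List ℕ) : Bool :=
  c.inj && (lt_m c.E m && (Nat.beq W (bt k) && (Nat.beq L.length P.length && (z2c c.E Wd V &&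
    (Nat.ble P.length Wd && (kels c m W k Wd V L .zero &&
      pivs Wd V P .zero .zero fun _ K => elim c.E Q .zero K (full c m)))))))

/-- the check for `¬ NP(G)`: a list of equations with the van Kampen cocycle as sum -/
def npl (c : Crt) (m : ℕ) : List ℕ → ℕ → Bool
  | [], x => Nat.beq x (xs c.n fun a => xs c.n fun b => xs c.n fun a' => xs c.n fun b' =>
      bif Nat.ble (Nat.succ a) a' && (Nat.ble (Nat.succ a') b && (Nat.ble (Nat.succ b) b' &&
        (c.E.adj a b && c.E.adj a' b'))) then bt (pr (c.E.ix a b) (c.E.ix a' b')) else .zero)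
  | a :: l, x =>
    fc (Nat.land a (nat_lit 15)) fun p =>
      fc (Nat.land (Nat.shiftRight a (nat_lit 4)) (nat_lit 15)) fun q =>
        fc (Nat.land (Nat.shiftRight a (nat_lit 8)) (nat_lit 15)) fun v =>
          c.E.adj p q && (!(Nat.beq v p || Nat.beq v q) && (Nat.ble (Nat.succ p) c.n &&
            (Nat.ble (Nat.succ q) c.n && (Nat.ble (Nat.succ v) c.n &&
              fc (Nat.xor x (eqm c.E p q v)) fun x' => npl c m l x'))))

end DL.BASE
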