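import Pool.Agent.DL.BASE.CYZ
import Pool.Agent.DL.EX.SEF
import Pool.Agent.DL.NP.VKA

/-!
# MP_3ff0f8_gt, ALGEBRA HALF: certificates for `KZ G` (helper19)

`kz_of_cert`: certificate, checked by kernel reduction, for `KZ G` of an explicit graph on a labelled vertex set: for the
elements `z_i` of a basis of `Z_2(G)` a list of cycles on which all monomials of degree `≤ 3` have sum `0` and the coherence
functions have the sum `z_i`, and for every pair of disjoint edges a combination of the boundary relations.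
-/

open SimpleGraph Finset

set_option linter.unusedSectionVars false

namespace DL

namespace KZC

open CYZ

variable {α : Type} [Fintype α] [DecidableEq α] {G : SimpleGraph α}

/-! ## Booleans and masks -/

/-- parity -/
def par (L : List Bool) : Bool := L.foldr (· ^^ ·) false

theorem ite_xor (a b : Bool) (y : ZMod 2) :
    (if (a ^^ b) = true then y else 0) = (if a = true then y else 0) + (if b = true then y else 0) := by
  cases a <;> cases b <;> simp [zmod2_add_self]

theorem par_map {β : Type*} (L : List β) (f : β → Bool) :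
    (L.map fun t => if f t = true then (1 : ZMod 2) else 0).sum = if par (L.map f) = true then 1 else 0 := by
  induction L with
  | nil => simp [par]
  | cons t L ih =>
    have e : par (List.map f (t :: L)) = (f t ^^ par (L.map f)) := rfl
    rw [List.map_cons, List.sum_cons, ih, e, ite_xor]

/-- mask of a list of arcs -/
def fmask (n : ℕ) (L : List (ℕ × ℕ)) : ℕ := L.foldr (fun p m => 2 ^ (p.1 * n + p.2) ||| m) 0

theorem testBit_fmask {n : ℕ} {L : List (ℕ × ℕ)} (hL : ∀ p ∈ L, p.2 < n) {a b : ℕ} (hb : b < n) :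
    (fmask n L).testBit (a * n + b) = true ↔ (a, b) ∈ L := by
  induction L with
  | nil => simp [fmask]
  | cons p L ih =>
    have e : fmask n (p :: L) = 2 ^ (p.1 * n + p.2) ||| fmask n L := rfl
    rw [e, Nat.testBit_or, Bool.or_eq_true, ih (fun q hq => hL q (List.mem_cons_of_mem _ hq)), Nat.testBit_two_pow,
      decide_eq_true_iff, List.mem_cons]
    refine or_congr_left ?_
    have hp := hL p List.mem_cons_self
    constructor
    · intro h
      have h1 : b = p.2 := by
        have := congrArg (· % n) h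
        simp only [Nat.mul_add_mod_of_lt hp, Nat.mul_add_mod_of_lt hb] at this
        exact this.symm
      have h2 : a = p.1 := by
        subst h1
        have h3 : p.1 * n = a * n := by omega
        exact (Nat.eq_of_mul_eq_mul_right (by omega) h3).symm
      rw [h1, h2]
    · rintro rfl
      rfl

/-- the value of a mask -/
def valm (N : ℕ) (y : ℕ → ZMod 2) (m : ℕ) : ZMod 2 := ∑ q ∈ Finset.range N, if m.testBit q = true then y q else 0

theorem valm_zero (N : ℕ) (y : ℕ → ZMod 2) : valm N y 0 = 0 := by simp [valm]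

theorem valm_xor (N : ℕ) (y : ℕ → ZMod 2) (m m' : ℕ) : valm N y (m ^^^ m') = valm N y m + valm N y m' := by
  rw [valm, valm, valm, ← sum_add_distrib]
  refine sum_congr rfl fun q _ => ?_
  rw [Nat.testBit_xor, ite_xor]

theorem valm_pow {N : ℕ} (y : ℕ → ZMod 2) {q : ℕ} (hq : q < N) : valm N y (2 ^ q) = y q := by
  rw [valm, sum_eq_single q]
  · rw [Nat.testBit_two_pow_self, if_pos rfl]
  · intro b _ hb
    rw [Nat.testBit_two_pow_of_ne hb.symm]
    rfl
  · intro h
    exact absurd (Finset.mem_range.2 hq) h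

/-- xor of a list -/
def xr (L : List ℕ) : ℕ := L.foldr (· ^^^ ·) 0

theorem valm_xr (N : ℕ) (y : ℕ → ZMod 2) (L : List ℕ) : valm N y (xr L) = (L.map (valm N y)).sum := by
  induction L with
  | nil => exact valm_zero N y
  | cons m L ih =>
    have e : xr (m :: L) = m ^^^ xr L := rfl
    rw [e, valm_xor, ih, List.map_cons, List.sum_cons]

/-! ## Cycles with masks -/

/-- a cycle with the masks of its arcs -/
abbrev CD := List ℕ × ℕ × ℕ

def okm (n : ℕ) (E : List (ℕ × ℕ)) (t : CD) : Bool :=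
  okc E t.1 && (fmask n (prs t.1) == t.2.1) && (fmask n ((prs t.1).map Prod.swap) == t.2.2)

def inM (n : ℕ) (t : CD) (e : ℕ × ℕ) : Bool := (t.2.1 ||| t.2.2).testBit (e.1 * n + e.2)

def cohM (n : ℕ) (t : CD) (a b d e : ℕ) : Bool :=
  (t.2.1.testBit (a * n + b) && t.2.1.testBit (d * n + e)) || (t.2.2.testBit (a * n + b) && t.2.2.testBit (d * n + e))

section

variable {n : ℕ} {x : ℕ → α} {E : List (ℕ × ℕ)}

theorem prs_lt (h : Lab G n x E) {c : List ℕ} (hc : okc E c = true) {p : ℕ × ℕ} (hp : p ∈ prs c) : p.1 < n ∧ p.2 < n := by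
  rw [okc, Bool.and_eq_true, List.all_eq_true] at hc
  have := hc.2 p hp
  rw [Bool.or_eq_true, List.contains_iff_mem, List.contains_iff_mem] at this
  exact (h.adj' this).2

theorem okm_spec (h : Lab G n x E) {t : CD} (ht : okm n E t = true) : okc E t.1 = true ∧
    (∀ a b, a < n → b < n → (t.2.1.testBit (a * n + b) = true ↔ (a, b) ∈ prs t.1)) ∧
    (∀ a b, a < n → b < n → (t.2.2.testBit (a * n + b) = true ↔ (b, a) ∈ prs t.1)) := by
  rw [okm, Bool.and_eq_true, Bool.and_eq_true, beq_iff_eq, beq_iff_eq] at ht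
  obtain ⟨⟨h1, h2⟩, h3⟩ := ht
  refine ⟨h1, fun a b _ hb => ?_, fun a b _ hb => ?_⟩
  · rw [← h2]
    exact testBit_fmask (fun p hp => (prs_lt h h1 hp).2) hb
  · rw [← h3, testBit_fmask (fun p hp => ?_) hb]
    · rw [List.mem_map]
      constructor
      · rintro ⟨p, hp, he⟩
        rw [Prod.ext_iff] at he
        simp only [Prod.fst_swap, Prod.snd_swap] at he
        rw [← he.1, ← he.2]
        exact hp
      · intro hp
        exact ⟨_, hp, rfl⟩
    · obtain ⟨q, hq, rfl⟩ := List.mem_map.1 hp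
      exact (prs_lt h h1 hq).1

theorem inM_iff (h : Lab G n x E) {t : CD} (ht : okm n E t = true) {a b : ℕ} (ha : a < n) (hb : b < n) :
    inM n t (a, b) = true ↔ s(x a, x b) ∈ CE x t.1 := by
  obtain ⟨h1, h2, h3⟩ := okm_spec h ht
  rw [inM, Nat.testBit_or, Bool.or_eq_true, h2 a b ha hb, h3 a b ha hb, mem_CE h h1 ha hb]

theorem cohM_eq (h : Lab G n x E) {t : CD} (ht : okm n E t = true) {a b d e : ℕ} (ha : a < n) (hb : b < n)
    (hd : d < n) (he : e < n) (had : a ≠ d) (hae : a ≠ e) :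
    coh (x a) (x b) (x d) (x e) (CE x t.1) = if cohM n t a b d e = true then 1 else 0 := by
  obtain ⟨h1, h2, h3⟩ := okm_spec h ht
  rw [coh_CE h h1 ha hb hd he had hae]
  congr 1
  rw [eq_iff_iff, cohM, cohB]
  simp only [Bool.or_eq_true, Bool.and_eq_true, List.contains_iff_mem, h2 a b ha hb, h2 d e hd he, h3 a b ha hb,
    h3 d e hd he]

/-! ## Cubic functions -/

/-- the check of the monomials of degree `≤ 3` -/
def mon3 (n : ℕ) (E : List (ℕ × ℕ)) (S : List CD) : Bool :=
  E.all fun e₁ => E.all fun e₂ => decide (e₂.1 * n + e₂.2 < e₁.1 * n + e₁.2) || E.all fun e₃ =>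
    decide (e₃.1 * n + e₃.2 < e₂.1 * n + e₂.2) || !(par (S.map fun t => inM n t e₁ && (inM n t e₂ && inM n t e₃)))

theorem mon3_spec (h : Lab G n x E) {S : List CD} (hS : ∀ t ∈ S, okm n E t = true) (hm : mon3 n E S = true)
    {e₁ e₂ e₃ : Sym2 α} (h1 : e₁ ∈ G.edgeSet) (h2 : e₂ ∈ G.edgeSet) (h3 : e₃ ∈ G.edgeSet) :
    (S.map fun t => chi (CE x t.1) e₁ * (chi (CE x t.1) e₂ * chi (CE x t.1) e₃)).sum = 0 := by
  -- labels
  have lab : ∀ e ∈ G.edgeSet, ∃ p ∈ E, e = s(x p.1, x p.2) := by
    intro e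
    induction e with
    | _ a b => intro he; exact (h.adj a b).1 he
  obtain ⟨p₁, q1, rfl⟩ := lab _ h1
  obtain ⟨p₂, q2, rfl⟩ := lab _ h2
  obtain ⟨p₃, q3, rfl⟩ := lab _ h3
  clear h1 h2 h3 lab
  have ord : ∀ p₁ p₂ p₃ : ℕ × ℕ, p₁ ∈ E → p₂ ∈ E → p₃ ∈ E → p₁.1 * n + p₁.2 ≤ p₂.1 * n + p₂.2 →
      p₂.1 * n + p₂.2 ≤ p₃.1 * n + p₃.2 → (S.map fun t => chi (CE x t.1) s(x p₁.1, x p₁.2) *
      (chi (CE x t.1) s(x p₂.1, x p₂.2) * chi (CE x t.1) s(x p₃.1, x p₃.2))).sum = 0 := by
    intro p₁ p₂ p₃ q1 q2 q3 l1 l2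
    rw [mon3, List.all_eq_true] at hm
    have m1 := hm p₁ q1
    rw [List.all_eq_true] at m1
    have m2 := m1 p₂ q2
    rw [Bool.or_eq_true, decide_eq_true_iff, or_iff_right (not_lt_of_ge l1), List.all_eq_true] at m2
    have m3 := m2 p₃ q3
    rw [Bool.or_eq_true, decide_eq_true_iff, or_iff_right (not_lt_of_ge l2), Bool.not_eq_true'] at m3
    have e1 : ∀ t ∈ S, chi (CE x t.1) s(x p₁.1, x p₁.2) *
        (chi (CE x t.1) s(x p₂.1, x p₂.2) * chi (CE x t.1) s(x p₃.1, x p₃.2)) =
        if (inM n t p₁ && (inM n t p₂ && inM n t p₃)) = true then 1 else 0 := by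
      intro t ht
      have k : ∀ p ∈ E, chi (CE x t.1) s(x p.1, x p.2) = if inM n t p = true then 1 else 0 := by
        intro p hp
        have := h.lt p hp
        rw [chi_apply]
        congr 1
        rw [eq_iff_iff]
        exact (inM_iff h (hS t ht) (a := p.1) (b := p.2) (by omega) (by omega)).symm
      rw [k _ q1, k _ q2, k _ q3]
      cases inM n t p₁ <;> cases inM n t p₂ <;> cases inM n t p₃ <;> simp
    rw [List.map_congr_left e1, par_map, m3]
    rfl
  have sw1 : ∀ a b c : Sym2 α, (S.map fun t => chi (CE x t.1) a * (chi (CE x t.1) b * chi (CE x t.1) c)).sum = 0 →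
      (S.map fun t => chi (CE x t.1) b * (chi (CE x t.1) a * chi (CE x t.1) c)).sum = 0 := by
    intro a b c hh
    rw [← hh]
    congr 1
    exact List.map_congr_left fun t _ => by ring
  have sw2 : ∀ a b c : Sym2 α, (S.map fun t => chi (CE x t.1) a * (chi (CE x t.1) b * chi (CE x t.1) c)).sum = 0 →
      (S.map fun t => chi (CE x t.1) a * (chi (CE x t.1) c * chi (CE x t.1) b)).sum = 0 := by
    intro a b c hh
    rw [← hh]
    congr 1
    exact List.map_congr_left fun t _ => by ring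
  rcases le_total (p₁.1 * n + p₁.2) (p₂.1 * n + p₂.2) with l1 | l1 <;>
    rcases le_total (p₂.1 * n + p₂.2) (p₃.1 * n + p₃.2) with l2 | l2 <;>
    rcases le_total (p₁.1 * n + p₁.2) (p₃.1 * n + p₃.2) with l3 | l3
  · exact ord _ _ _ q1 q2 q3 l1 l2
  · exact ord _ _ _ q1 q2 q3 l1 l2
  · exact sw2 _ _ _ (ord _ _ _ q1 q3 q2 l3 l2)
  · exact sw2 _ _ _ (sw1 _ _ _ (ord _ _ _ q3 q1 q2 l3 l1))
  · exact sw1 _ _ _ (ord _ _ _ q2 q1 q3 l1 l3)
  · exact sw1 _ _ _ (sw2 _ _ _ (ord _ _ _ q2 q3 q1 l2 l3))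
  · exact sw1 _ _ _ (sw2 _ _ _ (sw1 _ _ _ (ord _ _ _ q3 q2 q1 l2 l1)))
  · exact sw1 _ _ _ (sw2 _ _ _ (sw1 _ _ _ (ord _ _ _ q3 q2 q1 l2 l1)))

/-- a set with at most three elements -/
theorem exists_three {T : Finset (Sym2 α)} (hT : T.Nonempty) (h3 : T.card ≤ 3) :
    ∃ a ∈ T, ∃ b ∈ T, ∃ c ∈ T, T = {a, b, c} := by
  have h0 : T.card ≠ 0 := fun h => by rw [card_eq_zero] at h; exact hT.ne_empty h
  have : T.card = 1 ∨ T.card = 2 ∨ T.card = 3 := by omega
  rcases this with h | h | h
  · obtain ⟨a, rfl⟩ := card_eq_one.1 h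
    exact ⟨a, by simp, a, by simp, a, by simp, by simp⟩
  · obtain ⟨a, b, _, rfl⟩ := card_eq_two.1 h
    exact ⟨a, by simp, b, by simp, b, by simp, by simp⟩
  · obtain ⟨a, b, c, _, _, _, rfl⟩ := card_eq_three.1 h
    exact ⟨a, by simp, b, by simp, c, by simp, rfl⟩

/-- the sum of a cubic function over a list of cycles on which all monomials vanish -/
theorem cubic_sum {S : List (Finset (Sym2 α))} (hG : ∀ C ∈ S, ∀ e ∈ C, e ∈ G.edgeSet)
    (hS : ∀ e₁ e₂ e₃ : Sym2 α, e₁ ∈ G.edgeSet → e₂ ∈ G.edgeSet → e₃ ∈ G.edgeSet →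
      (S.map fun C => chi C e₁ * (chi C e₂ * chi C e₃)).sum = 0)
    {p : Chain α → ZMod 2} (hp : DegLE 3 p) (hp0 : p 0 = 0) : (S.map fun C => p (chi C)).sum = 0 := by
  classical
  set K : Finset (Sym2 α) → ZMod 2 := fun T => ∑ T' ∈ T.powerset, p (∑ e ∈ T', chi {e}) with hK
  have hchi : ∀ C : Finset (Sym2 α), chi C = ∑ e ∈ C, chi {e} := by
    intro C
    funext f
    rw [Finset.sum_apply]
    simp only [chi_apply, mem_singleton]
    rw [Finset.sum_ite_eq]
  set U : Finset (Sym2 α) := univ.filter fun e => e ∈ G.edgeSet with hU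
  have h1 : ∀ C ∈ S, p (chi C) = ∑ T ∈ U.powerset.filter (fun T => T.card ≤ 3), (if T ⊆ C then K T else 0) := by
    intro C hC
    rw [hchi C, specPOL.exp (fun e => chi {e}) C hp, ← Finset.sum_filter, Finset.filter_filter]
    refine sum_congr ?_ fun _ _ => rfl
    ext T
    simp only [mem_filter, mem_powerset, hU]
    constructor
    · rintro ⟨h1, h2⟩
      exact ⟨fun e he => mem_filter.2 ⟨mem_univ _, hG C hC e (h1 he)⟩, h2, h1⟩
    · rintro ⟨_, h2, h3⟩
      exact ⟨h3, h2⟩
  rw [List.map_congr_left h1]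
  have h2 : (S.map fun C => ∑ T ∈ U.powerset.filter (fun T => T.card ≤ 3), (if T ⊆ C then K T else 0)).sum =
      ∑ T ∈ U.powerset.filter (fun T => T.card ≤ 3), (S.map fun C => if T ⊆ C then K T else 0).sum := by
    clear h1 hS hG
    induction S with
    | nil => simp
    | cons C S ih => simp only [List.map_cons, List.sum_cons, ih, sum_add_distrib]
  rw [h2]
  refine sum_eq_zero fun T hT => ?_
  rw [mem_filter, mem_powerset] at hT
  by_cases hT0 : T = ∅
  · subst hT0
    have : K ∅ = 0 := by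
      rw [hK]
      simp [hp0]
    simp [this]
  · obtain ⟨a, ha, b, hb, c, hc, habc⟩ := exists_three (nonempty_iff_ne_empty.2 hT0) hT.2
    have ha' : a ∈ G.edgeSet := (mem_filter.1 (hT.1 ha)).2
    have hb' : b ∈ G.edgeSet := (mem_filter.1 (hT.1 hb)).2
    have hc' : c ∈ G.edgeSet := (mem_filter.1 (hT.1 hc)).2
    have h3 := hS a b c ha' hb' hc'
    have h4 : ∀ C ∈ S, (if T ⊆ C then K T else 0) = K T * (chi C a * (chi C b * chi C c)) := by
      intro C _
      rw [habc, chi_apply, chi_apply, chi_apply]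
      by_cases i1 : a ∈ C <;> by_cases i2 : b ∈ C <;> by_cases i3 : c ∈ C <;>
        simp [i1, i2, i3, insert_subset_iff]
    rw [List.map_congr_left h4, List.sum_map_mul_left, h3, mul_zero]

end

/-! ## The certificate -/

/-- normal form of a pair -/
def nm (v w : ℕ) : ℕ × ℕ := if v < w then (v, w) else (w, v)

/-- disjoint edges -/
def djB (e f : ℕ × ℕ) : Bool := decide (e.1 ≠ f.1) && decide (e.1 ≠ f.2) && decide (e.2 ≠ f.1) && decide (e.2 ≠ f.2)

/-- pairs of edges -/
abbrev PE := (ℕ × ℕ) × (ℕ × ℕ)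

/-- index of a pair of edges -/
def idx (PR : List PE) (e f : ℕ × ℕ) : ℕ :=
  if PR.idxOf (e, f) < PR.length then PR.idxOf (e, f) else PR.idxOf (f, e)

/-- mask of the boundary relation of the row `e` at `v` -/
def relm (n : ℕ) (E : List (ℕ × ℕ)) (PR : List PE) (e : ℕ × ℕ) (v : ℕ) : ℕ :=
  xr ((List.range n).map fun w => if (E.contains (nm v w) && djB e (nm v w)) = true then 2 ^ idx PR e (nm v w) else 0)

/-- the pairs of disjoint edges -/
def ckP (E : List (ℕ × ℕ)) (PR : List PE) : Bool :=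
  (PR.all fun p => E.contains p.1 && E.contains p.2 && djB p.1 p.2) &&
    E.all fun e => E.all fun f => !(djB e f) || PR.contains (e, f) || PR.contains (f, e)

/-- the sets of cycles (with the mask of the dual functional) -/
def ckB (n : ℕ) (E : List (ℕ × ℕ)) (B : List (List CD × ℕ)) : Bool :=
  B.all fun t => t.1.all (okm n E) && mon3 n E t.1

/-- the relations -/
def ckR (n : ℕ) (E : List (ℕ × ℕ)) (PR : List PE) (REL : List (((ℕ × ℕ) × ℕ) × ℕ)) : Bool :=
  REL.all fun r => E.contains r.1.1 && decide (r.1.2 < n) && decide (r.1.2 ≠ r.1.1.1) && decide (r.1.2 ≠ r.1.1.2) &&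
    (relm n E PR r.1.1 r.1.2 == r.2)

/-- every pair is a combination of relations and pivots -/
def ckQ (n : ℕ) (PR : List PE) (B : List (List CD × ℕ)) (REL : List (((ℕ × ℕ) × ℕ) × ℕ)) (R : List (List ℕ)) : Bool :=
  (List.range PR.length).all fun q => xr ((R.getD q []).map fun i => (REL.getD i (((0, 0), 0), 0)).2) ==
    2 ^ q ^^^ xr (B.map fun t => if par (t.1.map fun c => cohM n c (PR.getD q ((0, 0), (0, 0))).1.1
      (PR.getD q ((0, 0), (0, 0))).1.2 (PR.getD q ((0, 0), (0, 0))).2.1 (PR.getD q ((0, 0), (0, 0))).2.2) = true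
      then t.2 else 0)

section

variable {n : ℕ} {x : ℕ → α} {E : List (ℕ × ℕ)}

theorem zmod2_eq_of_add {a b : ZMod 2} (h : a + b = 0) : a = b := by
  revert a b; decide

/-- sum of the coherence functions -/
noncomputable def Phi (x : ℕ → α) (S : List CD) (a b c d : α) : ZMod 2 := (S.map fun t => coh a b c d (CE x t.1)).sum

section Phi

variable {S : List CD}

theorem sum_chi2 (h : Lab G n x E) (hS : ∀ t ∈ S, okm n E t = true) (hm : mon3 n E S = true) (e f : Sym2 α) :
    (S.map fun t => chi (CE x t.1) e * chi (CE x t.1) f).sum = 0 := by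
  by_cases he : e ∈ G.edgeSet ∧ f ∈ G.edgeSet
  · have := mon3_spec h hS hm he.1 he.2 he.2
    rw [← this]
    congr 1
    refine List.map_congr_left fun t _ => ?_
    congr 1
    generalize chi (CE x t.1) f = u
    revert u; decide
  · have : ∀ t ∈ S, chi (CE x t.1) e * chi (CE x t.1) f = 0 := by
      intro t ht
      have hc := (isCyc h (okm_spec h (hS t ht)).1).subset
      rw [not_and_or] at he
      rcases he with he | he
      · rw [chi_of_notMem (fun h' => he (hc _ h')), zero_mul]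
      · rw [chi_of_notMem (fun h' => he (hc _ h')), mul_zero]
    rw [List.map_congr_left this]
    simp

theorem Phi_swap (h : Lab G n x E) (hS : ∀ t ∈ S, okm n E t = true) (hm : mon3 n E S = true) {a b c d : α}
    (hne : s(a, b) ≠ s(c, d)) : Phi x S a b d c = Phi x S a b c d := by
  refine (zmod2_eq_of_add ?_).symm
  rw [Phi, Phi, ← sum_chi2 h hS hm s(a, b) s(c, d), ← List.sum_map_add]
  congr 1
  exact List.map_congr_left fun t ht => (isCyc h (okm_spec h (hS t ht)).1).coh_add_swap hne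

theorem Phi_rev (h : Lab G n x E) (hS : ∀ t ∈ S, okm n E t = true) (a b c d : α) :
    Phi x S b a d c = Phi x S a b c d := by
  rw [Phi, Phi]
  congr 1
  exact List.map_congr_left fun t ht => (isCyc h (okm_spec h (hS t ht)).1).coh_reverse a b c d

theorem Phi_comm (h : Lab G n x E) (hS : ∀ t ∈ S, okm n E t = true) (a b c d : α) :
    Phi x S c d a b = Phi x S a b c d := by
  rw [Phi, Phi]
  congr 1
  exact List.map_congr_left fun t ht => (isCyc h (okm_spec h (hS t ht)).1).coh_comm a b c d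

theorem Phi_share (h : Lab G n x E) (hS : ∀ t ∈ S, okm n E t = true) (hm : mon3 n E S = true) {a b c d : α}
    (hv : ∃ v, v ∈ s(a, b) ∧ v ∈ s(c, d)) : Phi x S a b c d = 0 := by
  rcases coh_share hv with hc | hc
  · rw [Phi, List.map_congr_left fun t ht => hc G _ (isCyc h (okm_spec h (hS t ht)).1)]
    simp
  · rw [Phi, List.map_congr_left fun t ht => hc G _ (isCyc h (okm_spec h (hS t ht)).1)]
    exact sum_chi2 h hS hm _ _

theorem Phi_edge (h : Lab G n x E) (hS : ∀ t ∈ S, okm n E t = true) {a b c d : α}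
    (hv : ¬ (s(a, b) ∈ G.edgeSet ∧ s(c, d) ∈ G.edgeSet)) : Phi x S a b c d = 0 := by
  have : ∀ t ∈ S, coh a b c d (CE x t.1) = 0 := by
    intro t ht
    have hc := (isCyc h (okm_spec h (hS t ht)).1).subset
    rw [not_and_or] at hv
    rcases hv with hv | hv
    · exact coh_eq_zero_left (fun h' => hv (hc _ h'))
    · exact coh_eq_zero_right (fun h' => hv (hc _ h'))
  rw [Phi, List.map_congr_left this]
  simp

end Phi

theorem djB_iff {e f : ℕ × ℕ} : djB e f = true ↔ e.1 ≠ f.1 ∧ e.1 ≠ f.2 ∧ e.2 ≠ f.1 ∧ e.2 ≠ f.2 := by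
  simp [djB, and_assoc]

/-- the value of a 2-cycle on a pair of labelled edges -/
def zp (x : ℕ → α) (z : Sym2 α → Sym2 α → ZMod 2) (p : PE) : ZMod 2 := z s(x p.1.1, x p.1.2) s(x p.2.1, x p.2.2)

/-- the value with a given index -/
def yq (x : ℕ → α) (z : Sym2 α → Sym2 α → ZMod 2) (PR : List PE) (q : ℕ) : ZMod 2 :=
  zp x z (PR.getD q ((0, 0), (0, 0)))

theorem idx_spec {PR : List PE} (hP : ckP E PR = true) {z : Sym2 α → Sym2 α → ZMod 2} (hz : IsZ2 G z) {e f : ℕ × ℕ}
    (he : e ∈ E) (hf : f ∈ E) (hd : djB e f = true) :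
    idx PR e f < PR.length ∧ yq x z PR (idx PR e f) = zp x z (e, f) := by
  rw [ckP, Bool.and_eq_true, List.all_eq_true, List.all_eq_true] at hP
  have h1 := hP.2 e he
  rw [List.all_eq_true] at h1
  have h2 := h1 f hf
  rw [hd, Bool.or_eq_true, Bool.or_eq_true, List.contains_iff_mem, List.contains_iff_mem] at h2
  simp only [Bool.not_true, Bool.false_eq_true, false_or] at h2
  rw [idx]
  by_cases h3 : PR.idxOf (e, f) < PR.length
  · rw [if_pos h3]
    refine ⟨h3, ?_⟩
    rw [yq, List.getD_eq_getElem _ _ h3, List.getElem_idxOf]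
  · rw [if_neg h3]
    have h4 : (f, e) ∈ PR := by
      rcases h2 with h2 | h2
      · exact absurd (List.idxOf_lt_length_of_mem h2) h3
      · exact h2
    have h5 := List.idxOf_lt_length_of_mem h4
    refine ⟨h5, ?_⟩
    rw [yq, List.getD_eq_getElem _ _ h5, List.getElem_idxOf]
    exact hz.1 _ _

theorem Lab.adj_iff (h : Lab G n x E) {v w : ℕ} (hv : v < n) (hw : w < n) : G.Adj (x v) (x w) ↔ nm v w ∈ E := by
  rw [h.adj]
  constructor
  · rintro ⟨e, he, h1⟩
    have h2 := h.lt e he
    rw [Sym2.eq_iff] at h1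
    rcases h1 with ⟨h3, h4⟩ | ⟨h3, h4⟩
    · have h5 := h.inj _ hv _ (by omega) h3
      have h6 := h.inj _ hw _ (by omega) h4
      rw [nm, if_pos (by omega)]
      rw [h5, h6]
      exact he
    · have h5 := h.inj _ hv _ (by omega) h3
      have h6 := h.inj _ hw _ (by omega) h4
      rw [nm, if_neg (by omega)]
      rw [h5, h6]
      exact he
  · intro he
    rw [nm] at he
    split_ifs at he with h1
    · exact ⟨_, he, rfl⟩
    · exact ⟨_, he, Sym2.eq_swap⟩

theorem nm_eq (v w : ℕ) : s(x (nm v w).1, x (nm v w).2) = s(x v, x w) := by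
  rw [nm]
  split_ifs
  · rfl
  · exact Sym2.eq_swap

theorem djB_nm {e : ℕ × ℕ} {v w : ℕ} : djB e (nm v w) = true ↔ e.1 ≠ v ∧ e.1 ≠ w ∧ e.2 ≠ v ∧ e.2 ≠ w := by
  rw [djB_iff, nm]
  split_ifs
  · rfl
  · simp only
    tauto

theorem rel_spec (h : Lab G n x E) {PR : List PE} (hP : ckP E PR = true) {z : Sym2 α → Sym2 α → ZMod 2}
    (hz : IsZ2 G z) {e : ℕ × ℕ} {v : ℕ} (he : e ∈ E) (hv : v < n) (h1 : v ≠ e.1) (h2 : v ≠ e.2) :
    valm PR.length (yq x z PR) (relm n E PR e v) = 0 := by
  have hlt := h.lt e he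
  rw [relm, valm_xr, List.map_map]
  have h3 : ∀ w ∈ List.range n, (valm PR.length (yq x z PR) ∘ fun w => if (E.contains (nm v w) &&
      djB e (nm v w)) = true then 2 ^ idx PR e (nm v w) else 0) w = z s(x e.1, x e.2) s(x v, x w) := by
    intro w hw
    rw [List.mem_range] at hw
    simp only [Function.comp_apply]
    by_cases hc : (E.contains (nm v w) && djB e (nm v w)) = true
    · rw [if_pos hc]
      rw [Bool.and_eq_true, List.contains_iff_mem] at hc
      obtain ⟨h4, h5⟩ := idx_spec (x := x) hP hz he hc.1 hc.2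
      rw [valm_pow _ h4, h5, zp]
      simp only
      rw [nm_eq]
    · rw [if_neg hc, valm_zero]
      by_contra h0
      obtain ⟨_, h4, h5⟩ := hz.2.1 _ _ (Ne.symm h0)
      refine hc ?_
      rw [Bool.and_eq_true, List.contains_iff_mem, djB_nm, ← Lab.adj_iff h hv hw]
      refine ⟨h4, h1.symm, ?_, h2.symm, ?_⟩
      · rintro rfl
        exact h5 (x e.1) ⟨Sym2.mem_mk_left _ _, Sym2.mem_mk_right _ _⟩
      · rintro rfl
        exact h5 (x e.2) ⟨Sym2.mem_mk_right _ _, Sym2.mem_mk_right _ _⟩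
  rw [List.map_congr_left h3]
  have h4 : ((List.range n).map fun w => z s(x e.1, x e.2) s(x v, x w)).sum =
      ∑ w ∈ Finset.range n, z s(x e.1, x e.2) s(x v, x w) := by
    rw [Finset.sum_range, ← List.sum_ofFn]
    congr 1
    rw [List.ofFn_eq_map, ← List.map_coe_finRange_eq_range, List.map_map]
    rfl
  rw [h4]
  have h5 : ∑ w ∈ Finset.range n, z s(x e.1, x e.2) s(x v, x w) = ∑ a : α, z s(x e.1, x e.2) s(x v, a) := by
    rw [← Finset.sum_image (f := fun a => z s(x e.1, x e.2) s(x v, a)) (g := x) (s := Finset.range n)]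
    · refine Finset.sum_subset (Finset.subset_univ _) fun a _ ha => ?_
      by_contra h0
      obtain ⟨_, h6, _⟩ := hz.2.1 _ _ h0
      refine ha ?_
      obtain ⟨f, hf, h7⟩ := (h.adj _ _).1 h6
      have h8 := h.lt f hf
      rw [Sym2.eq_iff] at h7
      rcases h7 with ⟨_, h9⟩ | ⟨_, h9⟩
      · exact Finset.mem_image.2 ⟨f.2, Finset.mem_range.2 (by omega), h9.symm⟩
      · exact Finset.mem_image.2 ⟨f.1, Finset.mem_range.2 (by omega), h9.symm⟩
    · intro i hi j hj hij
      rw [Finset.mem_coe, Finset.mem_range] at hi hj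
      exact h.inj i hi j hj hij
  rw [h5, ← VKAM.sum_star (fun f => z s(x e.1, x e.2) f)]
  refine hz.2.2 _ _ ?_
  rw [Sym2.mem_iff, not_or]
  exact ⟨fun hh => h1 (h.inj _ hv _ (by omega) hh), fun hh => h2 (h.inj _ hv _ (by omega) hh)⟩

/-- additivity of the pairing -/
def Sm (l F : α → α → α → α → ZMod 2) : ZMod 2 := ∑ a, ∑ b, ∑ c, ∑ d, l a b c d * F a b c d

theorem Sm_list {β : Type*} (l : α → α → α → α → ZMod 2) (L : List β) (g : β → α → α → α → α → ZMod 2) :
    Sm l (fun a b c d => (L.map fun t => g t a b c d).sum) = (L.map fun t => Sm l (g t)).sum := by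
  induction L with
  | nil => simp [Sm]
  | cons t L ih =>
    rw [List.map_cons, List.sum_cons, ← ih]
    simp only [Sm, List.map_cons, List.sum_cons, mul_add, sum_add_distrib]

theorem Sm_smul (l : α → α → α → α → ZMod 2) (y : ZMod 2) (F : α → α → α → α → ZMod 2) :
    Sm l (fun a b c d => y * F a b c d) = y * Sm l F := by
  simp only [Sm, mul_sum]
  refine sum_congr rfl fun a _ => sum_congr rfl fun b _ => sum_congr rfl fun c _ => sum_congr rfl fun d _ => ?_
  ring

/-- **`KZ` by a checkable certificate** -/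
theorem kz_of_cert (h : Lab G n x E) {PR : List PE} {B : List (List CD × ℕ)} {REL : List (((ℕ × ℕ) × ℕ) × ℕ)}
    {R : List (List ℕ)} (hP : ckP E PR = true) (hB : ckB n E B = true) (hR : ckR n E PR REL = true)
    (hQ : ckQ n PR B REL R = true) : KZ G := by
  intro l hl z hz
  set y := yq x z PR with hy
  rw [ckB, List.all_eq_true] at hB
  set lam : ℕ → ZMod 2 := valm PR.length y with hlam
  have hB' : ∀ t ∈ B, (∀ u ∈ t.1, okm n E u = true) ∧ mon3 n E t.1 = true := by
    intro t ht
    have := hB t ht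
    rw [Bool.and_eq_true, List.all_eq_true] at this
    exact ⟨this.1, this.2⟩
  rw [ckR, List.all_eq_true] at hR
  have hR' : ∀ i, valm PR.length y (REL.getD i (((0, 0), 0), 0)).2 = 0 := by
    intro i
    by_cases hi : i < REL.length
    · rw [List.getD_eq_getElem _ _ hi]
      have := hR _ (List.getElem_mem hi)
      rw [Bool.and_eq_true, Bool.and_eq_true, Bool.and_eq_true, Bool.and_eq_true, List.contains_iff_mem,
        decide_eq_true_iff, decide_eq_true_iff, decide_eq_true_iff, beq_iff_eq] at this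
      obtain ⟨⟨⟨⟨h1, h2⟩, h3⟩, h4⟩, h5⟩ := this
      rw [← h5]
      exact rel_spec h hP hz h1 h2 h3 h4
    · rw [List.getD_eq_default _ _ (not_lt.1 hi)]
      exact valm_zero _ _
  have hPs := hP
  rw [ckP, Bool.and_eq_true, List.all_eq_true] at hPs
  -- the values on the canonical pairs
  have hC : ∀ p ∈ PR, zp x z p = (B.map fun t => lam t.2 * Phi x t.1 (x p.1.1) (x p.1.2) (x p.2.1) (x p.2.2)).sum := by
    intro p hp
    obtain ⟨q, hq, rfl⟩ := List.getElem_of_mem hp
    have hp' := hPs.1 _ hp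
    rw [Bool.and_eq_true, Bool.and_eq_true, List.contains_iff_mem, List.contains_iff_mem, djB_iff] at hp'
    obtain ⟨⟨g1, g2⟩, g3⟩ := hp'
    rw [ckQ, List.all_eq_true] at hQ
    have h1 := hQ q (List.mem_range.2 hq)
    rw [beq_iff_eq, List.getD_eq_getElem _ _ hq] at h1
    have h2 := congrArg (valm PR.length y) h1
    rw [valm_xr, valm_xor, valm_xr, valm_pow _ hq, List.map_map, List.map_map] at h2
    have h3 : ((R.getD q []).map (valm PR.length y ∘ fun i => (REL.getD i (((0, 0), 0), 0)).2)).sum = 0 := by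
      rw [List.map_congr_left fun i _ => show (valm PR.length y ∘ fun i => (REL.getD i (((0, 0), 0), 0)).2) i = 0
        from hR' i]
      simp
    rw [h3] at h2
    have h4 := zmod2_eq_of_add h2.symm
    have h5 : y q = zp x z PR[q] := by
      rw [hy, yq, List.getD_eq_getElem _ _ hq]
    rw [← h5, h4]
    congr 1
    refine List.map_congr_left fun t ht => ?_
    obtain ⟨k1, k2⟩ := hB' t ht
    simp only [Function.comp_apply]
    have l1 := h.lt _ g1
    have l2 := h.lt _ g2
    have h6 : Phi x t.1 (x PR[q].1.1) (x PR[q].1.2) (x PR[q].2.1) (x PR[q].2.2) =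
        if par (t.1.map fun c => cohM n c PR[q].1.1 PR[q].1.2 PR[q].2.1 PR[q].2.2) = true then 1 else 0 := by
      rw [Phi, ← par_map]
      congr 1
      exact List.map_congr_left fun u hu => cohM_eq h (k1 u hu) (by omega) (by omega) (by omega) (by omega) g3.1 g3.2.1
    rw [h6]
    split_ifs
    · rw [mul_one]
    · rw [valm_zero, mul_zero]
  -- the values everywhere
  have hD : ∀ e ∈ E, ∀ f ∈ E, djB e f = true → zp x z (e, f) =
      (B.map fun t => lam t.2 * Phi x t.1 (x e.1) (x e.2) (x f.1) (x f.2)).sum := by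
    intro e he f hf hd
    have h1 := hPs.2
    rw [List.all_eq_true] at h1
    have h2 := h1 e he
    rw [List.all_eq_true] at h2
    have h3 := h2 f hf
    rw [hd, Bool.or_eq_true, Bool.or_eq_true, List.contains_iff_mem, List.contains_iff_mem] at h3
    simp only [Bool.not_true, Bool.false_eq_true, false_or] at h3
    rcases h3 with h3 | h3
    · exact hC _ h3
    · have h4 := hC _ h3
      have h5 : zp x z (e, f) = zp x z (f, e) := hz.1 _ _
      rw [h5, h4]
      congr 1
      refine List.map_congr_left fun t ht => ?_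
      rw [Phi_comm h (hB' t ht).1]
  have hE : ∀ a b c d : α, z s(a, b) s(c, d) = (B.map fun t => lam t.2 * Phi x t.1 a b c d).sum := by
    intro a b c d
    by_cases h1 : s(a, b) ∈ G.edgeSet ∧ s(c, d) ∈ G.edgeSet
    swap
    · rw [List.map_congr_left fun t ht => show lam t.2 * Phi x t.1 a b c d = 0 by
        rw [Phi_edge h (hB' t ht).1 h1, mul_zero]]
      simp only [List.map_const', List.sum_replicate, smul_zero]
      by_contra h0
      obtain ⟨h2, h3, _⟩ := hz.2.1 _ _ h0
      exact h1 ⟨h2, h3⟩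
    by_cases h2 : ∃ v, v ∈ s(a, b) ∧ v ∈ s(c, d)
    · rw [List.map_congr_left fun t ht => show lam t.2 * Phi x t.1 a b c d = 0 by
        rw [Phi_share h (hB' t ht).1 (hB' t ht).2 h2, mul_zero]]
      simp only [List.map_const', List.sum_replicate, smul_zero]
      by_contra h0
      obtain ⟨_, _, h3⟩ := hz.2.1 _ _ h0
      obtain ⟨v, hv⟩ := h2
      exact h3 v hv
    obtain ⟨e, he, e1⟩ := (h.adj a b).1 h1.1
    obtain ⟨f, hf, f1⟩ := (h.adj c d).1 h1.2
    have hd : djB e f = true := by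
      rw [djB_iff]
      rw [e1, f1] at h2
      refine ⟨fun hh => h2 ⟨x e.1, by simp, by simp [hh]⟩, fun hh => h2 ⟨x e.1, by simp, by simp [hh]⟩,
        fun hh => h2 ⟨x e.2, by simp, by simp [hh]⟩, fun hh => h2 ⟨x e.2, by simp, by simp [hh]⟩⟩
    have hne : s(x e.1, x e.2) ≠ s(x f.1, x f.2) := by
      intro hh
      exact h2 ⟨a, by simp, by rw [f1, ← hh, ← e1]; simp⟩
    have h3 := hD e he f hf hd
    rw [zp] at h3
    simp only at h3
    rw [e1, f1, h3]
    congr 1
    refine List.map_congr_left fun t ht => ?_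
    obtain ⟨k1, k2⟩ := hB' t ht
    congr 1
    rw [Sym2.eq_iff] at e1 f1
    have hne' : s(x e.2, x e.1) ≠ s(x f.1, x f.2) := by rw [Sym2.eq_swap]; exact hne
    rcases e1 with ⟨rfl, rfl⟩ | ⟨rfl, rfl⟩ <;> rcases f1 with ⟨rfl, rfl⟩ | ⟨rfl, rfl⟩
    · rfl
    · exact (Phi_swap h k1 k2 hne).symm
    · rw [← Phi_rev h k1, Phi_swap h k1 k2 hne']
    · exact (Phi_rev h k1 _ _ _ _).symm
  -- the conclusion
  obtain ⟨p, hp, hp0, hpF⟩ := hl
  have hF : Sm l (fun a b c d => z s(a, b) s(c, d)) = 0 := by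
    have e1 : (fun a b c d => z s(a, b) s(c, d)) =
        fun a b c d => (B.map fun t => (fun t a b c d => lam t.2 * Phi x t.1 a b c d) t a b c d).sum := by
      funext a b c d
      exact hE a b c d
    rw [e1, Sm_list]
    refine List.sum_eq_zero fun v hv => ?_
    obtain ⟨t, ht, rfl⟩ := List.mem_map.1 hv
    rw [Sm_smul]
    obtain ⟨k1, k2⟩ := hB' t ht
    have e2 : Phi x t.1 = fun a b c d => (t.1.map fun u => (fun u a b c d => coh a b c d (CE x u.1)) u a b c d).sum := rfl
    rw [e2, Sm_list]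
    have e3 : ∀ u ∈ t.1, Sm l ((fun (u : CD) a b c d => coh a b c d (CE x u.1)) u) = p (chi (CE x u.1)) := by
      intro u hu
      exact hpF _ (isCyc h (okm_spec h (k1 u hu)).1)
    rw [List.map_congr_left e3]
    have e4 := cubic_sum (G := G) (S := t.1.map fun u => CE x u.1) (fun C hC => by
      obtain ⟨u, hu, rfl⟩ := List.mem_map.1 hC
      exact (isCyc h (okm_spec h (k1 u hu)).1).subset) (fun e₁ e₂ e₃ h1 h2 h3 => by
      rw [List.map_map]
      exact mon3_spec h k1 k2 h1 h2 h3) hp hp0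
    rw [List.map_map] at e4
    have e5 : (t.1.map fun u => p (chi (CE x u.1))).sum = 0 := e4
    rw [e5, mul_zero]
  exact hF

/-- a labelled graph from a list of vertices -/
theorem lab_of_list {l : List α} (hl : l.Nodup) {E : List (ℕ × ℕ)} (n : ℕ) (hn : n = l.length)
    (hE : (E.all fun e => decide (e.1 < e.2) && decide (e.2 < n)) = true) (x0 : α)
    (hG : ∀ a b, G.Adj a b ↔ s(a, b) ∈ E.map fun e => s(l.getD e.1 x0, l.getD e.2 x0)) :
    Lab G n (fun i => l.getD i x0) E where
  inj i hi j hj h := by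
    rw [hn] at hi hj
    rw [List.getD_eq_getElem _ _ hi, List.getD_eq_getElem _ _ hj] at h
    exact (List.Nodup.getElem_inj_iff hl).1 h
  lt e he := by
    rw [List.all_eq_true] at hE
    have := hE e he
    rw [Bool.and_eq_true, decide_eq_true_iff, decide_eq_true_iff] at this
    exact this
  adj a b := by
    rw [hG, List.mem_map]
    exact ⟨fun ⟨e, he, h⟩ => ⟨e, he, h.symm⟩, fun ⟨e, he, h⟩ => ⟨e, he, h.symm⟩⟩

end

end KZC

end DL
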