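import Pool.Agent.DL.NP.VKA

/-!
# MP_3ff0f8_gt, ALGEBRA HALF: planarity certificates (helper19)

`NP G` = the van Kampen class of `G` is not zero on `Z_2(G)`.  `PLCM.not_np_of_cert`: an order `r` of the vertices and a
cochain `m` (vertex, edge) such that `m a (cd) + m b (cd) + m c (ab) + m d (ab) = [ab and cd interleave]` for all
disjoint edges `ab`, `cd` of `G` give `¬ NP G`.  `not_np_list`: the same with a checkable certificate (lists of natural numbers).
`plan12`, `plan10`: the two explicit planar graphs of EXIST.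
-/

open SimpleGraph Finset

set_option linter.unusedSectionVars false

namespace DL

namespace PLCM

variable {α : Type} [Fintype α] [DecidableEq α]

open VKAM

/-- certificate for `¬ NP G` -/
theorem not_np_of_cert {G : SimpleGraph α} (r : α → ℕ) (hr : Function.Injective r) (m : α → Sym2 α → ZMod 2)
    (h : ∀ a b c d, G.Adj a b → G.Adj c d → a ≠ c → a ≠ d → b ≠ c → b ≠ d → r a < r b → r c < r d → r a < r c →
      (if r c < r b ∧ r b < r d then (1 : ZMod 2) else 0) = m a s(c, d) + m b s(c, d) + m c s(a, b) + m d s(a, b)) :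
    ¬ NP G := by
  rintro ⟨r', hr', z, hz, hne⟩
  refine hne ?_
  rw [specVKA.inv hr' hr hz]
  -- the certificate in symmetric form
  have hsym : ∀ a b c d, G.Adj a b → G.Adj c d → a ≠ c → a ≠ d → b ≠ c → b ≠ d →
      lt' (r a) (r c) + lt' (r a) (r d) + (lt' (r b) (r c) + lt' (r b) (r d)) =
        m a s(c, d) + m b s(c, d) + (m c s(a, b) + m d s(a, b)) := by
    -- ordered case
    have h0 : ∀ a b c d, G.Adj a b → G.Adj c d → a ≠ c → a ≠ d → b ≠ c → b ≠ d → r a < r b → r c < r d →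
        r a < r c → lt' (r a) (r c) + lt' (r a) (r d) + (lt' (r b) (r c) + lt' (r b) (r d)) =
        m a s(c, d) + m b s(c, d) + (m c s(a, b) + m d s(a, b)) := by
      intro a b c d hab hcd h1 h2 h3 h4 h5 h6 h7
      rw [← add_assoc (m a s(c, d) + m b s(c, d)), ← h a b c d hab hcd h1 h2 h3 h4 h5 h6 h7]
      have h8 : r b ≠ r c := fun e => h3 (hr e)
      have h9 : r b ≠ r d := fun e => h4 (hr e)
      have h10 : r a < r d := h7.trans h6
      unfold lt'
      rw [if_pos h7, if_pos h10]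
      rcases lt_or_gt_of_ne h8 with h11 | h11
      · rw [if_pos h11, if_pos (h11.trans h6), if_neg (fun hh => absurd hh.1 (not_lt_of_gt h11))]
        decide
      · rw [if_neg (not_lt_of_gt h11)]
        by_cases h12 : r b < r d
        · rw [if_pos h12, if_pos ⟨h11, h12⟩]; decide
        · rw [if_neg h12, if_neg (fun hh => h12 hh.2)]; decide
    have hA : ∀ a b c d, G.Adj a b → G.Adj c d → a ≠ c → a ≠ d → b ≠ c → b ≠ d → r a < r b → r c < r d →
        lt' (r a) (r c) + lt' (r a) (r d) + (lt' (r b) (r c) + lt' (r b) (r d)) =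
        m a s(c, d) + m b s(c, d) + (m c s(a, b) + m d s(a, b)) := by
      intro a b c d hab hcd h1 h2 h3 h4 h5 h6
      rcases lt_or_gt_of_ne (fun e => h1 (hr e) : r a ≠ r c) with h7 | h7
      · exact h0 a b c d hab hcd h1 h2 h3 h4 h5 h6 h7
      · have e := h0 c d a b hcd hab h1.symm h3.symm h2.symm h4.symm h6 h5 h7
        have e1 := lt'_add (fun e => h1 (hr e) : r a ≠ r c)
        have e2 := lt'_add (fun e => h2 (hr e) : r a ≠ r d)
        have e3 := lt'_add (fun e => h3 (hr e) : r b ≠ r c)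
        have e4 := lt'_add (fun e => h4 (hr e) : r b ≠ r d)
        have e5 : lt' (r a) (r c) + lt' (r a) (r d) + (lt' (r b) (r c) + lt' (r b) (r d)) =
            (lt' (r c) (r a) + lt' (r c) (r b) + (lt' (r d) (r a) + lt' (r d) (r b))) := by
          generalize lt' (r a) (r c) = x1 at *
          generalize lt' (r c) (r a) = y1 at *
          generalize lt' (r a) (r d) = x2 at *
          generalize lt' (r d) (r a) = y2 at *
          generalize lt' (r b) (r c) = x3 at *
          generalize lt' (r c) (r b) = y3 at *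
          generalize lt' (r b) (r d) = x4 at *
          generalize lt' (r d) (r b) = y4 at *
          clear e
          revert x1 y1 x2 y2 x3 y3 x4 y4
          decide
        rw [e5, e]
        ring
    intro a b c d hab hcd h1 h2 h3 h4
    rcases lt_or_gt_of_ne (fun e => hab.ne (hr e) : r a ≠ r b) with h5 | h5 <;>
      rcases lt_or_gt_of_ne (fun e => hcd.ne (hr e) : r c ≠ r d) with h6 | h6
    · exact hA a b c d hab hcd h1 h2 h3 h4 h5 h6
    · have := hA a b d c hab hcd.symm h2 h1 h4 h3 h5 h6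
      rw [Sym2.eq_swap (a := d)] at this
      rw [add_comm (lt' (r a) (r c)), add_comm (lt' (r b) (r c)), this]
      ring
    · have := hA b a c d hab.symm hcd h3 h4 h1 h2 h5 h6
      rw [Sym2.eq_swap (a := b)] at this
      rw [add_comm (lt' (r a) (r c) + lt' (r a) (r d)), this]
      ring
    · have := hA b a d c hab.symm hcd.symm h4 h3 h2 h1 h5 h6
      rw [Sym2.eq_swap (a := d), Sym2.eq_swap (a := b)] at this
      rw [add_comm (lt' (r a) (r c)), add_comm (lt' (r b) (r c)), add_comm (lt' (r a) (r d) + _), this]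
      ring
  -- the second sum is zero
  have hsec : ∑ a, ∑ b, ∑ c, ∑ d, (if r c < r d then m a s(c, d) * z s(a, b) s(c, d) else 0) = 0 := by
    refine sum_eq_zero fun a _ => ?_
    rw [sum_comm]
    refine sum_eq_zero fun c _ => ?_
    rw [sum_comm]
    refine sum_eq_zero fun d _ => ?_
    split_ifs with hcd
    swap
    · exact sum_const_zero
    rw [← mul_sum]
    by_cases hv : a ∈ s(c, d)
    · rw [sum_eq_zero fun b _ => ?_, mul_zero]
      by_contra h0
      exact (hz.2.1 _ _ h0).2.2 a ⟨Sym2.mem_mk_left _ _, hv⟩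
    · have := hz.2.2 s(c, d) a hv
      rw [sum_star] at this
      rw [sum_congr rfl fun b _ => hz.1 s(a, b) s(c, d), this, mul_zero]
  have hK := sum_four hr (fun a b c d => ind (r a) (r b) (r c) (r d) * z s(a, b) s(c, d) +
    (if r c < r d then m a s(c, d) * z s(a, b) s(c, d) else 0)) (fun a b c d hnd => ?_) (fun a b c d => ?_)
  · have e : vk r z = ∑ a, ∑ b, ∑ c, ∑ d, ((ind (r a) (r b) (r c) (r d) * z s(a, b) s(c, d) +
        (if r c < r d then m a s(c, d) * z s(a, b) s(c, d) else 0)) +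
        (if r c < r d then m a s(c, d) * z s(a, b) s(c, d) else 0)) := by
      rw [vk]
      refine sum_congr rfl fun a _ => sum_congr rfl fun b _ => sum_congr rfl fun c _ =>
        sum_congr rfl fun d _ => ?_
      rw [add_assoc, zmod2_add_self, add_zero, ind, ite_mul, one_mul, zero_mul]
    rw [e]
    simp only [sum_add_distrib] at hK hsec ⊢
    rw [hK, hsec, add_zero]
  · have h0 : z s(a, b) s(c, d) = 0 := by
      by_contra h0
      obtain ⟨h1, h2, h3⟩ := hz.2.1 _ _ h0
      refine hnd ?_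
      have h4 : a ≠ b := (G.mem_edgeSet.1 h1).ne
      have h5 : c ≠ d := (G.mem_edgeSet.1 h2).ne
      have h6 : a ≠ c := fun e => h3 a ⟨by simp, by simp [e]⟩
      have h7 : a ≠ d := fun e => h3 a ⟨by simp, by simp [e]⟩
      have h8 : b ≠ c := fun e => h3 b ⟨by simp, by simp [e]⟩
      have h9 : b ≠ d := fun e => h3 b ⟨by simp, by simp [e]⟩
      simp [h4, h5, h6, h7, h8, h9]
    rw [h0]
    simp
  · have z1 : z s(b, a) s(c, d) = z s(a, b) s(c, d) := by rw [Sym2.eq_swap (a := b)]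
    have z2 : z s(a, b) s(d, c) = z s(a, b) s(c, d) := by rw [Sym2.eq_swap (a := d)]
    have z3 : z s(b, a) s(d, c) = z s(a, b) s(c, d) := by rw [Sym2.eq_swap (a := d), z1]
    have z4 : z s(c, d) s(a, b) = z s(a, b) s(c, d) := hz.1 _ _
    have z5 : z s(d, c) s(a, b) = z s(a, b) s(c, d) := by rw [Sym2.eq_swap (a := d), z4]
    have z6 : z s(c, d) s(b, a) = z s(a, b) s(c, d) := by rw [Sym2.eq_swap (a := b), z4]
    have z7 : z s(d, c) s(b, a) = z s(a, b) s(c, d) := by rw [Sym2.eq_swap (a := b), z5]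
    rw [z1, z2, z3, z4, z5, z6, z7]
    by_cases h0 : z s(a, b) s(c, d) = 0
    · rw [h0]; simp
    obtain ⟨h1, h2, h3⟩ := hz.2.1 _ _ h0
    have h4 : G.Adj a b := h1
    have h5 : G.Adj c d := h2
    have h6 : a ≠ c := fun e => h3 a ⟨by simp, by simp [e]⟩
    have h7 : a ≠ d := fun e => h3 a ⟨by simp, by simp [e]⟩
    have h8 : b ≠ c := fun e => h3 b ⟨by simp, by simp [e]⟩
    have h9 : b ≠ d := fun e => h3 b ⟨by simp, by simp [e]⟩
    have e0 : z s(a, b) s(c, d) = 1 := zmod2_ne_zero.1 h0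
    have hab : r a ≠ r b := fun e => h4.ne (hr e)
    have hcd : r c ≠ r d := fun e => h5.ne (hr e)
    have hi := inter (r a) (r b) (r c) (r d) hab (fun e => h6 (hr e)) (fun e => h7 (hr e))
      (fun e => h8 (hr e)) (fun e => h9 (hr e)) hcd
    have hc := hsym a b c d h4 h5 h6 h7 h8 h9
    rw [hc] at hi
    rw [e0]
    simp only [mul_one]
    rw [Sym2.eq_swap (a := d) (b := c), Sym2.eq_swap (a := b) (b := a)]
    have f1 : ∀ x : ZMod 2, (if r c < r d then x else 0) + (if r d < r c then x else 0) = x := by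
      intro x
      rcases lt_or_gt_of_ne hcd with h | h
      · rw [if_pos h, if_neg (not_lt_of_gt h), add_zero]
      · rw [if_neg (not_lt_of_gt h), if_pos h, zero_add]
    have f2 : ∀ x : ZMod 2, (if r a < r b then x else 0) + (if r b < r a then x else 0) = x := by
      intro x
      rcases lt_or_gt_of_ne hab with h | h
      · rw [if_pos h, if_neg (not_lt_of_gt h), add_zero]
      · rw [if_neg (not_lt_of_gt h), if_pos h, zero_add]
    have key : ∀ (i1 i2 i3 i4 i5 i6 i7 i8 p1 p2 p3 p4 p5 p6 p7 p8 x1 x2 x3 x4 : ZMod 2),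
        i1 + i2 + (i3 + i4) + (i5 + i6 + (i7 + i8)) = x1 + x2 + (x3 + x4) → p1 + p3 = x1 → p2 + p4 = x2 →
        p5 + p7 = x3 → p6 + p8 = x4 →
        (i1 + p1) + (i2 + p2) + ((i3 + p3) + (i4 + p4)) + ((i5 + p5) + (i6 + p6) + ((i7 + p7) + (i8 + p8))) = 0 := by
      intro i1 i2 i3 i4 i5 i6 i7 i8 p1 p2 p3 p4 p5 p6 p7 p8 x1 x2 x3 x4 k0 k1 k2 k3 k4
      have : (i1 + p1) + (i2 + p2) + ((i3 + p3) + (i4 + p4)) + ((i5 + p5) + (i6 + p6) + ((i7 + p7) + (i8 + p8))) =
        (i1 + i2 + (i3 + i4) + (i5 + i6 + (i7 + i8))) + ((p1 + p3) + (p2 + p4) + ((p5 + p7) + (p6 + p8))) := by ring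
      rw [this, k0, k1, k2, k3, k4, zmod2_add_self]
    exact key _ _ _ _ _ _ _ _ _ _ _ _ _ _ _ _ _ _ _ _ hi (f1 _) (f1 _) (f2 _) (f2 _)

/-- check of a certificate: `E` = edges, `L` = pairs (vertex, edge) with `m = 1`, order of the natural numbers -/
def chk (E : List (ℕ × ℕ)) (L : List (ℕ × ℕ × ℕ)) : Bool :=
  (L.all fun t => decide (t.2.1 < t.2.2)) && E.all fun e => decide (e.1 < e.2) && E.all fun f =>
    !(decide (e.1 < f.1)) || decide (e.2 = f.1) || decide (e.2 = f.2) ||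
    ((decide (f.1 < e.2) && decide (e.2 < f.2)) ==
      ((L.contains (e.1, f) ^^ L.contains (e.2, f)) ^^ (L.contains (f.1, e) ^^ L.contains (f.2, e))))

theorem idx_inj {l : List α} (hl : l.Nodup) {i j : ℕ} {a : α} (h1 : l[i]? = some a) (h2 : l[j]? = some a) : i = j :=
  (List.getElem?_inj (List.getElem?_eq_some_iff.1 h1).1 hl).1 (h1.trans h2.symm)

open Classical in
/-- the cochain of the list `L` -/
noncomputable def coc (l : List α) (L : List (ℕ × ℕ × ℕ)) (v : α) (e : Sym2 α) : ZMod 2 :=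
  if ∃ t ∈ L, l[t.1]? = some v ∧ ∃ x y, l[t.2.1]? = some x ∧ l[t.2.2]? = some y ∧ e = s(x, y) then 1 else 0

theorem coc_eq {l : List α} (hl : l.Nodup) {L : List (ℕ × ℕ × ℕ)} (hL : ∀ t ∈ L, t.2.1 < t.2.2) {i j k : ℕ}
    (hjk : j < k) {a x y : α} (ha : l[i]? = some a) (hx : l[j]? = some x) (hy : l[k]? = some y) :
    coc l L a s(x, y) = if L.contains (i, (j, k)) then 1 else 0 := by
  rw [coc]
  congr 1
  rw [List.contains_iff_mem, eq_iff_iff]
  constructor
  · rintro ⟨t, ht, h1, x', y', h2, h3, h4⟩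
    rw [Sym2.eq_iff] at h4
    rcases h4 with ⟨rfl, rfl⟩ | ⟨rfl, rfl⟩
    · have e1 := idx_inj hl h1 ha
      have e2 := idx_inj hl h2 hx
      have e3 := idx_inj hl h3 hy
      rw [← e1, ← e2, ← e3]
      exact ht
    · have e2 := idx_inj hl h2 hy
      have e3 := idx_inj hl h3 hx
      have := hL t ht
      omega
  · intro h
    exact ⟨_, h, ha, x, y, hx, hy, rfl⟩

/-- an order of the vertices beginning with the list `l` -/
theorem exists_ord {l : List α} (hl : l.Nodup) :
    ∃ r : α → ℕ, Function.Injective r ∧ ∀ i a, l[i]? = some a → r a = i := by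
  refine ⟨fun a => if a ∈ l then l.idxOf a else l.length + Fintype.equivFin α a, ?_, ?_⟩
  · intro a b hab
    simp only at hab
    have key : ∀ a b : α, a ∈ l → b ∉ l → l.idxOf a ≠ l.length + Fintype.equivFin α b := by
      intro a b ha hb h
      have := List.idxOf_lt_length_of_mem ha
      omega
    by_cases ha : a ∈ l <;> by_cases hb : b ∈ l
    · rw [if_pos ha, if_pos hb] at hab
      exact (List.idxOf_inj ha).1 hab
    · rw [if_pos ha, if_neg hb] at hab
      exact absurd hab (key a b ha hb)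
    · rw [if_neg ha, if_pos hb] at hab
      exact absurd hab.symm (key b a hb ha)
    · rw [if_neg ha, if_neg hb] at hab
      exact (Fintype.equivFin α).injective (Fin.ext (by omega))
  · intro i a hi
    have ha : a ∈ l := List.mem_of_getElem? hi
    simp only [if_pos ha]
    refine idx_inj hl (a := a) ?_ hi
    rw [List.getElem?_eq_getElem (List.idxOf_lt_length_of_mem ha), List.getElem_idxOf]

/-- **planarity by a checkable certificate** -/
theorem not_np_list {G : SimpleGraph α} {l : List α} (hl : l.Nodup) {E : List (ℕ × ℕ)} {L : List (ℕ × ℕ × ℕ)}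
    (hc : chk E L = true)
    (hG : ∀ a b, G.Adj a b → ∃ e ∈ E, ∃ x y, l[e.1]? = some x ∧ l[e.2]? = some y ∧ s(a, b) = s(x, y)) : ¬ NP G := by
  obtain ⟨r, hr, hr'⟩ := exists_ord hl
  rw [chk, Bool.and_eq_true, List.all_eq_true, List.all_eq_true] at hc
  obtain ⟨hL, hc⟩ := hc
  have hL' : ∀ t ∈ L, t.2.1 < t.2.2 := fun t ht => of_decide_eq_true (hL t ht)
  have key : ∀ a b, G.Adj a b → r a < r b → ∃ e ∈ E, l[e.1]? = some a ∧ l[e.2]? = some b ∧ e.1 < e.2 := by
    intro a b hab hlt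
    obtain ⟨e, he, x, y, h1, h2, h3⟩ := hG a b hab
    have h4 := hc e he
    rw [Bool.and_eq_true] at h4
    have h5 : e.1 < e.2 := of_decide_eq_true h4.1
    rw [Sym2.eq_iff] at h3
    rcases h3 with ⟨rfl, rfl⟩ | ⟨rfl, rfl⟩
    · exact ⟨e, he, h1, h2, h5⟩
    · rw [hr' _ _ h1, hr' _ _ h2] at hlt
      omega
  refine not_np_of_cert r hr (coc l L) ?_
  intro a b c d hab hcd h1 h2 h3 h4 h5 h6 h7
  obtain ⟨e, he, ea, eb, elt⟩ := key a b hab h5
  obtain ⟨f, hf, fc, fd, flt⟩ := key c d hcd h6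
  have h8 := hc e he
  rw [Bool.and_eq_true, List.all_eq_true] at h8
  have h9 := h8.2 f hf
  have ra := hr' _ _ ea
  have rb := hr' _ _ eb
  have rc := hr' _ _ fc
  have rd := hr' _ _ fd
  have n1 : e.2 ≠ f.1 := fun h => h3 (hr (by rw [rb, rc, h]))
  have n2 : e.2 ≠ f.2 := fun h => h4 (hr (by rw [rb, rd, h]))
  have n3 : e.1 < f.1 := by rw [ra, rc] at h7; exact h7
  have e' : (e.1, e.2) = e := rfl
  rw [coc_eq hl hL' flt ea fc fd, coc_eq hl hL' flt eb fc fd, coc_eq hl hL' elt fc ea eb,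
    coc_eq hl hL' elt fd ea eb, rb, rc, rd]
  simp only [n1, n2, n3, decide_true, decide_false, Bool.not_true, Bool.or_false, Bool.false_or,
    beq_iff_eq, Prod.mk.eta] at h9 ⊢
  have h10 : (if f.1 < e.2 ∧ e.2 < f.2 then (1 : ZMod 2) else 0) =
      if (decide (f.1 < e.2) && decide (e.2 < f.2)) = true then 1 else 0 := by
    congr 1
    rw [Bool.and_eq_true, decide_eq_true_iff, decide_eq_true_iff]
  rw [h10, h9]
  cases L.contains (e.1, f) <;> cases L.contains (e.2, f) <;> cases L.contains (f.1, e) <;>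
    cases L.contains (f.2, e) <;> decide

/-- the same, the edges given as a list; `n` = number of vertices -/
theorem not_np_list' {G : SimpleGraph α} {l : List α} (hl : l.Nodup) {E : List (ℕ × ℕ)} {L : List (ℕ × ℕ × ℕ)}
    (hc : chk E L = true) (n : ℕ) (hn : n = l.length) (hE : (E.all fun e => decide (e.2 < n)) = true) (x0 : α)
    (hG : ∀ a b, G.Adj a b → s(a, b) ∈ E.map fun e => s(l.getD e.1 x0, l.getD e.2 x0)) : ¬ NP G := by
  refine not_np_list hl hc fun a b hab => ?_
  obtain ⟨e, he, h⟩ := List.mem_map.1 (hG a b hab)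
  rw [chk, Bool.and_eq_true, List.all_eq_true, List.all_eq_true] at hc
  have h1 := hc.2 e he
  rw [Bool.and_eq_true] at h1
  have h2 : e.1 < e.2 := of_decide_eq_true h1.1
  rw [List.all_eq_true] at hE
  have h3 : e.2 < l.length := hn ▸ of_decide_eq_true (hE e he)
  refine ⟨e, he, l.getD e.1 x0, l.getD e.2 x0, ?_, ?_, h.symm⟩
  · rw [List.getD_eq_getElem?_getD, List.getElem?_eq_getElem (h2.trans h3)]; rfl
  · rw [List.getD_eq_getElem?_getD, List.getElem?_eq_getElem h3]; rfl

/-! ## The two explicit planar graphs -/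

def E12 : List (ℕ × ℕ) := [(0, 1), (0, 3), (0, 4), (0, 5), (1, 2), (1, 4), (1, 6), (2, 3), (2, 6), (2, 7), (3, 5),
  (3, 7), (4, 8), (4, 10), (5, 9), (5, 10), (6, 8), (6, 11), (7, 9), (7, 11), (8, 10), (8, 11), (9, 10), (9, 11)]

def L12 : List (ℕ × ℕ × ℕ) := [(0, (3, 5)), (1, (0, 3)), (1, (3, 5)), (2, (0, 3)), (2, (3, 5)), (4, (1, 6)),
  (4, (2, 6)), (4, (7, 9)), (4, (7, 11)), (5, (1, 6)), (5, (2, 6)), (5, (2, 7)), (5, (3, 7)), (5, (4, 8)), (5, (4, 10)),
  (6, (2, 7)), (6, (3, 7)), (7, (0, 4)), (7, (1, 4)), (7, (4, 8)), (7, (4, 10)), (8, (7, 9)), (8, (9, 11)),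
  (10, (5, 9)), (11, (4, 8)), (11, (4, 10)), (11, (5, 9)), (11, (5, 10)), (11, (6, 8))]

theorem chk12 : chk E12 L12 = true := by decide +kernel

def E10 : List (ℕ × ℕ) := [(0, 1), (0, 3), (0, 4), (0, 5), (1, 2), (1, 4), (1, 5), (2, 4), (2, 6), (2, 9), (3, 4),
  (3, 7), (3, 8), (4, 8), (4, 9), (5, 6), (5, 7), (6, 7), (6, 9), (7, 8), (8, 9)]

def L10 : List (ℕ × ℕ × ℕ) := [(0, (1, 4)), (0, (2, 4)), (0, (2, 9)), (1, (2, 4)), (1, (2, 9)), (3, (0, 5)),
  (3, (1, 5)), (3, (2, 6)), (4, (0, 5)), (4, (1, 5)), (4, (2, 6)), (4, (3, 7)), (4, (3, 8)), (5, (2, 6)),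
  (7, (6, 9)), (8, (6, 9))]

theorem chk10 : chk E10 L10 = true := by decide +kernel

/-- **the planar graph on 12 vertices**: 4-cycle `z x z' x'`; `s1 ~ x, z, q1, q3`; `s2 ~ x', z, q2, q3`;
`s3 ~ x, z', q1, q4`; `s4 ~ x', z', q2, q4`; `q1 ~ q3, q4`; `q2 ~ q3, q4` -/
theorem plan12 {G : SimpleGraph α} {z x z' x' s1 s2 s3 s4 q1 q2 q3 q4 : α}
    (hl : [z, x, z', x', s1, s2, s3, s4, q1, q2, q3, q4].Nodup)
    (hG : ∀ a b, G.Adj a b → s(a, b) ∈ [s(z, x), s(z, x'), s(z, s1), s(z, s2), s(x, z'), s(x, s1), s(x, s3),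
      s(z', x'), s(z', s3), s(z', s4), s(x', s2), s(x', s4), s(s1, q1), s(s1, q3), s(s2, q2), s(s2, q3), s(s3, q1),
      s(s3, q4), s(s4, q2), s(s4, q4), s(q1, q3), s(q1, q4), s(q2, q3), s(q2, q4)]) : ¬ NP G := by
  exact not_np_list' hl chk12 12 rfl (by decide) z hG

/-- **the planar graph on 10 vertices** -/
theorem plan10 {G : SimpleGraph α} {x y s1 s2 s3 s4 c c' d d' : α}
    (hl : [x, y, s1, s2, s3, s4, c, c', d, d'].Nodup)
    (hG : ∀ a b, G.Adj a b → s(a, b) ∈ [s(x, y), s(x, s2), s(x, s3), s(x, s4), s(y, s1), s(y, s3), s(y, s4),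
      s(s1, s3), s(s1, c), s(s1, d'), s(s2, s3), s(s2, c'), s(s2, d), s(s3, d), s(s3, d'), s(s4, c), s(s4, c'),
      s(c, c'), s(c, d'), s(c', d), s(d, d')]) : ¬ NP G := by
  exact not_np_list' hl chk10 10 rfl (by decide) x hG

end PLCM

end DL
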