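import Pool.Agent.DL.BASE.Dat
import Pool.Agent.DL.BASE.K11
import Pool.Agent.DL.BASE.Cls
import Pool.Agent.DL.BASE.U5
import Pool.Agent.DL.BASE.U1
import Pool.Agent.DL.BASE.U2
import Pool.Agent.DL.BASE.U3
import Pool.Agent.DL.BASE.U4
import Pool.Agent.DL.BASE.U6
import Pool.Agent.DL.BASE.U7
import Pool.Agent.DL.BASE.K2
import Pool.Agent.DL.BASE.K8
import Pool.Agent.DL.BASE.ClsD
import Pool.Agent.DL.E.TopR

section
/-!
MP_3ff0f8_gt, ALGEBRA HALF, BASE: certificates for `KZ(G)`, graphs 51 to 54.  (helper59)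
-/
set_option maxRecDepth 100000

namespace DL.BASE

theorem k51_check : c51.kcheck 16 32 5 11 0x3280000000000000000000000000000000000000000000000000000000000000000000000000000000000004400000000000000000000000000000000000000000000000000000000000000000000000000000000008b60000000000000000000000000000000000000000000000000000000000000000000000000000000000000000000380000fe16c000000000000000000000000000000000000000000000000000000000000000000000000000400065800116000000000000000000000000000000000000000000000000000000000000000000000000ffe047f800000000000000000000000000000000000000000000000000000000000000000000000000000000000003c000011100000708e100000000000000000000000000000000000000000000000000000000000000000000040000800000c0780001e000000000000000000000000000000000000000000000000000000000000000ffe000006501ee00007f08e0e000000000000000000000000000000000000000000000000000000000000000ffe007c06580ff00c00000000000000000000000000000000000000000000000000000000000000000000000000000d00001cc000001401cc000031a034c0000000000000000000000000000000000000000000000000000748000000001cc000123401cce00010007040000000000000000000000000000000000000000000000000000748000d000000000012200000e00021a044800000000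
    [[0xf4321, 0xf564321, 0xf5321, 0xf465321, 0xf4621, 0xf534621, 0xf5621, 0xf435621, 0xf562341, 0xf5341, 0xf532641, 0xf5641, 0xf4623, 0xf5623, 0xf5643],
     [0xf356214, 0xf06214, 0xf3214, 0xf0653214, 0xf326514, 0xf06514, 0xf3514, 0xf0623514, 0xf06234, 0xf0651234, 0xf06534, 0xf0621534, 0xf1562, 0xf3562, 0xf3512],
     [0xf651230, 0xf41230, 0xf6230, 0xf4156230, 0xf621530, 0xf41530, 0xf6530, 0xf4126530, 0xf41260, 0xf4153260, 0xf41560, 0xf4123560, 0xf3512, 0xf6512, 0xf6532],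
     [0xf5321, 0xf65321, 0xf6321, 0xf56321, 0xf63521, 0xf43521, 0xf6521, 0xf436521, 0xf53621, 0xf43621, 0xf5621, 0xf435621, 0xf62351, 0xf6351, 0xf63251, 0xf43251, 0xf6251, 0xf436251, 0xf43651, 0xf432651, 0xf43261, 0xf435261, 0xf43561, 0xf432561, 0xf6523, 0xf5623, 0xf6253],
     [0xf5432, 0xf65432, 0xf6432, 0xf56432, 0xf64532, 0xf14532, 0xf6532, 0xf146532, 0xf54632, 0xf14632, 0xf5632, 0xf145632, 0xf63452, 0xf6452, 0xf64352, 0xf14352, 0xf6352, 0xf146352, 0xf14652, 0xf143652, 0xf14362, 0xf145362, 0xf14562, 0xf143562, 0xf6534, 0xf5634, 0xf6354],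
     [0xf654032, 0xf14032, 0xf6032, 0xf1456032, 0xf604532, 0xf14532, 0xf6532, 0xf1406532, 0xf14062, 0xf1453062, 0xf14562, 0xf1403562, 0xf3540, 0xf6540, 0xf6530],
     [0xf56234, 0xf06234, 0xf5234, 0xf065234, 0xf52634, 0xf12634, 0xf5634, 0xf125634, 0xf062534, 0xf12534, 0xf126534, 0xf06534, 0xf06254, 0xf063254, 0xf12654, 0xf123654, 0xf062354, 0xf12354, 0xf126354, 0xf06354, 0xf063214, 0xf0653214, 0xf065214, 0xf0635214, 0xf5362, 0xf3562, 0xf5632],
     [0xf653041, 0xf23041, 0xf6041, 0xf2356041, 0xf603541, 0xf23541, 0xf6541, 0xf2306541, 0xf23061, 0xf2354061, 0xf23561, 0xf2304561, 0xf4530, 0xf6530, 0xf6540],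
     [0xf652140, 0xf32140, 0xf6140, 0xf3256140, 0xf612540, 0xf32540, 0xf6540, 0xf3216540, 0xf32160, 0xf3254160, 0xf32560, 0xf3214560, 0xf4521, 0xf6521, 0xf6541],
     [0xf654123, 0xf04123, 0xf6123, 0xf0456123, 0xf614523, 0xf04523, 0xf6523, 0xf0416523, 0xf04163, 0xf0452163, 0xf04563, 0xf0412563, 0xf2541, 0xf6541, 0xf6521],
     [0xf4321, 0xf654321, 0xf6321, 0xf456321, 0xf4521, 0xf634521, 0xf6521, 0xf436521, 0xf652341, 0xf6341, 0xf632541, 0xf6541, 0xf4523, 0xf6523, 0xf6543]]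
    [110, 37, 5, 137, 238, 9, 107, 39, 4, 3, 106] [4400, 4656, 4897, 4161, 4177, 4193, 4146, 4194, 4450, 4163, 4691, 4195, 4707, 4196, 4452, 4708, 4964, 5168, 5424, 4416, 4672, 4928, 5440, 4448, 4704, 4960, 5216, 5153, 5409, 4689, 5201, 5713, 4946, 5202, 5714, 4962, 5218, 4419, 5443, 5203, 5715, 4451, 5219, 4436, 4692, 4453, 4709, 4673, 4705] = true := by decide +kernel

theorem k51 (hPOL : SpecPOL) (hKUR : SpecKUR) : KZ c51.E.G :=
  KZ_of_check hPOL hKUR k51_check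

theorem k52_check : c52.kcheck 16 32 5 11 0x1000000000000000000000000000000000000000000000000000000000000000000000000000000000000800000000000000000000000000000000000000000000000000000000000000000000000000000000000000000044000d00000000000000000000000000000000000000000000000000000000000000000000000000000004080000600000000000000000000000000000000000000000000000000000000000000000000000000000002400148000000000000000000000000000000000000000000000000000000000000000000000000000000000000050800980000a0941000000000000000000000000000000000000000000000000000000000000000000000008000160000600001800000000000000000000000000000000000000000000000000000000000000000000200000010480060a095900000000000000000000000000000000000000000000000000000000000000000000200850806d00000000000000000000000000000000000000000000000000000000000000000000000000000000000480008000022840000030048050000000000000000000000000000000000000000000000000000000000c000003000184000030a400018062000000000000000000000000000000000000000000000000000000000020000003008024021870142008000a30000000000000000000000000000000000000000000000000000000002c0004800001a0003000b0203984e8600000000000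
    [[0xf652140, 0xf32140, 0xf6140, 0xf3256140, 0xf612540, 0xf32540, 0xf6540, 0xf3216540, 0xf32160, 0xf3254160, 0xf32560, 0xf3214560, 0xf4521, 0xf6521, 0xf6541],
     [0xf51230, 0xf4651230, 0xf5230, 0xf465230, 0xf5214630, 0xf514630, 0xf415630, 0xf4125630, 0xf52140, 0xf5140, 0xf5123640, 0xf523640, 0xf56321, 0xf46521, 0xf5641, 0xf5632],
     [0xf41230, 0xf651230, 0xf415230, 0xf65230, 0xf621530, 0xf41530, 0xf412530, 0xf62530, 0xf412630, 0xf4152630, 0xf415630, 0xf4125630, 0xf632140, 0xf6352140, 0xf652140, 0xf62140, 0xf6325140, 0xf625140, 0xf635140, 0xf65140, 0xf56321, 0xf53621, 0xf5632, 0xf6352],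
     [0xf41230, 0xf6541230, 0xf451230, 0xf651230, 0xf415230, 0xf615230, 0xf45230, 0xf6145230, 0xf416230, 0xf4516230, 0xf4156230, 0xf456230, 0xf62140, 0xf625140, 0xf65140, 0xf6140, 0xf621540, 0xf61540, 0xf62540, 0xf6540, 0xf5621, 0xf45621, 0xf62541, 0xf6251],
     [0xf41230, 0xf51230, 0xf5230, 0xf415230, 0xf416230, 0xf516230, 0xf56230, 0xf4156230, 0xf41630, 0xf51630, 0xf412630, 0xf512630, 0xf52630, 0xf4152630, 0xf5630, 0xf415630, 0xf5632140, 0xf562140, 0xf526140, 0xf5236140, 0xf56321, 0xf5621, 0xf63251, 0xf6251],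
     [0xf561230, 0xf4561230, 0xf5230, 0xf45230, 0xf521630, 0xf4521630, 0xf5630, 0xf45630, 0xf5632140, 0xf52140, 0xf5236140, 0xf56140, 0xf456321, 0xf4521, 0xf632541, 0xf6541],
     [0xf45230, 0xf6145230, 0xf65230, 0xf4165230, 0xf4530, 0xf614530, 0xf6530, 0xf416530, 0xf6532140, 0xf652140, 0xf612540, 0xf6123540, 0xf45321, 0xf65321, 0xf4521, 0xf6521],
     [0xf61230, 0xf4561230, 0xf6230, 0xf456230, 0xf6214530, 0xf614530, 0xf416530, 0xf4126530, 0xf62140, 0xf6140, 0xf6123540, 0xf623540, 0xf65321, 0xf45621, 0xf6541, 0xf6532],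
     [0xf5641230, 0xf561230, 0xf4165230, 0xf465230, 0xf521630, 0xf41630, 0xf4630, 0xf5214630, 0xf5236140, 0xf56140, 0xf523640, 0xf5640, 0xf6321, 0xf46321, 0xf6521, 0xf46521],
     [0xf5641230, 0xf51230, 0xf5146230, 0xf56230, 0xf4621530, 0xf41530, 0xf4126530, 0xf46530, 0xf562140, 0xf5140, 0xf512640, 0xf5640, 0xf5321, 0xf465321, 0xf532641, 0xf6532],
     [0xf41230, 0xf561230, 0xf416230, 0xf56230, 0xf412530, 0xf4162530, 0xf416530, 0xf4126530, 0xf521630, 0xf41630, 0xf412630, 0xf52630, 0xf532140, 0xf52140, 0xf5362140, 0xf562140, 0xf5326140, 0xf526140, 0xf536140, 0xf56140, 0xf65321, 0xf63521, 0xf6532, 0xf6352]]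
    [15, 38, 9, 6, 170, 44, 40, 36, 168, 5, 4] [4400, 4656, 5424, 5680, 4416, 4928, 4673, 4177, 5201, 4193, 5217, 4434, 4946, 4450, 4962, 4179, 4691, 4195, 4707, 4180, 4436, 4196, 4452, 4197, 4965, 5221, 5440, 5696, 4944, 5200, 5712, 4960, 5216, 5472, 5441, 5697, 4689, 4945, 4705, 4961, 5426, 5682, 5202, 5218, 5203, 5219, 4453, 4432, 4448] = true := by decide +kernel

theorem k52 (hPOL : SpecPOL) (hKUR : SpecKUR) : KZ c52.E.G :=
  KZ_of_check hPOL hKUR k52_check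

theorem k53_check : c53.kcheck 16 32 5 10 0x40000000000000000000000000000000000000000000000000000000000000000000000000000400000000000000000000000000000000000000000000000000000000000000000000000000007c000000000000000000000000000000000000000000000000000000000000000000000000000000000000c00c03cb000000000000000000000000000000000000000000000000000000000000000000000e002000027e0000000000000000000000000000000000000000000000000000000000000000007c0000381cd0000000000000000000000000000000000000000000000000000000000000000000000000008000d0340007e1f80000000000000000000000000000000000000000000000000000000000000a001810018132c0032c00000000000000000000000000000000000000000000000000000000007c04004000000032c7e2d400000000000000000000000000000000000000000000000000000000007c0e00d810d1b5000000000000000000000000000000000000000000000000000000000000000000000000000cc3e000270f8000500d0640000000000000000000000000000000000000000000000000000000380003e0f2000f8048000600a0000000000000000000000000000000000000000000000000000000380cc000f227000048500b06e00000000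
    [[0xf3421, 0xf563421, 0xf5421, 0xf365421, 0xf3621, 0xf543621, 0xf5621, 0xf345621, 0xf562431, 0xf5431, 0xf542631, 0xf5631, 0xf3624, 0xf5624, 0xf5634],
     [0xf5421, 0xf65421, 0xf6421, 0xf56421, 0xf64521, 0xf34521, 0xf6521, 0xf346521, 0xf54621, 0xf34621, 0xf5621, 0xf345621, 0xf62451, 0xf6451, 0xf64251, 0xf34251, 0xf6251, 0xf346251, 0xf34651, 0xf342651, 0xf34261, 0xf345261, 0xf34561, 0xf342561, 0xf6524, 0xf5624, 0xf6254],
     [0xf3421, 0xf653421, 0xf6421, 0xf356421, 0xf3521, 0xf643521, 0xf6521, 0xf346521, 0xf652431, 0xf6431, 0xf642531, 0xf6531, 0xf3524, 0xf6524, 0xf6534],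
     [0xf65124, 0xf05124, 0xf6124, 0xf056124, 0xf61524, 0xf31524, 0xf6524, 0xf316524, 0xf051624, 0xf31624, 0xf315624, 0xf05624, 0xf05164, 0xf052164, 0xf31564, 0xf312564, 0xf051264, 0xf31264, 0xf315264, 0xf05264, 0xf052134, 0xf0562134, 0xf056134, 0xf0526134, 0xf6251, 0xf2651, 0xf6521],
     [0xf356124, 0xf06124, 0xf3124, 0xf0653124, 0xf316524, 0xf06524, 0xf3524, 0xf0613524, 0xf06134, 0xf0652134, 0xf06534, 0xf0612534, 0xf2561, 0xf3561, 0xf3521],
     [0xf531240, 0xf61240, 0xf5240, 0xf6135240, 0xf521340, 0xf61340, 0xf5340, 0xf6125340, 0xf61250, 0xf6134250, 0xf61350, 0xf6124350, 0xf4312, 0xf5312, 0xf5342],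
     [0xf624051, 0xf34051, 0xf6051, 0xf3426051, 0xf604251, 0xf34251, 0xf6251, 0xf3406251, 0xf34061, 0xf3425061, 0xf34261, 0xf3405261, 0xf5240, 0xf6240, 0xf6250],
     [0xf631240, 0xf51240, 0xf6240, 0xf5136240, 0xf621340, 0xf51340, 0xf6340, 0xf5126340, 0xf51260, 0xf5134260, 0xf51360, 0xf5124360, 0xf4312, 0xf6312, 0xf6342],
     [0xf635042, 0xf15042, 0xf6042, 0xf1536042, 0xf605342, 0xf15342, 0xf6342, 0xf1506342, 0xf15062, 0xf1534062, 0xf15362, 0xf1504362, 0xf4350, 0xf6350, 0xf6340],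
     [0xf5240, 0xf635240, 0xf6240, 0xf536240, 0xf5340, 0xf625340, 0xf6340, 0xf526340, 0xf634250, 0xf6250, 0xf624350, 0xf6350, 0xf5342, 0xf6342, 0xf6352]]
    [141, 109, 142, 110, 111, 35, 6, 4, 3, 8] [4416, 4672, 4129, 5153, 5409, 5665, 5169, 4177, 4193, 4178, 4194, 4435, 4451, 4180, 4436, 4692, 4948, 4196, 4452, 4708, 4964, 4197, 4453, 4709, 4965, 5440, 5696, 4432, 4688, 5200, 5712, 4448, 4704, 5216, 5472, 5425, 5681, 4945, 5201, 5713, 4961, 5217, 5473, 5442, 5698, 5202, 5714, 5218, 5474] = true := by decide +kernel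

theorem k53 (hPOL : SpecPOL) (hKUR : SpecKUR) : KZ c53.E.G :=
  KZ_of_check hPOL hKUR k53_check

theorem k54_check : c54.kcheck 16 32 5 9 0x30800000000000000000000000000000000000000000000000000000000000000000005400000000000000000000000000000000000000000000000000000000000000000000ea000000000000000000000000000000000000000000000000000000000000000000000000003c800aaffc0000000000000000000000000000000000000000000000000000000000007e00195007fc0000000000000000000000000000000000000000000000000000000000ea0000195aa8000000000000000000000000000000000000000000000000000000000000ea7e3c80000000000000000000000000000000000000000000000000000000000000000000000c000000a8006a200a80000000000000000000000000000000000000000000000000002a00000000a95400400a80000000000000000000000000000000000000000000000000002a0c00000001546a600000000000000000000000000000000000000000000000000000000000000028040007008180002010000000000000000000000000000000000000000000000000011000043600008681400050000000000000000000000000000000000000000000000000011028003607000701402040000000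
    [[0xf5240, 0xf635240, 0xf6240, 0xf536240, 0xf5340, 0xf625340, 0xf6340, 0xf526340, 0xf634250, 0xf6250, 0xf624350, 0xf6350, 0xf5342, 0xf6342, 0xf6352],
     [0xf623150, 0xf43150, 0xf6150, 0xf4326150, 0xf613250, 0xf43250, 0xf6250, 0xf4316250, 0xf43160, 0xf4325160, 0xf43260, 0xf4315260, 0xf5231, 0xf6231, 0xf6251],
     [0xf3624, 0xf53624, 0xf5624, 0xf35624, 0xf56324, 0xf06324, 0xf5324, 0xf065324, 0xf36524, 0xf06524, 0xf3524, 0xf063524, 0xf52634, 0xf5634, 0xf56234, 0xf06234, 0xf5234, 0xf065234, 0xf06534, 0xf062534, 0xf06254, 0xf063254, 0xf06354, 0xf062354, 0xf5326, 0xf3526, 0xf5236],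
     [0xf625134, 0xf05134, 0xf6134, 0xf0526134, 0xf615234, 0xf05234, 0xf6234, 0xf0516234, 0xf05164, 0xf0523164, 0xf05264, 0xf0513264, 0xf3251, 0xf6251, 0xf6231],
     [0xf3524, 0xf63524, 0xf6524, 0xf36524, 0xf65324, 0xf05324, 0xf6324, 0xf056324, 0xf35624, 0xf05624, 0xf3624, 0xf053624, 0xf62534, 0xf6534, 0xf65234, 0xf05234, 0xf6234, 0xf056234, 0xf05634, 0xf052634, 0xf05264, 0xf053264, 0xf05364, 0xf052364, 0xf6325, 0xf3625, 0xf6235],
     [0xf5231, 0xf645231, 0xf6231, 0xf546231, 0xf5431, 0xf625431, 0xf6431, 0xf526431, 0xf643251, 0xf6251, 0xf623451, 0xf6451, 0xf5432, 0xf6432, 0xf6452],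
     [0xf4623, 0xf54623, 0xf5623, 0xf45623, 0xf56423, 0xf16423, 0xf5423, 0xf165423, 0xf46523, 0xf16523, 0xf4523, 0xf164523, 0xf52643, 0xf5643, 0xf56243, 0xf16243, 0xf5243, 0xf165243, 0xf16543, 0xf162543, 0xf16253, 0xf164253, 0xf16453, 0xf162453, 0xf5426, 0xf4526, 0xf5246],
     [0xf4523, 0xf64523, 0xf6523, 0xf46523, 0xf65423, 0xf15423, 0xf6423, 0xf156423, 0xf45623, 0xf15623, 0xf4623, 0xf154623, 0xf62543, 0xf6543, 0xf65243, 0xf15243, 0xf6243, 0xf156243, 0xf15643, 0xf152643, 0xf15263, 0xf154263, 0xf15463, 0xf152463, 0xf6425, 0xf4625, 0xf6245],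
     [0xf5432, 0xf65432, 0xf6432, 0xf56432, 0xf4532, 0xf64532, 0xf6532, 0xf46532, 0xf4632, 0xf54632, 0xf5632, 0xf45632, 0xf5342, 0xf65342, 0xf6342, 0xf56342, 0xf63542, 0xf6542, 0xf53642, 0xf5642, 0xf64352, 0xf6352, 0xf63452, 0xf6452, 0xf6543, 0xf5643, 0xf6453]]
    [39, 4, 8, 3, 6, 134, 104, 103, 205] [4416, 4672, 4657, 4177, 4193, 4402, 5170, 4162, 4178, 4434, 4194, 4450, 4435, 4451, 4180, 4692, 4196, 4708, 4197, 4453, 5440, 5696, 4432, 4688, 5200, 5712, 4448, 4704, 5216, 5472, 5425, 5681, 4689, 4945, 5201, 4705, 4961, 5217, 5426, 5202, 5714, 5218, 5474, 5443, 4691, 5203, 4707, 5219, 4709] = true := by decide +kernel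

theorem k54 (hPOL : SpecPOL) (hKUR : SpecKUR) : KZ c54.E.G :=
  KZ_of_check hPOL hKUR k54_check

end DL.BASE
end

section
/-!
MP_3ff0f8_gt, ALGEBRA HALF, BASE: the statement for the graphs of class `C1` with at most 7 vertices.  (helper59)
-/
set_option maxRecDepth 100000

namespace DL.BASE

theorem g4_0 (hVKA : SpecVKA) : Good 4 0x7030100 :=
  good_np (c := p00) (by decide +kernel) (np00 hVKA)

def L4 : List ℕ := [0x7030100]

theorem goods4 (hPOL : SpecPOL) (hDCB : SpecDCB) (hFEV : SpecFEV) (hKUR : SpecKUR) (hVKA : SpecVKA) : ∀ r ∈ L4, Good 4 r := by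
  unfold L4
  refine List.forall_mem_cons.2 ⟨g4_0 hVKA, ?_⟩
  exact fun _ h => absurd h List.not_mem_nil

theorem g5_0 (hPOL : SpecPOL) (hDCB : SpecDCB) (hFEV : SpecFEV) (hKUR : SpecKUR) : Good 5 0xf07030100 :=
  good_ok (c := c00) (by decide +kernel) (u00 hPOL hDCB hFEV) (k00 hPOL hKUR)

theorem g5_1 (hVKA : SpecVKA) : Good 5 0x707010100 :=
  good_np (c := p01) (by decide +kernel) (np01 hVKA)

theorem g5_2 (hVKA : SpecVKA) : Good 5 0x707030100 :=
  good_np (c := p02) (by decide +kernel) (np02 hVKA)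

def L5 : List ℕ := [0xf07030100, 0x707010100, 0x707030100]

theorem goods5 (hPOL : SpecPOL) (hDCB : SpecDCB) (hFEV : SpecFEV) (hKUR : SpecKUR) (hVKA : SpecVKA) : ∀ r ∈ L5, Good 5 r := by
  unfold L5
  refine List.forall_mem_cons.2 ⟨g5_0 hPOL hDCB hFEV hKUR, ?_⟩
  refine List.forall_mem_cons.2 ⟨g5_1 hVKA, ?_⟩
  refine List.forall_mem_cons.2 ⟨g5_2 hVKA, ?_⟩
  exact fun _ h => absurd h List.not_mem_nil

theorem g6_0 (hPOL : SpecPOL) (hDCB : SpecDCB) (hFEV : SpecFEV) (hKUR : SpecKUR) : Good 6 0x70707000000 :=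
  good_ok (c := c01) (by decide +kernel) (u01 hPOL hDCB hFEV) (k01 hPOL hKUR)

theorem g6_1 (hPOL : SpecPOL) (hDCB : SpecDCB) (hFEV : SpecFEV) (hKUR : SpecKUR) : Good 6 0x1e0e01010100 :=
  good_ok (c := c02) (by decide +kernel) (u02 hPOL hDCB hFEV) (k02 hPOL hKUR)

theorem g6_2 (hPOL : SpecPOL) (hDCB : SpecDCB) (hFEV : SpecFEV) (hKUR : SpecKUR) : Good 6 0x1d0d06020100 :=
  good_ok (c := c03) (by decide +kernel) (u03 hPOL hDCB hFEV) (k03 hPOL hKUR)

theorem g6_3 (hPOL : SpecPOL) (hDCB : SpecDCB) (hFEV : SpecFEV) (hKUR : SpecKUR) : Good 6 0x1f0707000000 :=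
  good_ok (c := c04) (by decide +kernel) (u04 hPOL hDCB hFEV) (k04 hPOL hKUR)

theorem g6_4 (hPOL : SpecPOL) (hDCB : SpecDCB) (hFEV : SpecFEV) (hKUR : SpecKUR) : Good 6 0x1f0f07000000 :=
  good_ok (c := c05) (by decide +kernel) (u05 hPOL hDCB hFEV) (k05 hPOL hKUR)

theorem g6_5 (hPOL : SpecPOL) (hDCB : SpecDCB) (hFEV : SpecFEV) (hKUR : SpecKUR) : Good 6 0x1f0e06010100 :=
  good_ok (c := c06) (by decide +kernel) (u06 hPOL hDCB hFEV) (k06 hPOL hKUR)

theorem g6_6 (hPOL : SpecPOL) (hDCB : SpecDCB) (hFEV : SpecFEV) (hKUR : SpecKUR) : Good 6 0x1f0f07020000 :=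
  good_ok (c := c07) (by decide +kernel) (u07 hPOL hDCB hFEV) (k07 hPOL hKUR)

theorem g6_7 (hPOL : SpecPOL) (hDCB : SpecDCB) (hFEV : SpecFEV) (hKUR : SpecKUR) : Good 6 0x1f0f03030000 :=
  good_ok (c := c08) (by decide +kernel) (u08 hPOL hDCB hFEV) (k08 hPOL hKUR)

theorem g6_8 (hPOL : SpecPOL) (hDCB : SpecDCB) (hFEV : SpecFEV) (hKUR : SpecKUR) : Good 6 0x1f0f07030000 :=
  good_ok (c := c09) (by decide +kernel) (u09 hPOL hDCB hFEV) (k09 hPOL hKUR)

theorem g6_9 (hPOL : SpecPOL) (hDCB : SpecDCB) (hFEV : SpecFEV) (hKUR : SpecKUR) : Good 6 0x1f0f07030100 :=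
  good_ok (c := c10) (by decide +kernel) (u10 hPOL hDCB hFEV) (k10 hPOL hKUR)

theorem g6_10 (hVKA : SpecVKA) : Good 6 0x70b05010100 :=
  good_np (c := p03) (by decide +kernel) (np03 hVKA)

theorem g6_11 (hVKA : SpecVKA) : Good 6 0x70b05020000 :=
  good_np (c := p04) (by decide +kernel) (np04 hVKA)

theorem g6_12 (hVKA : SpecVKA) : Good 6 0x70b05020100 :=
  good_np (c := p05) (by decide +kernel) (np05 hVKA)

theorem g6_13 (hVKA : SpecVKA) : Good 6 0x70b05030100 :=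
  good_np (c := p06) (by decide +kernel) (np06 hVKA)

theorem g6_14 (hVKA : SpecVKA) : Good 6 0x70b07030000 :=
  good_np (c := p07) (by decide +kernel) (np07 hVKA)

theorem g6_15 (hVKA : SpecVKA) : Good 6 0x70b07030100 :=
  good_np (c := p08) (by decide +kernel) (np08 hVKA)

theorem g6_16 (hVKA : SpecVKA) : Good 6 0xf0f03030000 :=
  good_np (c := p09) (by decide +kernel) (np09 hVKA)

def L6 : List ℕ := [0x70707000000, 0x1e0e01010100, 0x1d0d06020100, 0x1f0707000000, 0x1f0f07000000, 0x1f0e06010100, 0x1f0f07020000, 0x1f0f03030000, 0x1f0f07030000, 0x1f0f07030100, 0x70b05010100, 0x70b05020000, 0x70b05020100, 0x70b05030100, 0x70b07030000, 0x70b07030100, 0xf0f03030000]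

theorem goods6 (hPOL : SpecPOL) (hDCB : SpecDCB) (hFEV : SpecFEV) (hKUR : SpecKUR) (hVKA : SpecVKA) : ∀ r ∈ L6, Good 6 r := by
  unfold L6
  refine List.forall_mem_cons.2 ⟨g6_0 hPOL hDCB hFEV hKUR, ?_⟩
  refine List.forall_mem_cons.2 ⟨g6_1 hPOL hDCB hFEV hKUR, ?_⟩
  refine List.forall_mem_cons.2 ⟨g6_2 hPOL hDCB hFEV hKUR, ?_⟩
  refine List.forall_mem_cons.2 ⟨g6_3 hPOL hDCB hFEV hKUR, ?_⟩
  refine List.forall_mem_cons.2 ⟨g6_4 hPOL hDCB hFEV hKUR, ?_⟩
  refine List.forall_mem_cons.2 ⟨g6_5 hPOL hDCB hFEV hKUR, ?_⟩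
  refine List.forall_mem_cons.2 ⟨g6_6 hPOL hDCB hFEV hKUR, ?_⟩
  refine List.forall_mem_cons.2 ⟨g6_7 hPOL hDCB hFEV hKUR, ?_⟩
  refine List.forall_mem_cons.2 ⟨g6_8 hPOL hDCB hFEV hKUR, ?_⟩
  refine List.forall_mem_cons.2 ⟨g6_9 hPOL hDCB hFEV hKUR, ?_⟩
  refine List.forall_mem_cons.2 ⟨g6_10 hVKA, ?_⟩
  refine List.forall_mem_cons.2 ⟨g6_11 hVKA, ?_⟩
  refine List.forall_mem_cons.2 ⟨g6_12 hVKA, ?_⟩
  refine List.forall_mem_cons.2 ⟨g6_13 hVKA, ?_⟩
  refine List.forall_mem_cons.2 ⟨g6_14 hVKA, ?_⟩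
  refine List.forall_mem_cons.2 ⟨g6_15 hVKA, ?_⟩
  refine List.forall_mem_cons.2 ⟨g6_16 hVKA, ?_⟩
  exact fun _ h => absurd h List.not_mem_nil

theorem g7_0 (hPOL : SpecPOL) (hDCB : SpecDCB) (hFEV : SpecFEV) (hKUR : SpecKUR) : Good 7 0x3c150a01020100 :=
  good_ok (c := c11) (by decide +kernel) (u11 hPOL hDCB hFEV) (k11 hPOL hKUR)

theorem g7_1 (hPOL : SpecPOL) (hDCB : SpecDCB) (hFEV : SpecFEV) (hKUR : SpecKUR) : Good 7 0x3c150a03030000 :=
  good_ok (c := c12) (by decide +kernel) (u12 hPOL hDCB hFEV) (k12 hPOL hKUR)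

theorem g7_2 (hPOL : SpecPOL) (hDCB : SpecDCB) (hFEV : SpecFEV) (hKUR : SpecKUR) : Good 7 0x3e1a0c01010100 :=
  good_ok (c := c13) (by decide +kernel) (u13 hPOL hDCB hFEV) (k13 hPOL hKUR)

theorem g7_3 (hPOL : SpecPOL) (hDCB : SpecDCB) (hFEV : SpecFEV) (hKUR : SpecKUR) : Good 7 0x3e190506000100 :=
  good_ok (c := c14) (by decide +kernel) (u14 hPOL hDCB hFEV) (k14 hPOL hKUR)

theorem g7_4 (hPOL : SpecPOL) (hDCB : SpecDCB) (hFEV : SpecFEV) (hKUR : SpecKUR) : Good 7 0x3c0d0d02020100 :=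
  good_ok (c := c15) (by decide +kernel) (u15 hPOL hDCB hFEV) (k15 hPOL hKUR)

theorem g7_5 (hPOL : SpecPOL) (hDCB : SpecDCB) (hFEV : SpecFEV) (hKUR : SpecKUR) : Good 7 0x3e1a0505000100 :=
  good_ok (c := c16) (by decide +kernel) (u16 hPOL hDCB hFEV) (k16 hPOL hKUR)

theorem g7_6 (hPOL : SpecPOL) (hDCB : SpecDCB) (hFEV : SpecFEV) (hKUR : SpecKUR) : Good 7 0x3f0d0d02020000 :=
  good_ok (c := c17) (by decide +kernel) (u17 hPOL hDCB hFEV) (k17 hPOL hKUR)

theorem g7_7 (hPOL : SpecPOL) (hDCB : SpecDCB) (hFEV : SpecFEV) (hKUR : SpecKUR) : Good 7 0x3e1e0c01010100 :=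
  good_ok (c := c18) (by decide +kernel) (u18 hPOL hDCB hFEV) (k18 hPOL hKUR)

theorem g7_8 (hPOL : SpecPOL) (hDCB : SpecDCB) (hFEV : SpecFEV) (hKUR : SpecKUR) : Good 7 0x371b0c05020000 :=
  good_ok (c := c19) (by decide +kernel) (u19 hPOL hDCB hFEV) (k19 hPOL hKUR)

theorem g7_9 (hPOL : SpecPOL) (hDCB : SpecDCB) (hFEV : SpecFEV) (hKUR : SpecKUR) : Good 7 0x3f1c0902030000 :=
  good_ok (c := c20) (by decide +kernel) (u20 hPOL hDCB hFEV) (k20 hPOL hKUR)

theorem g7_10 (hPOL : SpecPOL) (hDCB : SpecDCB) (hFEV : SpecFEV) (hKUR : SpecKUR) : Good 7 0xf170b05020000 :=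
  good_ok (c := c21) (by decide +kernel) (u21 hPOL hDCB hFEV) (k21 hPOL hKUR)

theorem g7_11 (hPOL : SpecPOL) (hDCB : SpecDCB) (hFEV : SpecFEV) (hKUR : SpecKUR) : Good 7 0x3d1e0902030000 :=
  good_ok (c := c22) (by decide +kernel) (u22 hPOL hDCB hFEV) (k22 hPOL hKUR)

theorem g7_12 (hPOL : SpecPOL) (hDCB : SpecDCB) (hFEV : SpecFEV) (hKUR : SpecKUR) : Good 7 0x3e160a05010100 :=
  good_ok (c := c23) (by decide +kernel) (u23 hPOL hDCB hFEV) (k23 hPOL hKUR)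

theorem g7_13 (hPOL : SpecPOL) (hDCB : SpecDCB) (hFEV : SpecFEV) (hKUR : SpecKUR) : Good 7 0x3e1b0505020000 :=
  good_ok (c := c24) (by decide +kernel) (u24 hPOL hDCB hFEV) (k24 hPOL hKUR)

theorem g7_14 (hPOL : SpecPOL) (hDCB : SpecDCB) (hFEV : SpecFEV) (hKUR : SpecKUR) : Good 7 0x3d1e0c01020100 :=
  good_ok (c := c25) (by decide +kernel) (u25 hPOL hDCB hFEV) (k25 hPOL hKUR)

theorem g7_15 (hPOL : SpecPOL) (hDCB : SpecDCB) (hFEV : SpecFEV) (hKUR : SpecKUR) : Good 7 0x3d1a0606010100 :=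
  good_ok (c := c26) (by decide +kernel) (u26 hPOL hDCB hFEV) (k26 hPOL hKUR)

theorem g7_16 (hPOL : SpecPOL) (hDCB : SpecDCB) (hFEV : SpecFEV) (hKUR : SpecKUR) : Good 7 0x3e1b0c01030000 :=
  good_ok (c := c27) (by decide +kernel) (u27 hPOL hDCB hFEV) (k27 hPOL hKUR)

theorem g7_17 (hPOL : SpecPOL) (hDCB : SpecDCB) (hFEV : SpecFEV) (hKUR : SpecKUR) : Good 7 0x3d1e0e01000100 :=
  good_ok (c := c28) (by decide +kernel) (u28 hPOL hDCB hFEV) (k28 hPOL hKUR)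

theorem g7_18 (hPOL : SpecPOL) (hDCB : SpecDCB) (hFEV : SpecFEV) (hKUR : SpecKUR) : Good 7 0x3e0e0e01010100 :=
  good_ok (c := c29) (by decide +kernel) (u29 hPOL hDCB hFEV) (k29 hPOL hKUR)

theorem g7_19 (hPOL : SpecPOL) (hDCB : SpecDCB) (hFEV : SpecFEV) (hKUR : SpecKUR) : Good 7 0x3e1d0d02020100 :=
  good_ok (c := c30) (by decide +kernel) (u30 hPOL hDCB hFEV) (k30 hPOL hKUR)

theorem g7_20 (hPOL : SpecPOL) (hDCB : SpecDCB) (hFEV : SpecFEV) (hKUR : SpecKUR) : Good 7 0x3d1d0e06000100 :=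
  good_ok (c := c31) (by decide +kernel) (u31 hPOL hDCB hFEV) (k31 hPOL hKUR)

theorem g7_21 (hPOL : SpecPOL) (hDCB : SpecDCB) (hFEV : SpecFEV) (hKUR : SpecKUR) : Good 7 0x3d1e0707000000 :=
  good_ok (c := c32) (by decide +kernel) (u32 hPOL hDCB hFEV) (k32 hPOL hKUR)

theorem g7_22 (hPOL : SpecPOL) (hDCB : SpecDCB) (hFEV : SpecFEV) (hKUR : SpecKUR) : Good 7 0x3f1e0a04010100 :=
  good_ok (c := c33) (by decide +kernel) (u33 hPOL hDCB hFEV) (k33 hPOL hKUR)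

theorem g7_23 (hPOL : SpecPOL) (hDCB : SpecDCB) (hFEV : SpecFEV) (hKUR : SpecKUR) : Good 7 0x3f1d0c02020100 :=
  good_ok (c := c34) (by decide +kernel) (u34 hPOL hDCB hFEV) (k34 hPOL hKUR)

theorem g7_24 (hPOL : SpecPOL) (hDCB : SpecDCB) (hFEV : SpecFEV) (hKUR : SpecKUR) : Good 7 0x3f1e0b04010000 :=
  good_ok (c := c35) (by decide +kernel) (u35 hPOL hDCB hFEV) (k35 hPOL hKUR)

theorem g7_25 (hPOL : SpecPOL) (hDCB : SpecDCB) (hFEV : SpecFEV) (hKUR : SpecKUR) : Good 7 0x3f070707000000 :=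
  good_ok (c := c36) (by decide +kernel) (u36 hPOL hDCB hFEV) (k36 hPOL hKUR)

theorem g7_26 (hPOL : SpecPOL) (hDCB : SpecDCB) (hFEV : SpecFEV) (hKUR : SpecKUR) : Good 7 0x3d0f0f02020000 :=
  good_ok (c := c37) (by decide +kernel) (u37 hPOL hDCB hFEV) (k37 hPOL hKUR)

theorem g7_27 (hPOL : SpecPOL) (hDCB : SpecDCB) (hFEV : SpecFEV) (hKUR : SpecKUR) : Good 7 0x3f1e0e01010000 :=
  good_ok (c := c38) (by decide +kernel) (u38 hPOL hDCB hFEV) (k38 hPOL hKUR)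

theorem g7_28 (hPOL : SpecPOL) (hDCB : SpecDCB) (hFEV : SpecFEV) (hKUR : SpecKUR) : Good 7 0x3e1e0e01010100 :=
  good_ok (c := c39) (by decide +kernel) (u39 hPOL hDCB hFEV) (k39 hPOL hKUR)

theorem g7_29 (hPOL : SpecPOL) (hDCB : SpecDCB) (hFEV : SpecFEV) (hKUR : SpecKUR) : Good 7 0x3d1e0303030000 :=
  good_ok (c := c40) (by decide +kernel) (u40 hPOL hDCB hFEV) (k40 hPOL hKUR)

theorem g7_30 (hPOL : SpecPOL) (hDCB : SpecDCB) (hFEV : SpecFEV) (hKUR : SpecKUR) : Good 7 0x3d1e0305020100 :=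
  good_ok (c := c41) (by decide +kernel) (u41 hPOL hDCB hFEV) (k41 hPOL hKUR)

theorem g7_31 (hPOL : SpecPOL) (hDCB : SpecDCB) (hFEV : SpecFEV) (hKUR : SpecKUR) : Good 7 0x3e1b0d04020100 :=
  good_ok (c := c42) (by decide +kernel) (u42 hPOL hDCB hFEV) (k42 hPOL hKUR)

theorem g7_32 (hPOL : SpecPOL) (hDCB : SpecDCB) (hFEV : SpecFEV) (hKUR : SpecKUR) : Good 7 0x3f070b05020000 :=
  good_ok (c := c43) (by decide +kernel) (u43 hPOL hDCB hFEV) (k43 hPOL hKUR)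

theorem g7_33 (hPOL : SpecPOL) (hDCB : SpecDCB) (hFEV : SpecFEV) (hKUR : SpecKUR) : Good 7 0x3e1e0d02010100 :=
  good_ok (c := c44) (by decide +kernel) (u44 hPOL hDCB hFEV) (k44 hPOL hKUR)

theorem g7_34 (hPOL : SpecPOL) (hDCB : SpecDCB) (hFEV : SpecFEV) (hKUR : SpecKUR) : Good 7 0x3d1e0e03010000 :=
  good_ok (c := c45) (by decide +kernel) (u45 hPOL hDCB hFEV) (k45 hPOL hKUR)

theorem g7_35 (hPOL : SpecPOL) (hDCB : SpecDCB) (hFEV : SpecFEV) (hKUR : SpecKUR) : Good 7 0x1f1f0707000000 :=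
  good_ok (c := c46) (by decide +kernel) (u46 hPOL hDCB hFEV) (k46 hPOL hKUR)

theorem g7_36 (hPOL : SpecPOL) (hDCB : SpecDCB) (hFEV : SpecFEV) (hKUR : SpecKUR) : Good 7 0x3f1d0e01020100 :=
  good_ok (c := c47) (by decide +kernel) (u47 hPOL hDCB hFEV) (k47 hPOL hKUR)

theorem g7_37 (hPOL : SpecPOL) (hDCB : SpecDCB) (hFEV : SpecFEV) (hKUR : SpecKUR) : Good 7 0x3f1e0e05000100 :=
  good_ok (c := c48) (by decide +kernel) (u48 hPOL hDCB hFEV) (k48 hPOL hKUR)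

theorem g7_38 (hPOL : SpecPOL) (hDCB : SpecDCB) (hFEV : SpecFEV) (hKUR : SpecKUR) : Good 7 0x3e1e0d03030000 :=
  good_ok (c := c49) (by decide +kernel) (u49 hPOL hDCB hFEV) (k49 hPOL hKUR)

theorem g7_39 (hPOL : SpecPOL) (hDCB : SpecDCB) (hFEV : SpecFEV) (hKUR : SpecKUR) : Good 7 0x3b1d0e06010100 :=
  good_ok (c := c50) (by decide +kernel) (u50 hPOL hDCB hFEV) (k50 hPOL hKUR)

theorem g7_40 (hPOL : SpecPOL) (hDCB : SpecDCB) (hFEV : SpecFEV) (hKUR : SpecKUR) : Good 7 0x3f1e0b05020000 :=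
  good_ok (c := c51) (by decide +kernel) (u51 hPOL hDCB hFEV) (k51 hPOL hKUR)

theorem g7_41 (hPOL : SpecPOL) (hDCB : SpecDCB) (hFEV : SpecFEV) (hKUR : SpecKUR) : Good 7 0x3f1f0305020000 :=
  good_ok (c := c52) (by decide +kernel) (u52 hPOL hDCB hFEV) (k52 hPOL hKUR)

theorem g7_42 (hPOL : SpecPOL) (hDCB : SpecDCB) (hFEV : SpecFEV) (hKUR : SpecKUR) : Good 7 0x3f1f0d02020000 :=
  good_ok (c := c53) (by decide +kernel) (u53 hPOL hDCB hFEV) (k53 hPOL hKUR)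

theorem g7_43 (hPOL : SpecPOL) (hDCB : SpecDCB) (hFEV : SpecFEV) (hKUR : SpecKUR) : Good 7 0x3f1f0d06000000 :=
  good_ok (c := c54) (by decide +kernel) (u54 hPOL hDCB hFEV) (k54 hPOL hKUR)

theorem g7_44 (hPOL : SpecPOL) (hDCB : SpecDCB) (hFEV : SpecFEV) (hKUR : SpecKUR) : Good 7 0x3d1e0707000100 :=
  good_ok (c := c55) (by decide +kernel) (u55 hPOL hDCB hFEV) (k55 hPOL hKUR)

theorem g7_45 (hPOL : SpecPOL) (hDCB : SpecDCB) (hFEV : SpecFEV) (hKUR : SpecKUR) : Good 7 0x3f1e0e01010100 :=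
  good_ok (c := c56) (by decide +kernel) (u56 hPOL hDCB hFEV) (k56 hPOL hKUR)

theorem g7_46 (hPOL : SpecPOL) (hDCB : SpecDCB) (hFEV : SpecFEV) (hKUR : SpecKUR) : Good 7 0x3f1e0707000000 :=
  good_ok (c := c57) (by decide +kernel) (u57 hPOL hDCB hFEV) (k57 hPOL hKUR)

theorem g7_47 (hPOL : SpecPOL) (hDCB : SpecDCB) (hFEV : SpecFEV) (hKUR : SpecKUR) : Good 7 0x3f1d0d06020000 :=
  good_ok (c := c58) (by decide +kernel) (u58 hPOL hDCB hFEV) (k58 hPOL hKUR)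

theorem g7_48 (hPOL : SpecPOL) (hDCB : SpecDCB) (hFEV : SpecFEV) (hKUR : SpecKUR) : Good 7 0x3e1e0e05010100 :=
  good_ok (c := c59) (by decide +kernel) (u59 hPOL hDCB hFEV) (k59 hPOL hKUR)

theorem g7_49 (hPOL : SpecPOL) (hDCB : SpecDCB) (hFEV : SpecFEV) (hKUR : SpecKUR) : Good 7 0x3f1f0f06000000 :=
  good_ok (c := c60) (by decide +kernel) (u60 hPOL hDCB hFEV) (k60 hPOL hKUR)

theorem g7_50 (hPOL : SpecPOL) (hDCB : SpecDCB) (hFEV : SpecFEV) (hKUR : SpecKUR) : Good 7 0x3f1f0e06010000 :=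
  good_ok (c := c61) (by decide +kernel) (u61 hPOL hDCB hFEV) (k61 hPOL hKUR)

theorem g7_51 (hPOL : SpecPOL) (hDCB : SpecDCB) (hFEV : SpecFEV) (hKUR : SpecKUR) : Good 7 0x3f1d0d06020100 :=
  good_ok (c := c62) (by decide +kernel) (u62 hPOL hDCB hFEV) (k62 hPOL hKUR)

theorem g7_52 (hPOL : SpecPOL) (hDCB : SpecDCB) (hFEV : SpecFEV) (hKUR : SpecKUR) : Good 7 0x3f1e0e06010100 :=
  good_ok (c := c63) (by decide +kernel) (u63 hPOL hDCB hFEV) (k63 hPOL hKUR)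

theorem g7_53 (hPOL : SpecPOL) (hDCB : SpecDCB) (hFEV : SpecFEV) (hKUR : SpecKUR) : Good 7 0x3f1f0d06000100 :=
  good_ok (c := c64) (by decide +kernel) (u64 hPOL hDCB hFEV) (k64 hPOL hKUR)

theorem g7_54 (hPOL : SpecPOL) (hDCB : SpecDCB) (hFEV : SpecFEV) (hKUR : SpecKUR) : Good 7 0x3f1d0e03030000 :=
  good_ok (c := c65) (by decide +kernel) (u65 hPOL hDCB hFEV) (k65 hPOL hKUR)

theorem g7_55 (hPOL : SpecPOL) (hDCB : SpecDCB) (hFEV : SpecFEV) (hKUR : SpecKUR) : Good 7 0x3f1f0707000000 :=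
  good_ok (c := c66) (by decide +kernel) (u66 hPOL hDCB hFEV) (k66 hPOL hKUR)

theorem g7_56 (hPOL : SpecPOL) (hDCB : SpecDCB) (hFEV : SpecFEV) (hKUR : SpecKUR) : Good 7 0x3e1e0707010100 :=
  good_ok (c := c67) (by decide +kernel) (u67 hPOL hDCB hFEV) (k67 hPOL hKUR)

theorem g7_57 (hPOL : SpecPOL) (hDCB : SpecDCB) (hFEV : SpecFEV) (hKUR : SpecKUR) : Good 7 0x3f1f0e06010100 :=
  good_ok (c := c68) (by decide +kernel) (u68 hPOL hDCB hFEV) (k68 hPOL hKUR)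

theorem g7_58 (hPOL : SpecPOL) (hDCB : SpecDCB) (hFEV : SpecFEV) (hKUR : SpecKUR) : Good 7 0x3f0f0f03030000 :=
  good_ok (c := c69) (by decide +kernel) (u69 hPOL hDCB hFEV) (k69 hPOL hKUR)

theorem g7_59 (hPOL : SpecPOL) (hDCB : SpecDCB) (hFEV : SpecFEV) (hKUR : SpecKUR) : Good 7 0x3f1f0f06020000 :=
  good_ok (c := c70) (by decide +kernel) (u70 hPOL hDCB hFEV) (k70 hPOL hKUR)

theorem g7_60 (hPOL : SpecPOL) (hDCB : SpecDCB) (hFEV : SpecFEV) (hKUR : SpecKUR) : Good 7 0x3f1f0f07000000 :=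
  good_ok (c := c71) (by decide +kernel) (u71 hPOL hDCB hFEV) (k71 hPOL hKUR)

theorem g7_61 (hPOL : SpecPOL) (hDCB : SpecDCB) (hFEV : SpecFEV) (hKUR : SpecKUR) : Good 7 0x3f1f0f05020000 :=
  good_ok (c := c72) (by decide +kernel) (u72 hPOL hDCB hFEV) (k72 hPOL hKUR)

theorem g7_62 (hPOL : SpecPOL) (hDCB : SpecDCB) (hFEV : SpecFEV) (hKUR : SpecKUR) : Good 7 0x3f1f0f07020000 :=
  good_ok (c := c73) (by decide +kernel) (u73 hPOL hDCB hFEV) (k73 hPOL hKUR)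

theorem g7_63 (hPOL : SpecPOL) (hDCB : SpecDCB) (hFEV : SpecFEV) (hKUR : SpecKUR) : Good 7 0x3f1f0f03030000 :=
  good_ok (c := c74) (by decide +kernel) (u74 hPOL hDCB hFEV) (k74 hPOL hKUR)

theorem g7_64 (hPOL : SpecPOL) (hDCB : SpecDCB) (hFEV : SpecFEV) (hKUR : SpecKUR) : Good 7 0x3f1f0f07030000 :=
  good_ok (c := c75) (by decide +kernel) (u75 hPOL hDCB hFEV) (k75 hPOL hKUR)

theorem g7_65 (hPOL : SpecPOL) (hDCB : SpecDCB) (hFEV : SpecFEV) (hKUR : SpecKUR) : Good 7 0x3f1f0f07030100 :=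
  good_ok (c := c76) (by decide +kernel) (u76 hPOL hDCB hFEV) (k76 hPOL hKUR)

theorem g7_66 (hVKA : SpecVKA) : Good 7 0x70b0d06020000 :=
  good_np (c := p10) (by decide +kernel) (np10 hVKA)

theorem g7_67 (hVKA : SpecVKA) : Good 7 0x70b0d06020100 :=
  good_np (c := p11) (by decide +kernel) (np11 hVKA)

theorem g7_68 (hVKA : SpecVKA) : Good 7 0x70b0d06030100 :=
  good_np (c := p12) (by decide +kernel) (np12 hVKA)

theorem g7_69 (hVKA : SpecVKA) : Good 7 0x70b0d07030100 :=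
  good_np (c := p13) (by decide +kernel) (np13 hVKA)

theorem g7_70 (hVKA : SpecVKA) : Good 7 0x71b0d06000100 :=
  good_np (c := p14) (by decide +kernel) (np14 hVKA)

theorem g7_71 (hVKA : SpecVKA) : Good 7 0x71b0d06010100 :=
  good_np (c := p15) (by decide +kernel) (np15 hVKA)

theorem g7_72 (hVKA : SpecVKA) : Good 7 0x71b0d06030100 :=
  good_np (c := p16) (by decide +kernel) (np16 hVKA)

theorem g7_73 (hVKA : SpecVKA) : Good 7 0xf170b03030000 :=
  good_np (c := p17) (by decide +kernel) (np17 hVKA)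

def L7 : List ℕ := [0x3c150a01020100, 0x3c150a03030000, 0x3e1a0c01010100, 0x3e190506000100, 0x3c0d0d02020100, 0x3e1a0505000100, 0x3f0d0d02020000, 0x3e1e0c01010100, 0x371b0c05020000, 0x3f1c0902030000, 0xf170b05020000, 0x3d1e0902030000, 0x3e160a05010100, 0x3e1b0505020000, 0x3d1e0c01020100, 0x3d1a0606010100, 0x3e1b0c01030000, 0x3d1e0e01000100, 0x3e0e0e01010100, 0x3e1d0d02020100, 0x3d1d0e06000100, 0x3d1e0707000000, 0x3f1e0a04010100, 0x3f1d0c02020100, 0x3f1e0b04010000, 0x3f070707000000, 0x3d0f0f02020000, 0x3f1e0e01010000, 0x3e1e0e01010100, 0x3d1e0303030000, 0x3d1e0305020100, 0x3e1b0d04020100, 0x3f070b05020000, 0x3e1e0d02010100, 0x3d1e0e03010000, 0x1f1f0707000000, 0x3f1d0e01020100, 0x3f1e0e05000100, 0x3e1e0d03030000, 0x3b1d0e06010100, 0x3f1e0b05020000, 0x3f1f0305020000, 0x3f1f0d02020000, 0x3f1f0d06000000, 0x3d1e0707000100, 0x3f1e0e01010100, 0x3f1e0707000000, 0x3f1d0d06020000, 0x3e1e0e05010100, 0x3f1f0f06000000,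 0x3f1f0e06010000, 0x3f1d0d06020100, 0x3f1e0e06010100, 0x3f1f0d06000100, 0x3f1d0e03030000, 0x3f1f0707000000, 0x3e1e0707010100, 0x3f1f0e06010100, 0x3f0f0f03030000, 0x3f1f0f06020000, 0x3f1f0f07000000, 0x3f1f0f05020000, 0x3f1f0f07020000, 0x3f1f0f03030000, 0x3f1f0f07030000, 0x3f1f0f07030100, 0x70b0d06020000, 0x70b0d06020100, 0x70b0d06030100, 0x70b0d07030100, 0x71b0d06000100, 0x71b0d06010100, 0x71b0d06030100, 0xf170b03030000]

theorem goods7 (hPOL : SpecPOL) (hDCB : SpecDCB) (hFEV : SpecFEV) (hKUR : SpecKUR) (hVKA : SpecVKA) : ∀ r ∈ L7, Good 7 r := by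
  unfold L7
  refine List.forall_mem_cons.2 ⟨g7_0 hPOL hDCB hFEV hKUR, ?_⟩
  refine List.forall_mem_cons.2 ⟨g7_1 hPOL hDCB hFEV hKUR, ?_⟩
  refine List.forall_mem_cons.2 ⟨g7_2 hPOL hDCB hFEV hKUR, ?_⟩
  refine List.forall_mem_cons.2 ⟨g7_3 hPOL hDCB hFEV hKUR, ?_⟩
  refine List.forall_mem_cons.2 ⟨g7_4 hPOL hDCB hFEV hKUR, ?_⟩
  refine List.forall_mem_cons.2 ⟨g7_5 hPOL hDCB hFEV hKUR, ?_⟩
  refine List.forall_mem_cons.2 ⟨g7_6 hPOL hDCB hFEV hKUR, ?_⟩
  refine List.forall_mem_cons.2 ⟨g7_7 hPOL hDCB hFEV hKUR, ?_⟩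
  refine List.forall_mem_cons.2 ⟨g7_8 hPOL hDCB hFEV hKUR, ?_⟩
  refine List.forall_mem_cons.2 ⟨g7_9 hPOL hDCB hFEV hKUR, ?_⟩
  refine List.forall_mem_cons.2 ⟨g7_10 hPOL hDCB hFEV hKUR, ?_⟩
  refine List.forall_mem_cons.2 ⟨g7_11 hPOL hDCB hFEV hKUR, ?_⟩
  refine List.forall_mem_cons.2 ⟨g7_12 hPOL hDCB hFEV hKUR, ?_⟩
  refine List.forall_mem_cons.2 ⟨g7_13 hPOL hDCB hFEV hKUR, ?_⟩
  refine List.forall_mem_cons.2 ⟨g7_14 hPOL hDCB hFEV hKUR, ?_⟩
  refine List.forall_mem_cons.2 ⟨g7_15 hPOL hDCB hFEV hKUR, ?_⟩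
  refine List.forall_mem_cons.2 ⟨g7_16 hPOL hDCB hFEV hKUR, ?_⟩
  refine List.forall_mem_cons.2 ⟨g7_17 hPOL hDCB hFEV hKUR, ?_⟩
  refine List.forall_mem_cons.2 ⟨g7_18 hPOL hDCB hFEV hKUR, ?_⟩
  refine List.forall_mem_cons.2 ⟨g7_19 hPOL hDCB hFEV hKUR, ?_⟩
  refine List.forall_mem_cons.2 ⟨g7_20 hPOL hDCB hFEV hKUR, ?_⟩
  refine List.forall_mem_cons.2 ⟨g7_21 hPOL hDCB hFEV hKUR, ?_⟩
  refine List.forall_mem_cons.2 ⟨g7_22 hPOL hDCB hFEV hKUR, ?_⟩
  refine List.forall_mem_cons.2 ⟨g7_23 hPOL hDCB hFEV hKUR, ?_⟩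
  refine List.forall_mem_cons.2 ⟨g7_24 hPOL hDCB hFEV hKUR, ?_⟩
  refine List.forall_mem_cons.2 ⟨g7_25 hPOL hDCB hFEV hKUR, ?_⟩
  refine List.forall_mem_cons.2 ⟨g7_26 hPOL hDCB hFEV hKUR, ?_⟩
  refine List.forall_mem_cons.2 ⟨g7_27 hPOL hDCB hFEV hKUR, ?_⟩
  refine List.forall_mem_cons.2 ⟨g7_28 hPOL hDCB hFEV hKUR, ?_⟩
  refine List.forall_mem_cons.2 ⟨g7_29 hPOL hDCB hFEV hKUR, ?_⟩
  refine List.forall_mem_cons.2 ⟨g7_30 hPOL hDCB hFEV hKUR, ?_⟩
  refine List.forall_mem_cons.2 ⟨g7_31 hPOL hDCB hFEV hKUR, ?_⟩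
  refine List.forall_mem_cons.2 ⟨g7_32 hPOL hDCB hFEV hKUR, ?_⟩
  refine List.forall_mem_cons.2 ⟨g7_33 hPOL hDCB hFEV hKUR, ?_⟩
  refine List.forall_mem_cons.2 ⟨g7_34 hPOL hDCB hFEV hKUR, ?_⟩
  refine List.forall_mem_cons.2 ⟨g7_35 hPOL hDCB hFEV hKUR, ?_⟩
  refine List.forall_mem_cons.2 ⟨g7_36 hPOL hDCB hFEV hKUR, ?_⟩
  refine List.forall_mem_cons.2 ⟨g7_37 hPOL hDCB hFEV hKUR, ?_⟩
  refine List.forall_mem_cons.2 ⟨g7_38 hPOL hDCB hFEV hKUR, ?_⟩
  refine List.forall_mem_cons.2 ⟨g7_39 hPOL hDCB hFEV hKUR, ?_⟩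
  refine List.forall_mem_cons.2 ⟨g7_40 hPOL hDCB hFEV hKUR, ?_⟩
  refine List.forall_mem_cons.2 ⟨g7_41 hPOL hDCB hFEV hKUR, ?_⟩
  refine List.forall_mem_cons.2 ⟨g7_42 hPOL hDCB hFEV hKUR, ?_⟩
  refine List.forall_mem_cons.2 ⟨g7_43 hPOL hDCB hFEV hKUR, ?_⟩
  refine List.forall_mem_cons.2 ⟨g7_44 hPOL hDCB hFEV hKUR, ?_⟩
  refine List.forall_mem_cons.2 ⟨g7_45 hPOL hDCB hFEV hKUR, ?_⟩
  refine List.forall_mem_cons.2 ⟨g7_46 hPOL hDCB hFEV hKUR, ?_⟩
  refine List.forall_mem_cons.2 ⟨g7_47 hPOL hDCB hFEV hKUR, ?_⟩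
  refine List.forall_mem_cons.2 ⟨g7_48 hPOL hDCB hFEV hKUR, ?_⟩
  refine List.forall_mem_cons.2 ⟨g7_49 hPOL hDCB hFEV hKUR, ?_⟩
  refine List.forall_mem_cons.2 ⟨g7_50 hPOL hDCB hFEV hKUR, ?_⟩
  refine List.forall_mem_cons.2 ⟨g7_51 hPOL hDCB hFEV hKUR, ?_⟩
  refine List.forall_mem_cons.2 ⟨g7_52 hPOL hDCB hFEV hKUR, ?_⟩
  refine List.forall_mem_cons.2 ⟨g7_53 hPOL hDCB hFEV hKUR, ?_⟩
  refine List.forall_mem_cons.2 ⟨g7_54 hPOL hDCB hFEV hKUR, ?_⟩
  refine List.forall_mem_cons.2 ⟨g7_55 hPOL hDCB hFEV hKUR, ?_⟩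
  refine List.forall_mem_cons.2 ⟨g7_56 hPOL hDCB hFEV hKUR, ?_⟩
  refine List.forall_mem_cons.2 ⟨g7_57 hPOL hDCB hFEV hKUR, ?_⟩
  refine List.forall_mem_cons.2 ⟨g7_58 hPOL hDCB hFEV hKUR, ?_⟩
  refine List.forall_mem_cons.2 ⟨g7_59 hPOL hDCB hFEV hKUR, ?_⟩
  refine List.forall_mem_cons.2 ⟨g7_60 hPOL hDCB hFEV hKUR, ?_⟩
  refine List.forall_mem_cons.2 ⟨g7_61 hPOL hDCB hFEV hKUR, ?_⟩
  refine List.forall_mem_cons.2 ⟨g7_62 hPOL hDCB hFEV hKUR, ?_⟩
  refine List.forall_mem_cons.2 ⟨g7_63 hPOL hDCB hFEV hKUR, ?_⟩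
  refine List.forall_mem_cons.2 ⟨g7_64 hPOL hDCB hFEV hKUR, ?_⟩
  refine List.forall_mem_cons.2 ⟨g7_65 hPOL hDCB hFEV hKUR, ?_⟩
  refine List.forall_mem_cons.2 ⟨g7_66 hVKA, ?_⟩
  refine List.forall_mem_cons.2 ⟨g7_67 hVKA, ?_⟩
  refine List.forall_mem_cons.2 ⟨g7_68 hVKA, ?_⟩
  refine List.forall_mem_cons.2 ⟨g7_69 hVKA, ?_⟩
  refine List.forall_mem_cons.2 ⟨g7_70 hVKA, ?_⟩
  refine List.forall_mem_cons.2 ⟨g7_71 hVKA, ?_⟩
  refine List.forall_mem_cons.2 ⟨g7_72 hVKA, ?_⟩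
  refine List.forall_mem_cons.2 ⟨g7_73 hVKA, ?_⟩
  exact fun _ h => absurd h List.not_mem_nil

end DL.BASE
end

section
/-!
MP_3ff0f8_gt, ALGEBRA HALF: the base of the induction: all nonplanar graphs of class `C1` with at most 7
vertices.  (helper59)
-/
set_option maxRecDepth 100000

open SimpleGraph Finset

namespace DL

open BASE

theorem topBase (hPOL : SpecPOL) (hDCB : SpecDCB) (hFEV : SpecFEV) (hKUR : SpecKUR) (hVKA : SpecVKA) :
    TopBase := by
  intro α _ _ G hC hNP hn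
  have h3 : 3 < (VS G).card := hC.1.1
  have h47 : (VS G).card = 4 ∨ (VS G).card = 5 ∨ (VS G).card = 6 ∨ (VS G).card = 7 := by omega
  rcases h47 with h | h | h | h
  · exact finA_sound fin4 (tabL_sound (by decide +kernel) (goods4 hPOL hDCB hFEV hKUR hVKA)) reps4 h hC hNP
  · exact finA_sound fin5 (tabL_sound (by decide +kernel) (goods5 hPOL hDCB hFEV hKUR hVKA)) reps5 h hC hNP
  · exact finA_sound fin6 (tabL_sound (by decide +kernel) (goods6 hPOL hDCB hFEV hKUR hVKA)) reps6 h hC hNP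
  · exact finB_sound fin7 (tabL_sound (by decide +kernel) (goods7 hPOL hDCB hFEV hKUR hVKA)) reps6 h hC hNP

end DL
end
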